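import Mathlib

/-!
# Mertens type limits for the von Mangoldt function
-/

open Filter Set MeasureTheory Topology ArithmeticFunction

namespace Pool.Agent.H4

open ArithmeticFunction.vonMangoldt in
/-- `Σ Λ(n) n^{-x}` minus the pole is continuous up to `x = 1`. -/
theorem tsum_vonMangoldt_eq {x : ℝ} (hx : 1 < x) :
    ∑' n : ℕ, vonMangoldt n / (n : ℝ) ^ x =
      (LFunctionResidueClassAux (1 : ZMod 1) x).re + 1 / (x - 1) := by
  have ha : IsUnit (1 : ZMod 1) := isUnit_one
  have hres : ∀ n : ℕ, residueClass (1 : ZMod 1) n = vonMangoldt n := by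
    intro n
    rw [residueClass, Set.indicator_of_mem]
    exact Subsingleton.elim _ _
  have h0 : (Nat.totient 1 : ℂ)⁻¹ = 1 := by simp
  refine Complex.ofReal_injective ?_
  simp only [Complex.ofReal_tsum, Complex.ofReal_div, Complex.ofReal_cpow (Nat.cast_nonneg _),
    Complex.ofReal_natCast, Complex.ofReal_add, Complex.ofReal_sub, Complex.ofReal_one]
  simp_rw [← LFunctionResidueClassAux_real ha hx,
      eqOn_LFunctionResidueClassAux ha <| Set.mem_ofPred.mpr (Complex.ofReal_re x ▸ hx), h0,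
      sub_add_cancel, LSeries, LSeries.term, hres]
  refine tsum_congr fun n ↦ ?_
  split_ifs with hn
  · simp [hn]
  · rfl

theorem summable_vonMangoldt_div_rpow {x : ℝ} (hx : 1 < x) :
    Summable fun n : ℕ => vonMangoldt n / (n : ℝ) ^ x := by
  have h := LSeriesSummable_vonMangoldt (s := (x : ℂ)) (by simpa using hx)
  have h2 := h.norm
  refine h2.congr fun n => ?_
  rw [LSeries.norm_term_eq]
  split_ifs with hn
  · simp [hn]
  · simp [abs_of_nonneg (vonMangoldt_nonneg (n := n))]

open ArithmeticFunction.vonMangoldt in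
theorem tendsto_mul_tsum_vonMangoldt :
    Tendsto (fun σ : ℝ => σ * ∑' n : ℕ, vonMangoldt n / (n : ℝ) ^ (1 + σ)) (𝓝[>] 0) (𝓝 1) := by
  have hcont : ContinuousOn (fun x : ℝ ↦ (LFunctionResidueClassAux (1 : ZMod 1) x).re) (Set.Icc 1 2) :=
    Complex.continuous_re.continuousOn.comp (t := Set.univ)
      (continuousOn_LFunctionResidueClassAux (1 : ZMod 1))
      (fun ⦃x⦄ a ↦ trivial) |>.comp Complex.continuous_ofReal.continuousOn fun x hx ↦ by
        simpa only [Set.mem_ofPred_eq, Complex.ofReal_re] using hx.1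
  obtain ⟨K, hK⟩ := (isCompact_Icc.bddAbove_image hcont.abs)
  have hK' : ∀ x ∈ Icc (1:ℝ) 2, |(LFunctionResidueClassAux (1 : ZMod 1) x).re| ≤ K := fun x hx =>
    hK ⟨x, hx, rfl⟩
  have h1 : ∀ᶠ σ : ℝ in 𝓝[>] 0, σ ∈ Ioo (0:ℝ) 1 := Ioo_mem_nhdsGT one_pos
  rw [tendsto_iff_norm_sub_tendsto_zero]
  have h2 : Tendsto (fun σ : ℝ => σ * K) (𝓝[>] 0) (𝓝 0) := by
    have : Tendsto (fun σ : ℝ => σ * K) (𝓝 0) (𝓝 (0 * K)) :=
      (continuous_id.mul continuous_const).tendsto 0
    rw [zero_mul] at this
    exact this.mono_left nhdsWithin_le_nhds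
  refine squeeze_zero' (Eventually.of_forall fun _ => norm_nonneg _) ?_ h2
  filter_upwards [h1] with σ hσ
  rw [tsum_vonMangoldt_eq (by linarith [hσ.1])]
  have e : σ * ((LFunctionResidueClassAux (1 : ZMod 1) ((1 + σ : ℝ) : ℂ)).re + 1 / (1 + σ - 1)) - 1
      = σ * (LFunctionResidueClassAux (1 : ZMod 1) ((1 + σ : ℝ) : ℂ)).re := by
    have : σ ≠ 0 := hσ.1.ne'
    have e1 : (1 + σ - 1) = σ := by ring
    rw [e1, mul_add, mul_one_div_cancel this, add_sub_cancel_right]
  rw [e, norm_mul, Real.norm_eq_abs, Real.norm_eq_abs, abs_of_pos hσ.1]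
  exact mul_le_mul_of_nonneg_left (hK' _ ⟨by linarith [hσ.1], by linarith [hσ.2]⟩) hσ.1.le

theorem term_eq (j n : ℕ) {L : ℝ} (hL : 0 < L) :
    vonMangoldt n / (n : ℝ) ^ (1 + ((j:ℝ) + 1) / L)
      = vonMangoldt n / n * (Real.exp (-(Real.log n / L))) ^ (j + 1) := by
  rcases Nat.eq_zero_or_pos n with rfl | hn
  · simp
  have hn0 : (0:ℝ) < n := by exact_mod_cast hn
  have e1 : (Real.exp (-(Real.log n / L))) ^ (j + 1) = ((n : ℝ) ^ (((j:ℝ) + 1) / L))⁻¹ := by
    rw [← Real.exp_nat_mul, Real.rpow_def_of_pos hn0, ← Real.exp_neg]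
    congr 1
    push_cast
    field_simp
  rw [e1, Real.rpow_add hn0, Real.rpow_one]
  field_simp

/-- exponential test functions -/
theorem tendsto_exp_test (j : ℕ) :
    Tendsto (fun L : ℝ => (1 / L) * ∑' n : ℕ, vonMangoldt n / n *
      (Real.exp (-(Real.log n / L))) ^ (j + 1)) atTop (𝓝 (1 / (j + 1 : ℝ))) := by
  have hj : (0:ℝ) < (j + 1 : ℝ) := by positivity
  have h1 : Tendsto (fun L : ℝ => ((j:ℝ) + 1) / L) atTop (𝓝[>] 0) := by
    rw [tendsto_nhdsWithin_iff]
    refine ⟨tendsto_const_nhds.div_atTop tendsto_id, ?_⟩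
    filter_upwards [eventually_gt_atTop 0] with L hL
    exact div_pos hj hL
  have h2 := (tendsto_mul_tsum_vonMangoldt.comp h1).const_mul (1 / ((j:ℝ) + 1))
  rw [mul_one] at h2
  refine h2.congr' ?_
  filter_upwards [eventually_gt_atTop 0] with L hL
  simp only [Function.comp]
  rw [← mul_assoc]
  congr 1
  · field_simp
  · exact tsum_congr fun n => term_eq j n hL

theorem summable_exp_test (j : ℕ) {L : ℝ} (hL : 0 < L) :
    Summable fun n : ℕ => vonMangoldt n / n * (Real.exp (-(Real.log n / L))) ^ (j + 1) := by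
  have hj : (0:ℝ) < (j + 1 : ℝ) / L := by positivity
  exact (summable_vonMangoldt_div_rpow (x := 1 + (j + 1) / L) (by linarith)).congr fun n =>
    term_eq j n hL

theorem integral_exp_test (j : ℕ) :
    ∫ x in Ioi (0:ℝ), (Real.exp (-x)) ^ (j + 1) = 1 / (j + 1 : ℝ) := by
  have hj : (0:ℝ) < (j + 1 : ℝ) := by positivity
  have h1 : ∀ x : ℝ, (Real.exp (-x)) ^ (j + 1) = Real.exp ((-(j + 1 : ℝ)) * x) := by
    intro x
    rw [← Real.exp_nat_mul]
    congr 1
    push_cast; ring
  simp_rw [h1]
  rw [integral_exp_mul_Ioi (by linarith) 0, mul_zero, Real.exp_zero, neg_div_neg_eq]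

theorem integrableOn_exp_test (j : ℕ) :
    IntegrableOn (fun x : ℝ => (Real.exp (-x)) ^ (j + 1)) (Ioi 0) := by
  have hj : (0:ℝ) < (j + 1 : ℝ) := by positivity
  have h1 : ∀ x : ℝ, (Real.exp (-x)) ^ (j + 1) = Real.exp (-(j + 1 : ℝ) * x) := by
    intro x
    rw [← Real.exp_nat_mul]
    congr 1
    push_cast; ring
  simp_rw [h1]
  exact exp_neg_integrableOn_Ioi 0 hj

/-- polynomial test functions `e^{-x} P(e^{-x})` -/
theorem tendsto_poly_test (P : Polynomial ℝ) :
    Tendsto (fun L : ℝ => (1 / L) * ∑' n : ℕ, vonMangoldt n / n *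
      (Real.exp (-(Real.log n / L)) * P.eval (Real.exp (-(Real.log n / L))))) atTop
      (𝓝 (∫ x in Ioi (0:ℝ), Real.exp (-x) * P.eval (Real.exp (-x)))) := by
  have e1 : ∀ u : ℝ, u * P.eval u = ∑ j ∈ Finset.range (P.natDegree + 1), P.coeff j * u ^ (j + 1) := by
    intro u
    rw [Polynomial.eval_eq_sum_range, Finset.mul_sum]
    refine Finset.sum_congr rfl fun j _ => ?_
    ring
  simp_rw [e1]
  rw [integral_finsetSum _ (fun j _ => (integrableOn_exp_test j).const_mul _)]
  simp_rw [integral_const_mul, integral_exp_test]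
  have h2 : Tendsto (fun L : ℝ => ∑ j ∈ Finset.range (P.natDegree + 1), P.coeff j *
      ((1 / L) * ∑' n : ℕ, vonMangoldt n / n * (Real.exp (-(Real.log n / L))) ^ (j + 1))) atTop
      (𝓝 (∑ j ∈ Finset.range (P.natDegree + 1), P.coeff j * (1 / (j + 1 : ℝ)))) :=
    tendsto_finsetSum _ fun j _ => (tendsto_exp_test j).const_mul _
  refine h2.congr' ?_
  filter_upwards [eventually_gt_atTop 0] with L hL
  simp_rw [Finset.mul_sum]
  rw [Summable.tsum_finsetSum]
  · rw [Finset.mul_sum]
    refine Finset.sum_congr rfl fun j _ => ?_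
    rw [mul_left_comm, ← tsum_mul_left]
    congr 1
    refine tsum_congr fun n => ?_
    ring
  · intro j _
    refine ((summable_exp_test j hL).mul_left (P.coeff j)).congr fun n => ?_
    ring

/-- **First Mertens limit**: `(1/L) Σ Λ(n)/n k(log n / L) → ∫_0^∞ k`. -/
theorem mertens_one {k : ℝ → ℝ} (hk : Continuous k) (hs : HasCompactSupport k) :
    Tendsto (fun L : ℝ => (1 / L) * ∑' n : ℕ, vonMangoldt n / n * k (Real.log n / L)) atTop
      (𝓝 (∫ x in Ioi (0:ℝ), k x)) := by
  obtain ⟨B, hB0, hB⟩ : ∃ B : ℝ, 0 < B ∧ ∀ x, B ≤ x → k x = 0 := by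
    obtain ⟨R, hR⟩ := hs.isCompact.isBounded.subset_closedBall 0
    refine ⟨|R| + 1, by positivity, fun x hx => ?_⟩
    by_contra h
    have := hR (subset_tsupport k h)
    rw [mem_closedBall_zero_iff, Real.norm_eq_abs] at this
    have h1 := le_abs_self x
    have h2 := le_abs_self R
    linarith
  -- the function on [0,1]
  let g : ℝ → ℝ := fun u => k (-Real.log u) / u
  have hg0 : ∀ u, 0 ≤ u → u ≤ Real.exp (-B) → g u = 0 := by
    intro u hu0 hu
    rcases eq_or_lt_of_le hu0 with h | h
    · simp [g, ← h]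
    · have : B ≤ -Real.log u := by
        have := Real.log_le_log h hu
        rw [Real.log_exp] at this
        linarith
      simp [g, hB _ this]
  have hgc : ContinuousOn g (Icc 0 1) := by
    intro u hu
    rcases eq_or_lt_of_le hu.1 with h | h
    · -- near 0 the function vanishes
      subst h
      have : g =ᶠ[𝓝[Icc 0 1] 0] fun _ => 0 := by
        have h1 : Iio (Real.exp (-B)) ∈ 𝓝 (0:ℝ) := Iio_mem_nhds (Real.exp_pos _)
        filter_upwards [self_mem_nhdsWithin, mem_nhdsWithin_of_mem_nhds h1] with v hv hv2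
        exact hg0 v hv.1 (le_of_lt hv2)
      have h2 : g 0 = 0 := hg0 0 le_rfl (Real.exp_pos _).le
      exact (continuousWithinAt_const.congr_of_eventuallyEq this h2)
    · have h1 : ContinuousAt (fun u => k (-Real.log u)) u :=
        hk.continuousAt.comp (Real.continuousAt_log h.ne').neg
      exact (h1.div continuousAt_id h.ne').continuousWithinAt
  have hkg : ∀ x, k x = Real.exp (-x) * g (Real.exp (-x)) := by
    intro x
    simp only [g, Real.log_exp, neg_neg]
    field_simp
  rw [Metric.tendsto_atTop]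
  intro ε hε
  obtain ⟨P, hP⟩ := exists_polynomial_near_of_continuousOn 0 1 g hgc (ε / 8) (by positivity)
  -- pointwise comparison
  have hcmp : ∀ x : ℝ, 0 ≤ x → |k x - Real.exp (-x) * P.eval (Real.exp (-x))|
      ≤ ε / 8 * (Real.exp (-x)) ^ (0 + 1) := by
    intro x hx
    have h1 : Real.exp (-x) ∈ Icc (0:ℝ) 1 := ⟨(Real.exp_pos _).le, Real.exp_le_one_iff.mpr (by linarith)⟩
    have h2 := hP _ h1
    rw [hkg x, ← mul_sub, abs_mul, abs_of_pos (Real.exp_pos _), abs_sub_comm, zero_add, pow_one,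
      mul_comm]
    exact mul_le_mul_of_nonneg_right h2.le (Real.exp_pos _).le
  have hkint : IntegrableOn k (Ioi 0) := (hk.integrable_of_hasCompactSupport hs).integrableOn
  have hPint : IntegrableOn (fun x => Real.exp (-x) * P.eval (Real.exp (-x))) (Ioi 0) := by
    have e1 : ∀ u : ℝ, u * P.eval u = ∑ j ∈ Finset.range (P.natDegree + 1), P.coeff j * u ^ (j + 1) := by
      intro u
      rw [Polynomial.eval_eq_sum_range, Finset.mul_sum]
      refine Finset.sum_congr rfl fun j _ => ?_
      ring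
    simp_rw [e1]
    exact integrable_finsetSum _ (fun j _ => (integrableOn_exp_test j).const_mul _)
  have hI : |(∫ x in Ioi (0:ℝ), k x) - ∫ x in Ioi (0:ℝ), Real.exp (-x) * P.eval (Real.exp (-x))|
      ≤ ε / 8 := by
    rw [← integral_sub hkint hPint]
    have h1 := norm_integral_le_of_norm_le (μ := volume.restrict (Ioi (0:ℝ)))
      (f := fun x => k x - Real.exp (-x) * P.eval (Real.exp (-x)))
      ((integrableOn_exp_test 0).const_mul (ε / 8)) (by
        rw [ae_restrict_iff' measurableSet_Ioi]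
        exact Eventually.of_forall fun x hx => hcmp x (le_of_lt hx))
    rw [integral_const_mul, integral_exp_test] at h1
    simpa using h1
  -- limits
  have t1 := tendsto_poly_test P
  have t2 := tendsto_exp_test 0
  rw [Metric.tendsto_atTop] at t1 t2
  obtain ⟨L1, hL1⟩ := t1 (ε / 8) (by positivity)
  obtain ⟨L2, hL2⟩ := t2 1 one_pos
  refine ⟨max (max L1 L2) 1, fun L hL => ?_⟩
  have hLpos : 0 < L := lt_of_lt_of_le one_pos ((le_max_right _ _).trans hL)
  have hLL1 : L1 ≤ L := (le_max_left _ _).trans ((le_max_left _ _).trans hL)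
  have hLL2 : L2 ≤ L := (le_max_right _ _).trans ((le_max_left _ _).trans hL)
  have a1 := hL1 L hLL1
  have a2 := hL2 L hLL2
  rw [Real.dist_eq] at a1 a2 ⊢
  -- summability
  have hx0 : ∀ n : ℕ, 0 ≤ Real.log n / L := fun n =>
    div_nonneg (Real.log_natCast_nonneg n) hLpos.le
  have hsE := summable_exp_test 0 hLpos
  have hsP : Summable fun n : ℕ => vonMangoldt n / n *
      (Real.exp (-(Real.log n / L)) * P.eval (Real.exp (-(Real.log n / L)))) := by
    have e1 : ∀ u : ℝ, u * P.eval u = ∑ j ∈ Finset.range (P.natDegree + 1), P.coeff j * u ^ (j + 1) := by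
      intro u
      rw [Polynomial.eval_eq_sum_range, Finset.mul_sum]
      refine Finset.sum_congr rfl fun j _ => ?_
      ring
    simp_rw [e1, Finset.mul_sum]
    refine summable_sum fun j _ => ?_
    refine ((summable_exp_test j hLpos).mul_left (P.coeff j)).congr fun n => ?_
    ring
  have hsD : Summable fun n : ℕ => vonMangoldt n / n * (k (Real.log n / L) -
      Real.exp (-(Real.log n / L)) * P.eval (Real.exp (-(Real.log n / L)))) := by
    refine Summable.of_norm_bounded (hsE.mul_left (ε / 8)) fun n => ?_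
    rw [norm_mul, Real.norm_eq_abs, Real.norm_eq_abs,
      abs_of_nonneg (div_nonneg vonMangoldt_nonneg (Nat.cast_nonneg n)), mul_left_comm]
    exact mul_le_mul_of_nonneg_left (hcmp _ (hx0 n))
      (div_nonneg vonMangoldt_nonneg (Nat.cast_nonneg n))
  have hsK : Summable fun n : ℕ => vonMangoldt n / n * k (Real.log n / L) := by
    refine (hsD.add hsP).congr fun n => ?_
    ring
  have hdiff : |(1 / L) * ∑' n : ℕ, vonMangoldt n / n * k (Real.log n / L) -
      (1 / L) * ∑' n : ℕ, vonMangoldt n / n *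
      (Real.exp (-(Real.log n / L)) * P.eval (Real.exp (-(Real.log n / L))))| ≤
      ε / 8 * ((1 / L) * ∑' n : ℕ, vonMangoldt n / n * (Real.exp (-(Real.log n / L))) ^ (0 + 1)) := by
    rw [← mul_sub, ← hsK.tsum_sub hsP, abs_mul, abs_of_pos (by positivity : 0 < 1 / L)]
    rw [mul_left_comm, ← tsum_mul_left]
    apply mul_le_mul_of_nonneg_left _ (by positivity)
    rw [← Real.norm_eq_abs]
    refine tsum_of_norm_bounded (hsE.mul_left (ε / 8)).hasSum fun n => ?_
    rw [← mul_sub, norm_mul, Real.norm_eq_abs, Real.norm_eq_abs,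
      abs_of_nonneg (div_nonneg vonMangoldt_nonneg (Nat.cast_nonneg n)), mul_left_comm (ε / 8)]
    exact mul_le_mul_of_nonneg_left (hcmp _ (hx0 n))
      (div_nonneg vonMangoldt_nonneg (Nat.cast_nonneg n))
  have hm : (1 / L) * ∑' n : ℕ, vonMangoldt n / n * (Real.exp (-(Real.log n / L))) ^ (0 + 1) ≤ 2 := by
    rw [abs_lt] at a2
    have := a2.2
    simp only [Nat.cast_zero, zero_add, div_one] at this
    simp only [zero_add]
    linarith
  have hdiff2 : |(1 / L) * ∑' n : ℕ, vonMangoldt n / n * k (Real.log n / L) -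
      (1 / L) * ∑' n : ℕ, vonMangoldt n / n *
      (Real.exp (-(Real.log n / L)) * P.eval (Real.exp (-(Real.log n / L))))| ≤ ε / 8 * 2 :=
    hdiff.trans (mul_le_mul_of_nonneg_left hm (by positivity))
  rw [abs_le] at hdiff2 hI
  rw [abs_lt] at a1 ⊢
  constructor <;> linarith [hdiff2.1, hdiff2.2, hI.1, hI.2, a1.1, a1.2]

/-- The non-prime part of `Λ(n)/n` is summable. -/
theorem summable_nonprime : Summable fun n : ℕ => (if n.Prime then 0 else vonMangoldt n) / (n : ℝ) := by
  have := ArithmeticFunction.vonMangoldt.summable_residueClass_non_primes_div (1 : ZMod 1)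
  refine this.congr fun n => ?_
  congr 1
  split_ifs
  · rfl
  · rw [ArithmeticFunction.vonMangoldt.residueClass, Set.indicator_of_mem]
    exact Subsingleton.elim _ _

/-- **Second Mertens limit**: `(1/L²) Σ Λ(n)²/n h(log n / L) → ∫_0^∞ x h(x) dx`. -/
theorem mertens_two {h : ℝ → ℝ} (hh : Continuous h) (hs : HasCompactSupport h) :
    Tendsto (fun L : ℝ => (1 / L ^ 2) * ∑' n : ℕ, (vonMangoldt n) ^ 2 / n * h (Real.log n / L)) atTop
      (𝓝 (∫ x in Ioi (0:ℝ), x * h x)) := by
  have h1 := mertens_one (k := fun x => x * h x) (continuous_id.mul hh) (hs.mul_left)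
  obtain ⟨B, hB0, hB⟩ : ∃ B : ℝ, 0 < B ∧ ∀ x, B ≤ x → h x = 0 := by
    obtain ⟨R, hR⟩ := hs.isCompact.isBounded.subset_closedBall 0
    refine ⟨|R| + 1, by positivity, fun x hx => ?_⟩
    by_contra hne
    have := hR (subset_tsupport h hne)
    rw [mem_closedBall_zero_iff, Real.norm_eq_abs] at this
    have h1 := le_abs_self x
    have h2 := le_abs_self R
    linarith
  obtain ⟨H, hH⟩ := hh.bounded_above_of_compact_support hs
  have hH0 : 0 ≤ H := (norm_nonneg _).trans (hH 0)
  set D := ∑' n : ℕ, (if n.Prime then 0 else vonMangoldt n) / (n : ℝ) with hD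
  have hterm0 : ∀ n : ℕ, 0 ≤ (if n.Prime then 0 else vonMangoldt n) / (n : ℝ) := by
    intro n
    split_ifs
    · simp
    · exact div_nonneg vonMangoldt_nonneg (Nat.cast_nonneg n)
  have h2 : Tendsto (fun L : ℝ => (H * B * D) / L) atTop (𝓝 0) :=
    tendsto_const_nhds.div_atTop tendsto_id
  -- difference tends to 0
  have h3 : Tendsto (fun L : ℝ => (1 / L ^ 2) * (∑' n : ℕ, (vonMangoldt n) ^ 2 / n * h (Real.log n / L))
      - (1 / L) * ∑' n : ℕ, vonMangoldt n / n * ((Real.log n / L) * h (Real.log n / L))) atTop (𝓝 0) := by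
    refine squeeze_zero_norm' ?_ h2
    filter_upwards [eventually_gt_atTop 0] with L hL
    have hfin : ∀ f : ℕ → ℝ, Summable fun n : ℕ => f n * h (Real.log n / L) := by
      intro f
      apply summable_of_ne_finset_zero (s := Finset.range (⌈Real.exp (B * L)⌉₊ + 1))
      intro n hn
      rw [Finset.mem_range, not_lt] at hn
      have hn1 : Real.exp (B * L) ≤ n := by
        have : (⌈Real.exp (B * L)⌉₊ : ℝ) ≤ n := by exact_mod_cast (by omega : ⌈Real.exp (B * L)⌉₊ ≤ n)
        exact (Nat.le_ceil _).trans this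
      have hn2 : B * L ≤ Real.log n := by
        have := Real.log_le_log (Real.exp_pos _) hn1
        rwa [Real.log_exp] at this
      rw [hB _ (by rw [le_div_iff₀ hL]; exact hn2), mul_zero]
    have e1 : (1 / L) * ∑' n : ℕ, vonMangoldt n / n * ((Real.log n / L) * h (Real.log n / L))
        = (1 / L ^ 2) * ∑' n : ℕ, vonMangoldt n * Real.log n / n * h (Real.log n / L) := by
      rw [← tsum_mul_left, ← tsum_mul_left]
      refine tsum_congr fun n => ?_
      field_simp
    rw [e1, ← mul_sub, ← (hfin _).tsum_sub (hfin _), norm_mul, Real.norm_eq_abs,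
      abs_of_pos (by positivity : 0 < 1 / L ^ 2)]
    have hb : ‖∑' n : ℕ, ((vonMangoldt n) ^ 2 / n * h (Real.log n / L)
        - vonMangoldt n * Real.log n / n * h (Real.log n / L))‖ ≤ H * B * L * D := by
      refine tsum_of_norm_bounded (summable_nonprime.hasSum.mul_left (H * B * L)) fun n => ?_
      by_cases hnB : B ≤ Real.log n / L
      · rw [hB _ hnB]
        simp only [mul_zero, sub_self, norm_zero]
        exact mul_nonneg (by positivity) (hterm0 n)
      push Not at hnB
      rw [div_lt_iff₀ hL] at hnB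
      by_cases hp : n.Prime
      · rw [vonMangoldt_apply_prime hp]
        simp [hp, sq]
      · simp only [hp, if_false]
        have e2 : (vonMangoldt n) ^ 2 / n * h (Real.log n / L)
          - vonMangoldt n * Real.log n / n * h (Real.log n / L)
          = (vonMangoldt n / n) * ((vonMangoldt n - Real.log n) * h (Real.log n / L)) := by ring
        have hv0 : 0 ≤ vonMangoldt n / (n:ℝ) := div_nonneg vonMangoldt_nonneg (Nat.cast_nonneg n)
        rw [e2, norm_mul, norm_mul, Real.norm_eq_abs, abs_of_nonneg hv0]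
        have h5 : |vonMangoldt n - Real.log n| ≤ B * L := by
          rw [abs_le]
          constructor
          · linarith [vonMangoldt_nonneg (n := n)]
          · linarith [vonMangoldt_le_log (n := n), vonMangoldt_nonneg (n := n),
              Real.log_natCast_nonneg n, mul_pos hB0 hL]
        have h6 : ‖vonMangoldt n - Real.log n‖ * ‖h (Real.log n / L)‖ ≤ (B * L) * H :=
          mul_le_mul h5 (hH _) (norm_nonneg _) (by positivity)
        calc vonMangoldt n / n * (‖vonMangoldt n - Real.log n‖ * ‖h (Real.log n / L)‖)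
            ≤ vonMangoldt n / n * ((B * L) * H) := mul_le_mul_of_nonneg_left h6 hv0
          _ = H * B * L * (vonMangoldt n / n) := by ring
    calc 1 / L ^ 2 * ‖∑' n : ℕ, ((vonMangoldt n) ^ 2 / n * h (Real.log n / L)
        - vonMangoldt n * Real.log n / n * h (Real.log n / L))‖
        ≤ 1 / L ^ 2 * (H * B * L * D) := mul_le_mul_of_nonneg_left hb (by positivity)
      _ = H * B * D / L := by field_simp
  have h4 := h3.add h1
  simp only [zero_add, sub_add_cancel] at h4
  exact h4

end Pool.Agent.H4
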