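import Pool.Agent.H4.Digamma
import Pool.Agent.H6.PCDefs

/-!
# The archimedean term `arch a t`
-/

open Complex Filter Set MeasureTheory Topology

namespace Pool.Agent.H4

theorem logDeriv_Gammaℝ {s : ℂ} (hs : 0 < s.re) :
    logDeriv Gammaℝ s = -(Real.log Real.pi : ℂ) / 2 + digamma (s / 2) / 2 := by
  have hpi : (Real.pi : ℂ) ≠ 0 := by exact_mod_cast Real.pi_ne_zero
  have hs2 : 0 < (s / 2).re := by simp; exact hs
  have hG : DifferentiableAt ℂ Gamma (s / 2) := by
    refine differentiableAt_Gamma _ (fun m h => ?_)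
    rw [h] at hs2
    simp at hs2
    have : (0:ℝ) ≤ m := Nat.cast_nonneg m
    linarith
  have e0 : Gammaℝ = fun z : ℂ => (Real.pi : ℂ) ^ (-z / 2) * (Gamma ∘ fun z : ℂ => z / 2) z := by
    ext z; rfl
  have hd : HasDerivAt (fun z : ℂ => -z / 2) (-1 / 2) s := by
    simpa using ((hasDerivAt_id s).neg.div_const 2)
  have h1 := hd.const_cpow (c := (Real.pi : ℂ)) (Or.inl hpi)
  have h2 : DifferentiableAt ℂ (fun z : ℂ => z / 2) s := by fun_prop
  have hne : (Real.pi : ℂ) ^ (-s / 2) ≠ 0 := by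
    rw [Ne, cpow_eq_zero_iff]; tauto
  have h3 : deriv (fun z : ℂ => z / 2) s = 1 / 2 := by
    simp
  have h4 : logDeriv (Gamma ∘ fun z : ℂ => z / 2) s = logDeriv Gamma (s / 2) * (1 / 2) := by
    rw [← h3]
    exact logDeriv_comp (f := Gamma) (g := fun z : ℂ => z / 2) hG h2
  rw [e0, logDeriv_mul s hne (by exact Gamma_ne_zero_of_re_pos hs2) h1.differentiableAt
    (DifferentiableAt.comp (g := Gamma) (f := fun z : ℂ => z / 2) s hG h2), h4, ← digamma_def,
    logDeriv_apply, h1.deriv, Complex.ofReal_log Real.pi_pos.le]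
  field_simp

theorem continuousAt_digamma {s : ℂ} (hs : 0 < s.re) : ContinuousAt digamma s := by
  unfold ContinuousAt
  rw [tendsto_iff_norm_sub_tendsto_zero]
  have h0 : ∀ᶠ z in 𝓝 s, 0 < z.re :=
    (continuous_re.tendsto s).eventually (lt_mem_nhds hs)
  have hs0 : ‖s‖ ≠ 0 := (norm_pos_of_re_pos hs).ne'
  have h1 : Tendsto (fun z : ℂ => ‖z - s‖ *
      (((1 / ‖z‖ ^ 2 + 2 / ‖z‖) + (1 / ‖s‖ ^ 2 + 2 / ‖s‖)) / 2)) (𝓝 s) (𝓝 0) := by
    have hc : ContinuousAt (fun z : ℂ => ‖z - s‖ *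
      (((1 / ‖z‖ ^ 2 + 2 / ‖z‖) + (1 / ‖s‖ ^ 2 + 2 / ‖s‖)) / 2)) s := by
      have h2 : ContinuousAt (fun z : ℂ => 1 / ‖z‖ ^ 2) s :=
        continuousAt_const.div (by fun_prop) (by positivity)
      have h3 : ContinuousAt (fun z : ℂ => 2 / ‖z‖) s :=
        continuousAt_const.div (by fun_prop) (by positivity)
      have h4 : ContinuousAt (fun z : ℂ => ‖z - s‖) s := by fun_prop
      exact h4.mul (((h2.add h3).add continuousAt_const).div_const 2)
    have := hc.tendsto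
    simpa using this
  refine squeeze_zero' (Eventually.of_forall fun _ => norm_nonneg _) ?_ h1
  filter_upwards [h0] with z hz
  exact norm_digamma_sub_digamma_le hz hs

/-- The point `1/2 + a + it`. -/
noncomputable def sp (a t : ℝ) : ℂ := 1 / 2 + a + t * I

@[simp] theorem sp_re (a t : ℝ) : (sp a t).re = 1 / 2 + a := by
  simp [sp]

@[simp] theorem sp_im (a t : ℝ) : (sp a t).im = t := by
  simp [sp]

theorem arch_eq {a : ℝ} (ha : 1 / 2 < a) (t : ℝ) :
    PC.arch a t = (1 / sp a t).re + (1 / (sp a t - 1)).re - Real.log Real.pi / 2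
      + (digamma (sp a t / 2)).re / 2 := by
  have hs : 0 < (sp a t).re := by rw [sp_re]; linarith
  unfold PC.arch
  simp only
  have e : (1 / 2 + a + t * I : ℂ) = sp a t := rfl
  rw [e, logDeriv_Gammaℝ hs]
  simp only [add_re]
  have e1 : (-(Real.log Real.pi : ℂ) / 2).re = - Real.log Real.pi / 2 := by
    rw [div_ofNat_re]
    simp
  have e2 : (digamma (sp a t / 2) / 2).re = (digamma (sp a t / 2)).re / 2 := by
    rw [div_ofNat_re]
  rw [e1, e2]
  ring

theorem norm_sp_ge {a : ℝ} (ha : 1 / 2 < a) (t : ℝ) : (1 + |t|) / 2 ≤ ‖sp a t‖ := by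
  have h1 : |(sp a t).re| ≤ ‖sp a t‖ := abs_re_le_norm _
  have h2 : |(sp a t).im| ≤ ‖sp a t‖ := abs_im_le_norm _
  rw [sp_re] at h1
  rw [sp_im] at h2
  have := le_abs_self (1 / 2 + a)
  linarith

theorem norm_sp_le {a : ℝ} (ha : 1 / 2 < a) (t : ℝ) : ‖sp a t‖ ≤ 1 / 2 + a + |t| := by
  have := norm_le_abs_re_add_abs_im (sp a t)
  rw [sp_re, sp_im, abs_of_pos (by linarith : 0 < 1 / 2 + a)] at this
  exact this

theorem norm_sp_sub_one_ge {a : ℝ} (ha : 1 / 2 < a) (t : ℝ) :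
    min (a - 1 / 2) 1 / 2 * (1 + |t|) ≤ ‖sp a t - 1‖ := by
  have h1 : |(sp a t - 1).re| ≤ ‖sp a t - 1‖ := abs_re_le_norm _
  have h2 : |(sp a t - 1).im| ≤ ‖sp a t - 1‖ := abs_im_le_norm _
  rw [sub_re, sp_re, one_re] at h1
  rw [sub_im, sp_im, one_im, sub_zero] at h2
  have h3 := le_abs_self (1 / 2 + a - 1)
  have h4 : min (a - 1 / 2) 1 ≤ a - 1 / 2 := min_le_left _ _
  have h5 : min (a - 1 / 2) 1 ≤ 1 := min_le_right _ _
  have h6 : 0 < min (a - 1 / 2) 1 := lt_min (by linarith) one_pos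
  have h7 := abs_nonneg t
  nlinarith

theorem abs_log_sub_log_le {x y : ℝ} (hx : 0 < x) (hy : 0 < y) :
    |Real.log x - Real.log y| ≤ |x - y| / min x y := by
  wlog h : y ≤ x generalizing x y
  · rw [abs_sub_comm, abs_sub_comm x y, min_comm]
    exact this hy hx (not_le.mp h).le
  rw [min_eq_right h, abs_of_nonneg (sub_nonneg.mpr (Real.log_le_log hy h)),
    abs_of_nonneg (sub_nonneg.mpr h), ← Real.log_div hx.ne' hy.ne']
  have := Real.log_le_sub_one_of_pos (div_pos hx hy)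
  rw [sub_div, div_self hy.ne']
  exact this

/-- **The archimedean term**, with an error `O(1/(1+|t|))`. -/
theorem arch_asymp {a : ℝ} (ha : 1 / 2 < a) : ∃ C, 0 ≤ C ∧ ∀ t : ℝ,
    |PC.arch a t - (Real.log (1 + |t|) - Real.log (2 * Real.pi)) / 2| ≤ C / (1 + |t|) := by
  set c := min (a - 1 / 2) 1 / 2 with hc
  have hc0 : 0 < c := by
    have : 0 < min (a - 1 / 2) 1 := lt_min (by linarith) one_pos
    positivity
  refine ⟨2 + 1 / c + 8 + (1 + a), by positivity, fun t => ?_⟩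
  have hs : 0 < (sp a t).re := by rw [sp_re]; linarith
  have hs2 : 0 < (sp a t / 2).re := by simp; linarith
  have ht : 0 < 1 + |t| := by positivity
  have h1 := norm_sp_ge ha t
  have h2 := norm_sp_le ha t
  have h3 := norm_sp_sub_one_ge ha t
  have hn0 : 0 < ‖sp a t‖ := norm_pos_of_re_pos hs
  have hn1 : 1 ≤ ‖sp a t‖ := by
    have h1 : |(sp a t).re| ≤ ‖sp a t‖ := abs_re_le_norm _
    rw [sp_re] at h1
    have := le_abs_self (1 / 2 + a)
    linarith
  have b1 : |(1 / sp a t).re| ≤ 2 / (1 + |t|) := by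
    refine (abs_re_le_norm _).trans ?_
    rw [norm_div, norm_one, div_le_div_iff₀ hn0 ht]
    linarith
  have b2 : |(1 / (sp a t - 1)).re| ≤ (1 / c) / (1 + |t|) := by
    refine (abs_re_le_norm _).trans ?_
    rw [norm_div, norm_one, div_div]
    exact one_div_le_one_div_of_le (by positivity) h3
  have b3 : |(digamma (sp a t / 2)).re - (Complex.log (sp a t / 2)).re| ≤ 16 / (1 + |t|) := by
    rw [← sub_re]
    refine (abs_re_le_norm _).trans ((norm_digamma_sub_log_le hs2).trans ?_)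
    rw [norm_div]
    simp only [Complex.norm_ofNat]
    have e : 1 / (‖sp a t‖ / 2) ^ 2 + 2 / (‖sp a t‖ / 2) = 4 / ‖sp a t‖ ^ 2 + 4 / ‖sp a t‖ := by
      field_simp
      ring
    rw [e]
    have : 4 / ‖sp a t‖ ^ 2 ≤ 4 / ‖sp a t‖ := by
      apply div_le_div_of_nonneg_left (by norm_num) hn0
      nlinarith
    have h8 : 4 / ‖sp a t‖ ≤ 8 / (1 + |t|) := by
      rw [div_le_div_iff₀ hn0 ht]; linarith
    have h9 : (8:ℝ) / (1 + |t|) + 8 / (1 + |t|) = 16 / (1 + |t|) := by ring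
    linarith
  have b4 : (Complex.log (sp a t / 2)).re = Real.log ‖sp a t‖ - Real.log 2 := by
    rw [Complex.log_re, norm_div, Real.log_div hn0.ne' (by simp)]
    simp
  have b5 : |Real.log ‖sp a t‖ - Real.log (1 + |t|)| ≤ 2 * (1 + a) / (1 + |t|) := by
    refine (abs_log_sub_log_le hn0 ht).trans ?_
    have h10 : |‖sp a t‖ - (1 + |t|)| ≤ 1 + a := by
      rw [abs_le]
      constructor
      · have h2 : |(sp a t).im| ≤ ‖sp a t‖ := abs_im_le_norm _
        rw [sp_im] at h2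
        linarith
      · linarith
    have h11 : (1 + |t|) / 2 ≤ min ‖sp a t‖ (1 + |t|) := le_min h1 (by linarith)
    rw [div_le_div_iff₀ (by linarith) ht]
    nlinarith [abs_nonneg (‖sp a t‖ - (1 + |t|)), mul_le_mul h10 (le_refl (1 + |t|)) ht.le (by linarith)]
  rw [arch_eq ha t]
  have e3 : Real.log (2 * Real.pi) = Real.log 2 + Real.log Real.pi :=
    Real.log_mul (by norm_num) Real.pi_ne_zero
  rw [e3]
  have e4 : (2 + 1 / c + 8 + (1 + a)) / (1 + |t|) = 2 / (1 + |t|) + (1 / c) / (1 + |t|)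
      + (16 / (1 + |t|)) / 2 + (2 * (1 + a) / (1 + |t|)) / 2 := by
    field_simp; ring
  rw [e4]
  rw [abs_le] at b1 b2 b3 b5 ⊢
  rw [b4] at b3
  constructor <;> linarith [b1.1, b1.2, b2.1, b2.2, b3.1, b3.2, b5.1, b5.2]

/-- `|arch a t - (1/2) log (1+|t|)| ≤ C`. -/
theorem arch_bound {a : ℝ} (ha : 1 / 2 < a) : ∃ C, 0 ≤ C ∧ ∀ t : ℝ,
    |PC.arch a t - (1 / 2) * Real.log (1 + |t|)| ≤ C := by
  obtain ⟨C, hC0, hC⟩ := arch_asymp ha
  refine ⟨C + |Real.log (2 * Real.pi)| / 2, by positivity, fun t => ?_⟩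
  have h1 := hC t
  have h2 : C / (1 + |t|) ≤ C := div_le_self hC0 (by linarith [abs_nonneg t])
  have h3 := le_abs_self (Real.log (2 * Real.pi))
  have h4 := neg_abs_le (Real.log (2 * Real.pi))
  rw [abs_le] at h1 ⊢
  constructor <;> linarith [h1.1, h1.2]

theorem abs_log_sub_log_le_rpow (t v : ℝ) :
    |Real.log (1 + |t|) - Real.log (1 + |t - v|)| ≤
      8 * ((1 + |v|) ^ (3 / 4 : ℝ) / (1 + |t|) ^ (1 / 2 : ℝ)) := by
  set X := 1 + |t| with hX
  set V := 1 + |v| with hV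
  set Y := 1 + |t - v| with hY
  have h0 := abs_nonneg t
  have h0v := abs_nonneg v
  have h0y := abs_nonneg (t - v)
  have hX1 : 1 ≤ X := by linarith
  have hV1 : 1 ≤ V := by linarith
  have hY1 : 1 ≤ Y := by linarith
  have hXpos : 0 < X := by linarith
  have hVpos : 0 < V := by linarith
  have hYpos : 0 < Y := by linarith
  have t1 : |t| ≤ |t - v| + |v| := by
    have := abs_add_le (t - v) v
    simpa using this
  have t2 : |t - v| ≤ |t| + |v| := abs_sub t v
  have hXh : 0 < X ^ (1 / 2 : ℝ) := Real.rpow_pos_of_pos hXpos _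
  by_cases hcase : 2 * |v| ≤ |t|
  · have hYX : X / 2 ≤ Y := by linarith
    have h1 : |X - Y| ≤ |v| := by
      rw [abs_le]; constructor <;> linarith
    have h2 : |Real.log X - Real.log Y| ≤ |X - Y| / min X Y := abs_log_sub_log_le hXpos hYpos
    have hmin : X / 2 ≤ min X Y := le_min (by linarith) hYX
    have h3 : |X - Y| / min X Y ≤ 2 * (|v| / X) := by
      rw [div_le_iff₀ (by linarith)]
      have : 2 * (|v| / X) * min X Y ≥ 2 * (|v| / X) * (X / 2) := by
        apply mul_le_mul_of_nonneg_left hmin (by positivity)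
      have e : 2 * (|v| / X) * (X / 2) = |v| := by field_simp
      linarith
    have h4 : |v| / X ≤ V ^ (1 / 2 : ℝ) / X ^ (1 / 2 : ℝ) := by
      rw [← Real.div_rpow hVpos.le hXpos.le]
      have h5 : |v| / X ≤ 1 := by
        rw [div_le_one hXpos]; linarith
      have h6 : 0 ≤ |v| / X := by positivity
      calc |v| / X = (|v| / X) ^ (1 : ℝ) := (Real.rpow_one _).symm
        _ ≤ (|v| / X) ^ (1 / 2 : ℝ) := by
            rcases eq_or_lt_of_le h6 with h7 | h7
            · rw [← h7]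
              rw [Real.zero_rpow (by norm_num), Real.zero_rpow (by norm_num)]
            · exact Real.rpow_le_rpow_of_exponent_ge h7 h5 (by norm_num)
        _ ≤ (V / X) ^ (1 / 2 : ℝ) := by
            apply Real.rpow_le_rpow h6 _ (by norm_num)
            apply div_le_div_of_nonneg_right (by linarith) hXpos.le
    have h8 : V ^ (1 / 2 : ℝ) ≤ V ^ (3 / 4 : ℝ) :=
      Real.rpow_le_rpow_of_exponent_le hV1 (by norm_num)
    have h9 : V ^ (1 / 2 : ℝ) / X ^ (1 / 2 : ℝ) ≤ V ^ (3 / 4 : ℝ) / X ^ (1 / 2 : ℝ) :=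
      div_le_div_of_nonneg_right h8 hXh.le
    have h10 : 0 ≤ V ^ (3 / 4 : ℝ) / X ^ (1 / 2 : ℝ) := by positivity
    linarith
  · push Not at hcase
    have hXV : X ≤ 2 * V := by linarith
    have h1 : |Real.log X - Real.log Y| ≤ Real.log V := by
      have a1 : X ≤ Y * V := by nlinarith
      have a2 : Y ≤ X * V := by nlinarith
      have l1 := Real.log_le_log hXpos a1
      have l2 := Real.log_le_log hYpos a2
      rw [Real.log_mul hYpos.ne' hVpos.ne'] at l1
      rw [Real.log_mul hXpos.ne' hVpos.ne'] at l2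
      rw [abs_le]; constructor <;> linarith
    have h2 : Real.log V ≤ 4 * V ^ (1 / 4 : ℝ) := by
      have := Real.log_le_rpow_div hVpos.le (by norm_num : (0:ℝ) < 1 / 4)
      linarith
    have h3 : V ^ (1 / 4 : ℝ) = V ^ (3 / 4 : ℝ) / V ^ (1 / 2 : ℝ) := by
      rw [← Real.rpow_sub hVpos]; norm_num
    have h4 : X ^ (1 / 2 : ℝ) ≤ 2 * V ^ (1 / 2 : ℝ) := by
      have : X ^ (1 / 2 : ℝ) ≤ (2 * V) ^ (1 / 2 : ℝ) :=
        Real.rpow_le_rpow hXpos.le hXV (by norm_num)
      rw [Real.mul_rpow (by norm_num) hVpos.le] at this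
      have h5 : (2 : ℝ) ^ (1 / 2 : ℝ) ≤ 2 := by
        calc (2 : ℝ) ^ (1 / 2 : ℝ) ≤ 2 ^ (1 : ℝ) :=
              Real.rpow_le_rpow_of_exponent_le (by norm_num) (by norm_num)
          _ = 2 := Real.rpow_one _
      have h6 : 0 ≤ V ^ (1 / 2 : ℝ) := by positivity
      nlinarith
    have hVh : 0 < V ^ (1 / 2 : ℝ) := Real.rpow_pos_of_pos hVpos _
    have hV3 : 0 ≤ V ^ (3 / 4 : ℝ) := by positivity
    have h7 : V ^ (3 / 4 : ℝ) / V ^ (1 / 2 : ℝ) ≤ 2 * (V ^ (3 / 4 : ℝ) / X ^ (1 / 2 : ℝ)) := by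
      rw [← mul_div_assoc, div_le_div_iff₀ hVh hXh]
      nlinarith
    rw [h3] at h2
    linarith

/-- `|arch a (t - v) - arch a t| ≤ C (1+|v|)^(3/4) / (1+|t|)^(1/2)`. -/
theorem arch_diff_bound {a : ℝ} (ha : 1 / 2 < a) : ∃ C, 0 ≤ C ∧ ∀ t v : ℝ,
    |PC.arch a (t - v) - PC.arch a t| ≤
      C * ((1 + |v|) ^ (3 / 4 : ℝ) / (1 + |t|) ^ (1 / 2 : ℝ)) := by
  obtain ⟨C, hC0, hC⟩ := arch_asymp ha
  refine ⟨2 * C + 4, by positivity, fun t v => ?_⟩
  have h1 := hC t
  have h2 := hC (t - v)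
  have h3 := abs_log_sub_log_le_rpow t v
  have h0 := abs_nonneg t
  have h0v := abs_nonneg v
  have h0y := abs_nonneg (t - v)
  set X := 1 + |t| with hX
  set V := 1 + |v| with hV
  set Y := 1 + |t - v| with hY
  have hX1 : 1 ≤ X := by linarith
  have hV1 : 1 ≤ V := by linarith
  have hY1 : 1 ≤ Y := by linarith
  have hXpos : 0 < X := by linarith
  have hVpos : 0 < V := by linarith
  have hYpos : 0 < Y := by linarith
  have hXh : 0 < X ^ (1 / 2 : ℝ) := Real.rpow_pos_of_pos hXpos _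
  set B := V ^ (3 / 4 : ℝ) / X ^ (1 / 2 : ℝ) with hB
  have t1 : |t| ≤ |t - v| + |v| := by
    have := abs_add_le (t - v) v
    simpa using this
  have hV34 : V ^ (1 / 2 : ℝ) ≤ V ^ (3 / 4 : ℝ) :=
    Real.rpow_le_rpow_of_exponent_le hV1 (by norm_num)
  have k1 : 1 / X ≤ B := by
    have : X ^ (1 / 2 : ℝ) ≤ X := by
      calc X ^ (1 / 2 : ℝ) ≤ X ^ (1 : ℝ) :=
            Real.rpow_le_rpow_of_exponent_le hX1 (by norm_num)
        _ = X := Real.rpow_one _
    have h5 : 1 ≤ V ^ (3 / 4 : ℝ) := Real.one_le_rpow hV1 (by norm_num)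
    rw [hB, div_le_div_iff₀ hXpos hXh]
    nlinarith
  have k2 : 1 / Y ≤ B := by
    have a1 : X ≤ Y * V := by nlinarith
    have a2 : 1 / Y ≤ V / X := by
      rw [div_le_div_iff₀ hYpos hXpos]; linarith
    have a3 : 1 / Y ≤ 1 := by
      rw [div_le_one hYpos]; exact hY1
    have a4 : 0 < 1 / Y := by positivity
    calc 1 / Y = (1 / Y) ^ (1 : ℝ) := (Real.rpow_one _).symm
      _ ≤ (1 / Y) ^ (1 / 2 : ℝ) := Real.rpow_le_rpow_of_exponent_ge a4 a3 (by norm_num)
      _ ≤ (V / X) ^ (1 / 2 : ℝ) := Real.rpow_le_rpow a4.le a2 (by norm_num)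
      _ = V ^ (1 / 2 : ℝ) / X ^ (1 / 2 : ℝ) := Real.div_rpow hVpos.le hXpos.le _
      _ ≤ B := div_le_div_of_nonneg_right hV34 hXh.le
  have e1 : C / X = C * (1 / X) := by ring
  have e2 : C / Y = C * (1 / Y) := by ring
  rw [e1] at h1
  rw [e2] at h2
  have k1' : C * (1 / X) ≤ C * B := mul_le_mul_of_nonneg_left k1 hC0
  have k2' : C * (1 / Y) ≤ C * B := mul_le_mul_of_nonneg_left k2 hC0
  have e3 : (2 * C + 4) * B = C * B + C * B + 4 * B := by ring
  rw [e3]
  rw [abs_le] at h1 h2 h3 ⊢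
  constructor <;> linarith [h1.1, h1.2, h2.1, h2.2, h3.1, h3.2]

theorem continuous_arch {a : ℝ} (ha : 1 / 2 < a) : Continuous (PC.arch a) := by
  have e : PC.arch a = fun t => (1 / sp a t).re + (1 / (sp a t - 1)).re - Real.log Real.pi / 2
      + (digamma (sp a t / 2)).re / 2 := by
    ext t; exact arch_eq ha t
  rw [e]
  have hsp : Continuous fun t : ℝ => sp a t := by
    unfold sp; fun_prop
  have h1 : Continuous fun t : ℝ => 1 / sp a t := by
    refine continuous_const.div hsp fun t h => ?_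
    have := norm_sp_ge ha t
    rw [h, norm_zero] at this
    linarith [abs_nonneg t]
  have h2 : Continuous fun t : ℝ => 1 / (sp a t - 1) := by
    refine continuous_const.div (by fun_prop) fun t h => ?_
    have := norm_sp_sub_one_ge ha t
    rw [h, norm_zero] at this
    have h6 : 0 < min (a - 1 / 2) 1 := lt_min (by linarith) one_pos
    nlinarith [abs_nonneg t]
  have h3 : Continuous fun t : ℝ => digamma (sp a t / 2) := by
    rw [continuous_iff_continuousAt]
    intro t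
    have hs2 : 0 < (sp a t / 2).re := by simp; linarith
    have hc : ContinuousAt (fun t : ℝ => sp a t / 2) t := by fun_prop
    exact ContinuousAt.comp (f := fun t : ℝ => sp a t / 2) (g := digamma) (continuousAt_digamma hs2) hc
  fun_prop

end Pool.Agent.H4
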