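import Mathlib

/-!
# A mean value theorem for Dirichlet polynomials (cosine form, easy error term)
-/

open Filter Set MeasureTheory Topology

namespace Pool.Agent.H4

theorem integral_cos_mul {c : ℝ} (hc : c ≠ 0) (T : ℝ) :
    ∫ t in (0:ℝ)..T, Real.cos (t * c) = Real.sin (T * c) / c := by
  rw [intervalIntegral.integral_comp_mul_right (fun x => Real.cos x) hc]
  simp [div_eq_inv_mul]

theorem abs_integral_cos_mul_le {c : ℝ} (hc : c ≠ 0) (T : ℝ) :
    |∫ t in (0:ℝ)..T, Real.cos (t * c)| ≤ 1 / |c| := by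
  rw [integral_cos_mul hc, abs_div]
  exact div_le_div_of_nonneg_right (Real.abs_sin_le_one _) (abs_nonneg _)

theorem one_div_abs_log_div_le {m n N : ℕ} (hm : 1 ≤ m) (hn : 1 ≤ n) (hmN : m ≤ N) (hnN : n ≤ N)
    (hmn : m ≠ n) : 1 / |Real.log m - Real.log n| ≤ N / |(m : ℝ) - n| := by
  wlog h : n < m generalizing m n
  · have := this hn hm hnN hmN (Ne.symm hmn) (lt_of_le_of_ne (not_lt.mp h) hmn)
    rwa [abs_sub_comm, abs_sub_comm (n : ℝ)] at this
  have hm0 : (0:ℝ) < m := by exact_mod_cast hm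
  have hn0 : (0:ℝ) < n := by exact_mod_cast hn
  have hlt : (n:ℝ) < m := by exact_mod_cast h
  have hl : Real.log n < Real.log m := Real.log_lt_log hn0 hlt
  rw [abs_of_pos (sub_pos.mpr hl), abs_of_pos (sub_pos.mpr hlt)]
  have h1 : ((m:ℝ) - n) / m ≤ Real.log m - Real.log n := by
    have h2 := Real.log_le_sub_one_of_pos (div_pos hn0 hm0)
    rw [Real.log_div hn0.ne' hm0.ne'] at h2
    have : ((m:ℝ) - n) / m = 1 - n / m := by field_simp
    linarith
  have hmN' : (m:ℝ) ≤ N := by exact_mod_cast hmN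
  have h3 : 0 < (m:ℝ) - n := by linarith
  calc 1 / (Real.log m - Real.log n) ≤ 1 / (((m:ℝ) - n) / m) :=
        one_div_le_one_div_of_le (by positivity) h1
    _ = m / ((m:ℝ) - n) := by field_simp
    _ ≤ N / ((m:ℝ) - n) := div_le_div_of_nonneg_right hmN' h3.le

theorem sum_one_div_le_one_add_log (N : ℕ) :
    ∑ k ∈ Finset.Icc 1 N, (1:ℝ) / k ≤ 1 + Real.log N := by
  have := harmonic_le_one_add_log N
  rw [harmonic_eq_sum_Icc] at this
  push_cast at this
  simpa using this

/-- `Σ_{m ∈ S, m ≠ n} 1/|m - n| ≤ 2 (1 + log N)` for `S ⊆ [1, N]`, `n ∈ [1,N]`. -/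
theorem sum_one_div_abs_sub_le {N : ℕ} (S : Finset ℕ) (hS : ∀ n ∈ S, 1 ≤ n ∧ n ≤ N) {n : ℕ}
    (hn : 1 ≤ n ∧ n ≤ N) :
    ∑ m ∈ S.filter (fun m => m ≠ n), 1 / |(m : ℝ) - n| ≤ 2 * (1 + Real.log N) := by
  have h1 : ∑ m ∈ S.filter (fun m => m ≠ n), 1 / |(m : ℝ) - n|
      = ∑ m ∈ S.filter (fun m => n < m), 1 / |(m : ℝ) - n|
        + ∑ m ∈ S.filter (fun m => m < n), 1 / |(m : ℝ) - n| := by
    rw [← Finset.sum_union]
    · congr 1
      ext m
      simp only [Finset.mem_filter, Finset.mem_union]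
      constructor
      · rintro ⟨a, b⟩
        rcases lt_or_gt_of_ne b with h | h
        · right; exact ⟨a, h⟩
        · left; exact ⟨a, h⟩
      · rintro (⟨a, b⟩ | ⟨a, b⟩)
        · exact ⟨a, b.ne'⟩
        · exact ⟨a, b.ne⟩
    · rw [Finset.disjoint_filter]
      intro x _ h1 h2
      omega
  have hA : ∑ m ∈ S.filter (fun m => n < m), 1 / |(m : ℝ) - n| ≤ 1 + Real.log N := by
    refine le_trans ?_ (sum_one_div_le_one_add_log N)
    have : ∀ m ∈ S.filter (fun m => n < m), 1 / |(m : ℝ) - n| = 1 / ((m - n : ℕ) : ℝ) := by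
      intro m hm
      rw [Finset.mem_filter] at hm
      rw [Nat.cast_sub hm.2.le, abs_of_pos]
      have : (n:ℝ) < m := by exact_mod_cast hm.2
      linarith
    rw [Finset.sum_congr rfl this]
    have h2 : ∑ m ∈ S.filter (fun m => n < m), 1 / ((m - n : ℕ) : ℝ)
        = ∑ k ∈ (S.filter (fun m => n < m)).image (fun m => m - n), 1 / (k : ℝ) := by
      rw [Finset.sum_image]
      intro a ha b hb hab
      simp only [Finset.coe_filter, Set.mem_ofPred_eq] at ha hb
      simp only at hab
      omega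
    rw [h2]
    apply Finset.sum_le_sum_of_subset_of_nonneg
    · intro k hk
      rw [Finset.mem_image] at hk
      obtain ⟨m, hm, rfl⟩ := hk
      rw [Finset.mem_filter] at hm
      have := hS m hm.1
      rw [Finset.mem_Icc]
      omega
    · intro k _ _; positivity
  have hB : ∑ m ∈ S.filter (fun m => m < n), 1 / |(m : ℝ) - n| ≤ 1 + Real.log N := by
    refine le_trans ?_ (sum_one_div_le_one_add_log N)
    have : ∀ m ∈ S.filter (fun m => m < n), 1 / |(m : ℝ) - n| = 1 / ((n - m : ℕ) : ℝ) := by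
      intro m hm
      rw [Finset.mem_filter] at hm
      rw [Nat.cast_sub hm.2.le, abs_sub_comm, abs_of_pos]
      have : (m:ℝ) < n := by exact_mod_cast hm.2
      linarith
    rw [Finset.sum_congr rfl this]
    have h2 : ∑ m ∈ S.filter (fun m => m < n), 1 / ((n - m : ℕ) : ℝ)
        = ∑ k ∈ (S.filter (fun m => m < n)).image (fun m => n - m), 1 / (k : ℝ) := by
      rw [Finset.sum_image]
      intro a ha b hb hab
      simp only [Finset.coe_filter, Set.mem_ofPred_eq] at ha hb
      simp only at hab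
      omega
    rw [h2]
    apply Finset.sum_le_sum_of_subset_of_nonneg
    · intro k hk
      rw [Finset.mem_image] at hk
      obtain ⟨m, hm, rfl⟩ := hk
      rw [Finset.mem_filter] at hm
      have := hS m hm.1
      rw [Finset.mem_Icc]
      omega
    · intro k _ _; positivity
  rw [h1]; linarith

theorem integral_cos_mul_cos (x y T : ℝ) :
    ∫ t in (0:ℝ)..T, Real.cos (t * x) * Real.cos (t * y)
      = (∫ t in (0:ℝ)..T, Real.cos (t * (x + y))) / 2
        + (∫ t in (0:ℝ)..T, Real.cos (t * (x - y))) / 2 := by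
  rw [← intervalIntegral.integral_div, ← intervalIntegral.integral_div,
    ← intervalIntegral.integral_add]
  · refine intervalIntegral.integral_congr fun t _ => ?_
    simp only [mul_add, mul_sub, Real.cos_add, Real.cos_sub]
    ring
  · apply Continuous.intervalIntegrable; fun_prop
  · apply Continuous.intervalIntegrable; fun_prop

/-- **Mean value theorem**, cosine form. -/
theorem meanValue_cos {N : ℕ} (S : Finset ℕ) (hS : ∀ n ∈ S, 2 ≤ n ∧ n ≤ N) (b : ℕ → ℝ) (T : ℝ) :
    |(∫ t in (0:ℝ)..T, (∑ n ∈ S, b n * Real.cos (t * Real.log n)) ^ 2)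
        - T / 2 * ∑ n ∈ S, b n ^ 2| ≤ 3 * (N * (1 + Real.log N)) * ∑ n ∈ S, b n ^ 2 := by
  rcases S.eq_empty_or_nonempty with rfl | hne
  · simp
  obtain ⟨n₀, hn₀⟩ := hne
  have hN2 : 2 ≤ N := (hS n₀ hn₀).1.trans (hS n₀ hn₀).2
  have hN2' : (2:ℝ) ≤ N := by exact_mod_cast hN2
  have hlogN : 0 ≤ Real.log N := Real.log_nonneg (by linarith)
  have hlog2 : ∀ n ∈ S, 1 / 2 ≤ Real.log n := by
    intro n hn
    have h2 : (2:ℝ) ≤ n := by exact_mod_cast (hS n hn).1
    have := Real.log_le_log (by norm_num) h2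
    linarith [Real.log_two_gt_d9]
  -- expand the square
  have e1 : ∫ t in (0:ℝ)..T, (∑ n ∈ S, b n * Real.cos (t * Real.log n)) ^ 2
      = ∑ m ∈ S, ∑ n ∈ S, b m * b n * ∫ t in (0:ℝ)..T,
          Real.cos (t * Real.log m) * Real.cos (t * Real.log n) := by
    have : ∀ t : ℝ, (∑ n ∈ S, b n * Real.cos (t * Real.log n)) ^ 2
        = ∑ m ∈ S, ∑ n ∈ S, b m * b n * (Real.cos (t * Real.log m) * Real.cos (t * Real.log n)) := by
      intro t
      rw [sq, Finset.sum_mul_sum]
      refine Finset.sum_congr rfl fun m _ => Finset.sum_congr rfl fun n _ => ?_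
      ring
    simp_rw [this]
    rw [intervalIntegral.integral_finsetSum]
    · refine Finset.sum_congr rfl fun m _ => ?_
      rw [intervalIntegral.integral_finsetSum]
      · refine Finset.sum_congr rfl fun n _ => ?_
        rw [intervalIntegral.integral_const_mul]
      · intro n _
        apply Continuous.intervalIntegrable; fun_prop
    · intro m _
      apply Continuous.intervalIntegrable; fun_prop
  -- the error matrix
  let E : ℕ → ℕ → ℝ := fun m n => (∫ t in (0:ℝ)..T,
    Real.cos (t * Real.log m) * Real.cos (t * Real.log n)) - if m = n then T / 2 else 0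
  have hdiag : ∀ n ∈ S, |E n n| ≤ 1 := by
    intro n hn
    have h2 := hlog2 n hn
    simp only [E, if_true]
    rw [integral_cos_mul_cos]
    have e2 : (∫ t in (0:ℝ)..T, Real.cos (t * (Real.log n - Real.log n))) = T := by
      simp
    rw [e2]
    have h3 := abs_integral_cos_mul_le (c := Real.log n + Real.log n) (by linarith) T
    have h4 : 1 / |Real.log n + Real.log n| ≤ 1 := by
      rw [abs_of_pos (by linarith), div_le_one (by linarith)]
      linarith
    rw [abs_le] at h3 ⊢
    constructor <;> linarith [h3.1, h3.2]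
  have hoff : ∀ m ∈ S, ∀ n ∈ S, m ≠ n → |E m n| ≤ (1 + N / |(m:ℝ) - n|) / 2 := by
    intro m hm n hn hmn
    have h2m := hlog2 m hm
    have h2n := hlog2 n hn
    simp only [E, if_neg hmn, sub_zero]
    rw [integral_cos_mul_cos]
    have h3 := abs_integral_cos_mul_le (c := Real.log m + Real.log n) (by linarith) T
    have hne' : Real.log m - Real.log n ≠ 0 := by
      intro h
      apply hmn
      have hm0 : (0:ℝ) < m := by exact_mod_cast (by linarith [(hS m hm).1] : 0 < m)
      have hn0 : (0:ℝ) < n := by exact_mod_cast (by linarith [(hS n hn).1] : 0 < n)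
      have := Real.log_injOn_pos hm0 hn0 (by linarith)
      exact_mod_cast this
    have h4 := abs_integral_cos_mul_le hne' T
    have h5 : 1 / |Real.log m + Real.log n| ≤ 1 := by
      rw [abs_of_pos (by linarith), div_le_one (by linarith)]
      linarith
    have h6 := one_div_abs_log_div_le (N := N) (by linarith [(hS m hm).1]) (by linarith [(hS n hn).1])
      (hS m hm).2 (hS n hn).2 hmn
    rw [abs_le] at h3 h4 ⊢
    constructor <;> linarith [h3.1, h3.2, h4.1, h4.2]
  have e2 : (∫ t in (0:ℝ)..T, (∑ n ∈ S, b n * Real.cos (t * Real.log n)) ^ 2)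
        - T / 2 * ∑ n ∈ S, b n ^ 2 = ∑ m ∈ S, ∑ n ∈ S, b m * b n * E m n := by
    rw [e1]
    have : T / 2 * ∑ n ∈ S, b n ^ 2 = ∑ m ∈ S, ∑ n ∈ S, b m * b n * (if m = n then T / 2 else 0) := by
      rw [Finset.mul_sum]
      refine Finset.sum_congr rfl fun m hm => ?_
      rw [Finset.sum_eq_single m]
      · simp; ring
      · intro n _ hn
        simp [Ne.symm hn]
      · intro h; exact absurd hm h
    rw [this, ← Finset.sum_sub_distrib]
    refine Finset.sum_congr rfl fun m _ => ?_
    rw [← Finset.sum_sub_distrib]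
    refine Finset.sum_congr rfl fun n _ => ?_
    simp only [E]; ring
  rw [e2]
  -- bound by |b m b n| ≤ (b m ^2 + b n ^ 2)/2 and symmetry
  let W : ℕ → ℕ → ℝ := fun m n => if m = n then 1 else (1 + N / |(m:ℝ) - n|) / 2
  have hW0 : ∀ m n, 0 ≤ W m n := by
    intro m n
    simp only [W]
    split_ifs
    · norm_num
    · positivity
  have hWsymm : ∀ m n, W m n = W n m := by
    intro m n
    simp only [W, eq_comm (a := m), abs_sub_comm (m:ℝ)]
  have hE : ∀ m ∈ S, ∀ n ∈ S, |E m n| ≤ W m n := by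
    intro m hm n hn
    by_cases h : m = n
    · subst h
      simp only [W, if_true]
      exact hdiag m hm
    · simp only [W, if_neg h]
      exact hoff m hm n hn h
  have hcard : (S.card : ℝ) ≤ N := by
    have : S ⊆ Finset.Icc 1 N := by
      intro n hn
      rw [Finset.mem_Icc]
      have := hS n hn
      omega
    have := Finset.card_le_card this
    rw [Nat.card_Icc] at this
    have h' : S.card ≤ N := by omega
    exact_mod_cast h'
  have hrow : ∀ n ∈ S, ∑ m ∈ S, W n m ≤ 3 * (N * (1 + Real.log N)) := by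
    intro n hn
    have h1 : ∑ m ∈ S, W n m = ∑ m ∈ S.filter (fun m => m ≠ n), W n m + W n n := by
      rw [← Finset.sum_filter_add_sum_filter_not S (fun m => m ≠ n)]
      congr 1
      have : S.filter (fun m => ¬ m ≠ n) = {n} := by
        ext m
        simp only [Finset.mem_filter, not_not, Finset.mem_singleton]
        constructor
        · exact fun h => h.2
        · rintro rfl; exact ⟨hn, rfl⟩
      rw [this, Finset.sum_singleton]
    rw [h1]
    have h2 : ∑ m ∈ S.filter (fun m => m ≠ n), W n m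
        = ∑ m ∈ S.filter (fun m => m ≠ n), (1/2 + N / 2 * (1 / |(m:ℝ) - n|)) := by
      refine Finset.sum_congr rfl fun m hm => ?_
      rw [Finset.mem_filter] at hm
      simp only [W, if_neg (Ne.symm hm.2)]
      rw [abs_sub_comm]
      ring
    rw [h2, Finset.sum_add_distrib, ← Finset.mul_sum]
    have h3 := sum_one_div_abs_sub_le S (fun n hn => ⟨by linarith [(hS n hn).1], (hS n hn).2⟩)
      ⟨by linarith [(hS n hn).1], (hS n hn).2⟩
    have h4 : ∑ m ∈ S.filter (fun m => m ≠ n), (1/2 : ℝ) ≤ N / 2 := by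
      rw [Finset.sum_const, nsmul_eq_mul]
      have : ((S.filter (fun m => m ≠ n)).card : ℝ) ≤ S.card := by
        exact_mod_cast Finset.card_filter_le _ _
      linarith
    have h5 : W n n = 1 := by simp [W]
    rw [h5]
    have h6 : (N:ℝ) / 2 * ∑ m ∈ S.filter (fun m => m ≠ n), 1 / |(m:ℝ) - n|
        ≤ N / 2 * (2 * (1 + Real.log N)) := mul_le_mul_of_nonneg_left h3 (by positivity)
    nlinarith [mul_nonneg (by linarith : (0:ℝ) ≤ N) hlogN]
  calc |∑ m ∈ S, ∑ n ∈ S, b m * b n * E m n|
      ≤ ∑ m ∈ S, ∑ n ∈ S, (b m ^ 2 + b n ^ 2) / 2 * W m n := by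
        refine (Finset.abs_sum_le_sum_abs _ _).trans (Finset.sum_le_sum fun m hm => ?_)
        refine (Finset.abs_sum_le_sum_abs _ _).trans (Finset.sum_le_sum fun n hn => ?_)
        rw [abs_mul]
        have h1 : |b m * b n| ≤ (b m ^ 2 + b n ^ 2) / 2 := by
          rw [abs_le]
          constructor <;> nlinarith [sq_nonneg (b m + b n), sq_nonneg (b m - b n)]
        exact mul_le_mul h1 (hE m hm n hn) (abs_nonneg _) (by positivity)
    _ = ∑ m ∈ S, b m ^ 2 * ∑ n ∈ S, W m n := by
        have h1 : ∑ m ∈ S, ∑ n ∈ S, (b m ^ 2 + b n ^ 2) / 2 * W m n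
            = (∑ m ∈ S, ∑ n ∈ S, b m ^ 2 * W m n) / 2 + (∑ m ∈ S, ∑ n ∈ S, b n ^ 2 * W m n) / 2 := by
          rw [← add_div, ← Finset.sum_add_distrib, Finset.sum_div]
          refine Finset.sum_congr rfl fun m _ => ?_
          rw [← Finset.sum_add_distrib, Finset.sum_div]
          refine Finset.sum_congr rfl fun n _ => ?_
          ring
        have h2 : ∑ m ∈ S, ∑ n ∈ S, b n ^ 2 * W m n = ∑ m ∈ S, ∑ n ∈ S, b m ^ 2 * W m n := by
          rw [Finset.sum_comm]
          refine Finset.sum_congr rfl fun m _ => Finset.sum_congr rfl fun n _ => ?_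
          rw [hWsymm]
        rw [h1, h2]
        simp_rw [Finset.mul_sum]
        ring
    _ ≤ ∑ m ∈ S, b m ^ 2 * (3 * (N * (1 + Real.log N))) :=
        Finset.sum_le_sum fun m hm => mul_le_mul_of_nonneg_left (hrow m hm) (sq_nonneg _)
    _ = 3 * (N * (1 + Real.log N)) * ∑ n ∈ S, b n ^ 2 := by
        rw [← Finset.sum_mul]; ring

/-- First moment. -/
theorem abs_integral_sum_cos_le (S : Finset ℕ) (hS : ∀ n ∈ S, 2 ≤ n) (b : ℕ → ℝ) (T : ℝ) :
    |∫ t in (0:ℝ)..T, ∑ n ∈ S, b n * Real.cos (t * Real.log n)| ≤ 2 * ∑ n ∈ S, |b n| := by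
  rw [intervalIntegral.integral_finsetSum]
  · rw [Finset.mul_sum]
    refine (Finset.abs_sum_le_sum_abs _ _).trans (Finset.sum_le_sum fun n hn => ?_)
    rw [intervalIntegral.integral_const_mul, abs_mul]
    have h2 : (2:ℝ) ≤ n := by exact_mod_cast (hS n hn)
    have h3 := Real.log_le_log (by norm_num) h2
    have h4 : 1 / 2 ≤ Real.log n := by linarith [Real.log_two_gt_d9]
    have h5 := abs_integral_cos_mul_le (c := Real.log n) (by linarith) T
    have h6 : 1 / |Real.log n| ≤ 2 := by
      rw [abs_of_pos (by linarith), div_le_iff₀ (by linarith)]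
      linarith
    nlinarith [abs_nonneg (b n)]
  · intro n _
    apply Continuous.intervalIntegrable; fun_prop

end Pool.Agent.H4
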