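import Mathlib

/-!
# Functions on the slit plane `ℂ \ ((-∞,-1] ∪ [1,∞))`
-/

open Complex Filter Set MeasureTheory Topology

namespace Pool.Agent.H4

/-- `√(1 - z²)` (principal branch). -/
noncomputable def rt (z : ℂ) : ℂ := (1 - z ^ 2) ^ ((1:ℂ) / 2)

theorem rt_sq (z : ℂ) : rt z ^ 2 = 1 - z ^ 2 := by
  unfold rt
  rw [one_div]
  exact cpow_nat_inv_pow _ two_ne_zero

/-- The slit plane. -/
def Om : Set ℂ := {z | 1 - z ^ 2 ∈ slitPlane}

theorem isOpen_Om : IsOpen Om :=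
  isOpen_slitPlane.preimage (by fun_prop)

theorem mem_Om_of_im_ne_zero {z : ℂ} (hz : z.im ≠ 0) : z ∈ Om := by
  show 1 - z ^ 2 ∈ slitPlane
  rw [mem_slitPlane_iff]
  by_cases h : z.re = 0
  · left
    simp [sq, h]
    have := mul_self_pos.mpr hz
    linarith
  · right
    simp [sq]
    have h2 : z.re * z.im ≠ 0 := mul_ne_zero h hz
    intro h3
    apply h2
    linarith

theorem mem_Om_of_real {t : ℝ} (ht : |t| < 1) : (t : ℂ) ∈ Om := by
  show 1 - (t : ℂ) ^ 2 ∈ slitPlane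
  rw [mem_slitPlane_iff]
  left
  have : (1 - (t : ℂ) ^ 2) = ((1 - t ^ 2 : ℝ) : ℂ) := by push_cast; ring
  rw [this, ofReal_re]
  have := (sq_lt_one_iff_abs_lt_one t).mpr ht
  linarith

theorem differentiableOn_rt : DifferentiableOn ℂ rt Om := by
  intro z hz
  unfold rt
  apply DifferentiableAt.differentiableWithinAt
  exact DifferentiableAt.cpow (by fun_prop) (by fun_prop) hz

theorem rt_re_nonneg (z : ℂ) : 0 ≤ (rt z).re := by
  unfold rt
  by_cases h : 1 - z ^ 2 = 0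
  · rw [h, zero_cpow (by norm_num)]; simp
  rw [cpow_def_of_ne_zero h, exp_re]
  apply mul_nonneg (Real.exp_pos _).le
  apply Real.cos_nonneg_of_mem_Icc
  have h1 : (log (1 - z ^ 2) * (1 / 2)).im = (1 - z ^ 2).arg / 2 := by
    have : (1 / 2 : ℂ) = ((1 / 2 : ℝ) : ℂ) := by push_cast; ring
    rw [this, im_mul_ofReal, log_im]
    ring
  rw [h1]
  have h2 := neg_pi_lt_arg (1 - z ^ 2)
  have h3 := arg_le_pi (1 - z ^ 2)
  constructor <;> linarith

theorem rt_re_pos {z : ℂ} (hz : z ∈ Om) : 0 < (rt z).re := by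
  unfold rt
  have hz' : 1 - z ^ 2 ∈ slitPlane := hz
  have h : 1 - z ^ 2 ≠ 0 := slitPlane_ne_zero hz'
  rw [cpow_def_of_ne_zero h, exp_re]
  apply mul_pos (Real.exp_pos _)
  apply Real.cos_pos_of_mem_Ioo
  have h1 : (log (1 - z ^ 2) * (1 / 2)).im = (1 - z ^ 2).arg / 2 := by
    have : (1 / 2 : ℂ) = ((1 / 2 : ℝ) : ℂ) := by push_cast; ring
    rw [this, im_mul_ofReal, log_im]
    ring
  rw [h1]
  have h2 := neg_pi_lt_arg (1 - z ^ 2)
  have h3 : (1 - z ^ 2).arg < Real.pi := lt_of_le_of_ne (arg_le_pi _) (mem_slitPlane_iff_arg.mp hz').1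
  constructor <;> linarith

theorem rt_of_real {t : ℝ} (ht : |t| ≤ 1) : rt t = (Real.sqrt (1 - t ^ 2) : ℝ) := by
  unfold rt
  have h0 : 0 ≤ 1 - t ^ 2 := by
    have := (sq_le_one_iff_abs_le_one t).mpr ht
    linarith
  rw [Real.sqrt_eq_rpow, ofReal_cpow h0]
  push_cast
  rfl

/-- Upper bound for `(Re √(1-z²))²`. -/
theorem rt_re_sq_le (z : ℂ) : (rt z).re ^ 2 ≤ max (1 - z.re ^ 2) (z.im ^ 2) + |z.im| := by
  set u := z.re
  set v := z.im
  have h1 : (rt z).re ^ 2 - (rt z).im ^ 2 = 1 - u ^ 2 + v ^ 2 := by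
    have := congrArg Complex.re (rt_sq z)
    simp only [sq, mul_re, sub_re, one_re] at this
    simp only [u, v]
    nlinarith [this]
  have h2 : (rt z).re ^ 2 + (rt z).im ^ 2 = ‖1 - z ^ 2‖ := by
    rw [← rt_sq z, norm_pow, Complex.sq_norm, normSq_apply]
    ring
  have h3 : ‖1 - z ^ 2‖ ≤ |(1 - u ^ 2) - v ^ 2| + 2 * |v| := by
    apply abs_le_of_sq_le_sq' _ (by positivity) |>.2
    have h4 : ‖1 - z ^ 2‖ ^ 2 = ((1 - u ^ 2) - v ^ 2) ^ 2 + 4 * v ^ 2 := by
      rw [Complex.sq_norm, normSq_apply]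
      simp only [sub_re, one_re, sub_im, one_im, sq, mul_re, mul_im]
      simp only [u, v]
      ring
    rw [h4]
    have h5 : |(1 - u ^ 2) - v ^ 2| ^ 2 = ((1 - u ^ 2) - v ^ 2) ^ 2 := sq_abs _
    have h6 : |v| ^ 2 = v ^ 2 := sq_abs _
    nlinarith [mul_nonneg (abs_nonneg ((1 - u ^ 2) - v ^ 2)) (abs_nonneg v)]
  rcases le_total (1 - u ^ 2) (v ^ 2) with h | h
  · rw [max_eq_right h]
    rw [abs_of_nonpos (by linarith)] at h3
    linarith
  · rw [max_eq_left h]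
    rw [abs_of_nonneg (by linarith)] at h3
    linarith

theorem rt_re_le (z : ℂ) : (rt z).re ≤ 1 + |z.im| := by
  have h1 := rt_re_sq_le z
  have h2 : max (1 - z.re ^ 2) (z.im ^ 2) ≤ 1 + z.im ^ 2 := by
    apply max_le
    · nlinarith [sq_nonneg z.re, sq_nonneg z.im]
    · linarith
  have h3 : |z.im| ^ 2 = z.im ^ 2 := sq_abs _
  have h4 := abs_nonneg z.im
  apply abs_le_of_sq_le_sq' _ (by positivity) |>.2
  nlinarith

theorem one_add_rt_ne_zero (z : ℂ) : 1 + rt z ≠ 0 := by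
  intro h
  have := congrArg Complex.re h
  simp at this
  linarith [rt_re_nonneg z]

/-- The conformal map of the slit plane onto the disc. -/
noncomputable def wm (z : ℂ) : ℂ := z / (1 + rt z)

theorem differentiableOn_wm : DifferentiableOn ℂ wm Om := by
  unfold wm
  exact differentiableOn_id.div (differentiableOn_rt.const_add 1) fun z _ => one_add_rt_ne_zero z

theorem norm_wm_sq (z : ℂ) : ‖wm z‖ ^ 2 = ‖1 - rt z‖ / ‖1 + rt z‖ := by
  unfold wm
  have h0 : ‖1 + rt z‖ ≠ 0 := norm_ne_zero_iff.mpr (one_add_rt_ne_zero z)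
  rw [norm_div, div_pow]
  have h1 : ‖z‖ ^ 2 = ‖1 - rt z‖ * ‖1 + rt z‖ := by
    rw [← norm_pow, ← norm_mul]
    congr 1
    have := rt_sq z
    linear_combination this
  rw [h1]
  field_simp

theorem norm_wm_le (z : ℂ) : ‖wm z‖ ≤ 1 := by
  have h0 : 0 < ‖1 + rt z‖ := norm_pos_iff.mpr (one_add_rt_ne_zero z)
  have h1 := norm_wm_sq z
  have h2 : ‖1 - rt z‖ ≤ ‖1 + rt z‖ := by
    apply abs_le_of_sq_le_sq' _ (norm_nonneg _) |>.2
    rw [Complex.sq_norm, Complex.sq_norm, normSq_apply, normSq_apply]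
    simp only [sub_re, one_re, sub_im, one_im, add_re, add_im]
    nlinarith [rt_re_nonneg z]
  have h3 : ‖wm z‖ ^ 2 ≤ 1 := by
    rw [h1]
    exact (div_le_one h0).mpr h2
  exact abs_le_of_sq_le_sq' (by simpa using h3) zero_le_one |>.2

/-- real version of the conformal map -/
noncomputable def wr (t : ℝ) : ℝ := t / (1 + Real.sqrt (1 - t ^ 2))

theorem wm_of_real {t : ℝ} (ht : |t| ≤ 1) : wm t = (wr t : ℝ) := by
  unfold wm wr
  rw [rt_of_real ht]
  push_cast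
  rfl

theorem abs_wr_lt {t : ℝ} (ht : |t| < 1) : |wr t| < 1 := by
  unfold wr
  have h0 : 0 < 1 - t ^ 2 := by
    have := (sq_lt_one_iff_abs_lt_one t).mpr ht
    linarith
  have h1 : 0 < Real.sqrt (1 - t ^ 2) := Real.sqrt_pos.mpr h0
  rw [abs_div, abs_of_pos (by linarith : 0 < 1 + Real.sqrt (1 - t ^ 2)), div_lt_one (by linarith)]
  linarith

/-- Strict monotonicity of the real conformal map. -/
theorem wr_lt_wr {s t : ℝ} (hs : |s| < 1) (ht : |t| < 1) (hst : s < t) : wr s < wr t := by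
  unfold wr
  have h0 : 0 < 1 - t ^ 2 := by
    have := (sq_lt_one_iff_abs_lt_one t).mpr ht
    linarith
  have h0' : 0 < 1 - s ^ 2 := by
    have := (sq_lt_one_iff_abs_lt_one s).mpr hs
    linarith
  set A := Real.sqrt (1 - s ^ 2)
  set B := Real.sqrt (1 - t ^ 2)
  have hA : 0 < A := Real.sqrt_pos.mpr h0'
  have hB : 0 < B := Real.sqrt_pos.mpr h0
  have hA2 : A ^ 2 = 1 - s ^ 2 := Real.sq_sqrt h0'.le
  have hB2 : B ^ 2 = 1 - t ^ 2 := Real.sq_sqrt h0.le
  rw [div_lt_div_iff₀ (by linarith) (by linarith)]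
  -- s (1 + B) < t (1 + A)
  -- t - s + tA - sB > 0
  have hs1 := abs_lt.mp hs
  have ht1 := abs_lt.mp ht
  have key : (t * A - s * B) * (t * A + s * B) = (t - s) * (t + s) := by
    have : (t * A - s * B) * (t * A + s * B) = t ^ 2 * A ^ 2 - s ^ 2 * B ^ 2 := by ring
    rw [this, hA2, hB2]; ring
  by_cases h : 0 ≤ s
  · have hAB : B ≤ A := by
      apply Real.sqrt_le_sqrt
      nlinarith
    nlinarith [mul_nonneg h (sub_nonneg.mpr hAB), mul_pos (sub_pos.mpr hst) hA]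
  · push Not at h
    by_cases h' : t ≤ 0
    · have hAB : A ≤ B := by
        apply Real.sqrt_le_sqrt
        nlinarith
      nlinarith [mul_nonneg (neg_nonneg.mpr h') (sub_nonneg.mpr hAB), mul_pos (sub_pos.mpr hst) hB]
    · push Not at h'
      nlinarith [mul_pos h' hA, mul_pos (neg_pos.mpr h) hB]

/-- Blaschke factor for the slit plane with zero at the real point `v`. -/
noncomputable def bl (v : ℝ) (z : ℂ) : ℂ := (wm z - wr v) / (1 - wr v * wm z)

theorem one_sub_ne_zero {v : ℝ} (hv : |v| < 1) (z : ℂ) : 1 - (wr v : ℂ) * wm z ≠ 0 := by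
  intro h
  have h1 : (wr v : ℂ) * wm z = 1 := by linear_combination -h
  have h2 : ‖(wr v : ℂ) * wm z‖ = 1 := by rw [h1]; simp
  rw [norm_mul, norm_real, Real.norm_eq_abs] at h2
  have h3 := abs_wr_lt hv
  have h4 := norm_wm_le z
  nlinarith [abs_nonneg (wr v), norm_nonneg (wm z)]

theorem differentiableOn_bl {v : ℝ} (hv : |v| < 1) : DifferentiableOn ℂ (bl v) Om := by
  unfold bl
  exact (differentiableOn_wm.sub_const _).div ((differentiableOn_wm.const_mul _).const_sub 1)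
    fun z _ => one_sub_ne_zero hv z

theorem norm_bl_le {v : ℝ} (hv : |v| < 1) (z : ℂ) : ‖bl v z‖ ≤ 1 := by
  unfold bl
  have h0 : 0 < ‖1 - (wr v : ℂ) * wm z‖ := norm_pos_iff.mpr (one_sub_ne_zero hv z)
  rw [norm_div, div_le_one h0]
  apply abs_le_of_sq_le_sq' _ (norm_nonneg _) |>.2
  have h1 := norm_wm_le z
  have h2 : ‖wm z‖ ^ 2 ≤ 1 := pow_le_one₀ (norm_nonneg _) h1
  rw [Complex.sq_norm, normSq_apply] at h2
  have h3 := abs_wr_lt hv
  have h4 : wr v ^ 2 < 1 := (sq_lt_one_iff_abs_lt_one _).mpr h3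
  rw [Complex.sq_norm, Complex.sq_norm, normSq_apply, normSq_apply]
  simp only [sub_re, one_re, sub_im, one_im, ofReal_re, ofReal_im, re_ofReal_mul, im_ofReal_mul]
  nlinarith [mul_nonneg (sub_nonneg.mpr h2) (sub_nonneg.mpr h4.le)]

/-- On the real segment the Blaschke factor has the sign of `t - v`. -/
theorem bl_of_real {v t : ℝ} (ht : |t| < 1) :
    bl v t = ((wr t - wr v) / (1 - wr v * wr t) : ℝ) := by
  unfold bl
  rw [wm_of_real ht.le]
  push_cast
  rfl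

theorem bl_real_sign {v t : ℝ} (hv : |v| < 1) (ht : |t| < 1) :
    0 ≤ (t - v) * ((wr t - wr v) / (1 - wr v * wr t)) := by
  have h1 : 0 < 1 - wr v * wr t := by
    have h2 := abs_wr_lt hv
    have h3 := abs_wr_lt ht
    have h4 : |wr v * wr t| < 1 := by
      rw [abs_mul]
      nlinarith [abs_nonneg (wr v), abs_nonneg (wr t)]
    linarith [(abs_lt.mp h4).2]
  rw [← mul_div_assoc]
  apply div_nonneg _ h1.le
  rcases lt_trichotomy t v with h | h | h
  · have := wr_lt_wr ht hv h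
    nlinarith
  · rw [h]; simp
  · have := wr_lt_wr hv ht h
    nlinarith

/-- Lower bound of the Blaschke factor on the imaginary axis. -/
theorem norm_bl_imag_ge {v : ℝ} (hv : |v| < 1) (τ : ℝ) : |wr v| ≤ ‖bl v (τ * I)‖ := by
  have hrt : rt (τ * I) = (Real.sqrt (1 + τ ^ 2) : ℝ) := by
    unfold rt
    have h0 : 0 ≤ 1 + τ ^ 2 := by positivity
    have h1 : (1 - ((τ:ℂ) * I) ^ 2) = ((1 + τ ^ 2 : ℝ) : ℂ) := by
      rw [mul_pow, I_sq]; push_cast; ring
    rw [h1, Real.sqrt_eq_rpow, ofReal_cpow h0]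
    push_cast
    rfl
  set R := Real.sqrt (1 + τ ^ 2) with hR
  have hR0 : 0 ≤ R := Real.sqrt_nonneg _
  have hw : wm (τ * I) = ((τ / (1 + R) : ℝ) : ℂ) * I := by
    unfold wm
    rw [hrt]
    push_cast
    ring
  set ω := τ / (1 + R) with hω
  have hω1 : ω ^ 2 ≤ 1 := by
    have h1 := norm_wm_le (τ * I)
    rw [hw, norm_mul, norm_real, norm_I, mul_one, Real.norm_eq_abs] at h1
    exact (sq_le_one_iff_abs_le_one _).mpr h1
  unfold bl
  rw [hw]
  have h3 := abs_wr_lt hv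
  have h4 : wr v ^ 2 < 1 := (sq_lt_one_iff_abs_lt_one _).mpr h3
  have h0 : 0 < ‖1 - (wr v : ℂ) * ((ω : ℂ) * I)‖ := by
    rw [← hw]
    exact norm_pos_iff.mpr (one_sub_ne_zero hv _)
  rw [norm_div, le_div_iff₀ h0]
  apply abs_le_of_sq_le_sq' _ (norm_nonneg _) |>.2
  rw [mul_pow, sq_abs, Complex.sq_norm, Complex.sq_norm, normSq_apply, normSq_apply]
  simp only [sub_re, one_re, sub_im, one_im, ofReal_re, ofReal_im, mul_re, mul_im, I_re, I_im]
  ring_nf
  nlinarith [mul_nonneg (sq_nonneg (wr v)) (sub_nonneg.mpr h4.le), sq_nonneg ω, sq_nonneg (wr v),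
    mul_nonneg (sq_nonneg ω) (sub_nonneg.mpr (pow_le_one₀ (n := 2) (sq_nonneg (wr v)) h4.le))]

theorem rt_imag_re_ge (τ : ℝ) : 1 ≤ (rt (τ * I)).re := by
  unfold rt
  have h0 : 0 ≤ 1 + τ ^ 2 := by positivity
  have h1 : (1 - ((τ:ℂ) * I) ^ 2) = ((1 + τ ^ 2 : ℝ) : ℂ) := by
    rw [mul_pow, I_sq]; push_cast; ring
  have : ((1 + τ ^ 2 : ℝ) : ℂ) ^ ((1:ℂ) / 2) = (Real.sqrt (1 + τ ^ 2) : ℝ) := by
    rw [Real.sqrt_eq_rpow, ofReal_cpow h0]
    push_cast
    rfl
  rw [h1, this, ofReal_re]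
  rw [Real.one_le_sqrt]
  nlinarith [sq_nonneg τ]

end Pool.Agent.H4
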