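import Mathlib
import Pool.Agent.H4.Slit

open MeasureTheory Set Filter Topology
open scoped Real

namespace Pool.Agent.H4

/-- The cost of a zero of the multiplier at relative position `v`. -/
noncomputable def ell (v : ℝ) : ℝ :=
  if |v| < 1 then Real.log (1 + Real.sqrt (1 - v ^ 2)) - Real.log |v| else 0

lemma ell_nonneg (v : ℝ) : 0 ≤ ell v := by
  unfold ell
  split_ifs with h
  · have h1 : 0 ≤ Real.log (1 + Real.sqrt (1 - v ^ 2)) :=
      Real.log_nonneg (by linarith [Real.sqrt_nonneg (1 - v ^ 2)])
    have h2 : Real.log |v| ≤ 0 := Real.log_nonpos (abs_nonneg _) h.le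
    linarith
  · exact le_rfl

lemma measurable_ell : Measurable ell := by
  unfold ell
  apply Measurable.ite
  · exact measurableSet_lt (by fun_prop) measurable_const
  · fun_prop
  · fun_prop

lemma abs_wr_eq {v : ℝ} (hv : |v| < 1) (h0 : v ≠ 0) : |wr v| = Real.exp (-(ell v)) := by
  have hs : 0 < 1 + Real.sqrt (1 - v ^ 2) := by linarith [Real.sqrt_nonneg (1 - v ^ 2)]
  unfold wr ell
  rw [if_pos hv, neg_sub, Real.exp_sub, Real.exp_log (abs_pos.mpr h0), Real.exp_log hs, abs_div,
    abs_of_pos hs]

lemma ell_ge {v : ℝ} (hv : 1 ≤ |v|) : ell v = 0 := by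
  unfold ell
  rw [if_neg (not_lt.mpr hv)]

/-- Antiderivative. -/
lemma hasDerivAt_ell_aux {u : ℝ} (h0 : 0 < u) (h1 : u < 1) :
    HasDerivAt (fun u : ℝ => u * Real.log (1 + Real.sqrt (1 - u ^ 2)) - u * Real.log u + Real.arcsin u)
      (Real.log (1 + Real.sqrt (1 - u ^ 2)) - Real.log u) u := by
  have hpos : 0 < 1 - u ^ 2 := by nlinarith
  set s := Real.sqrt (1 - u ^ 2) with hs
  have hs0 : 0 < s := Real.sqrt_pos.mpr hpos
  have hss : s * s = 1 - u ^ 2 := Real.mul_self_sqrt hpos.le
  have d1 : HasDerivAt (fun u : ℝ => 1 - u ^ 2) (-(2 * u)) u := by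
    have := ((hasDerivAt_pow 2 u).const_sub 1)
    simpa using this
  have d2 : HasDerivAt (fun u : ℝ => Real.sqrt (1 - u ^ 2)) (-(2 * u) / (2 * s)) u := d1.sqrt hpos.ne'
  have d3 : HasDerivAt (fun u : ℝ => Real.log (1 + Real.sqrt (1 - u ^ 2))) ((-(2 * u) / (2 * s)) / (1 + s)) u := by
    have := (d2.const_add 1).log (by positivity)
    exact this
  have d4 := (hasDerivAt_id u).mul d3
  have d5 := (hasDerivAt_id u).mul (Real.hasDerivAt_log h0.ne')
  have d6 := Real.hasDerivAt_arcsin (by linarith : u ≠ -1) (by linarith : u ≠ 1)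
  have d7 := (d4.sub d5).add d6
  refine d7.congr_deriv ?_
  simp only [id]
  rw [← hs]
  have hne : 1 + s ≠ 0 := by positivity
  field_simp
  have : u ^ 2 = 1 - s * s := by linarith
  rw [this]
  ring

lemma integral_ell_aux :
    IntegrableOn (fun u : ℝ => Real.log (1 + Real.sqrt (1 - u ^ 2)) - Real.log u) (Ioc 0 1) ∧
    ∫ u in (0 : ℝ)..1, (Real.log (1 + Real.sqrt (1 - u ^ 2)) - Real.log u) = π / 2 := by
  have hcont : Continuous (fun u : ℝ => u * Real.log (1 + Real.sqrt (1 - u ^ 2)) - u * Real.log u + Real.arcsin u) := by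
    apply Continuous.add _ Real.continuous_arcsin
    apply Continuous.sub _ Real.continuous_mul_log
    apply Continuous.mul continuous_id
    apply Continuous.log (by fun_prop)
    intro u
    have := Real.sqrt_nonneg (1 - u ^ 2)
    linarith
  have hint : IntegrableOn (fun u : ℝ => Real.log (1 + Real.sqrt (1 - u ^ 2)) - Real.log u) (Ioc 0 1) := by
    apply intervalIntegral.integrableOn_deriv_of_nonneg hcont.continuousOn
    · intro u hu
      exact hasDerivAt_ell_aux hu.1 hu.2
    · intro u hu
      have h1 : 0 ≤ Real.log (1 + Real.sqrt (1 - u ^ 2)) :=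
        Real.log_nonneg (by linarith [Real.sqrt_nonneg (1 - u ^ 2)])
      have h2 : Real.log u ≤ 0 := Real.log_nonpos hu.1.le hu.2.le
      linarith
  refine ⟨hint, ?_⟩
  rw [intervalIntegral.integral_eq_sub_of_hasDerivAt_of_le zero_le_one hcont.continuousOn
    (fun u hu => hasDerivAt_ell_aux hu.1 hu.2)]
  · simp
  · rw [intervalIntegrable_iff_integrableOn_Ioc_of_le zero_le_one]
    exact hint

lemma ell_abs (v : ℝ) : ell |v| = ell v := by
  unfold ell
  rw [abs_abs, sq_abs]

lemma ell_indicator : (Ioi (0:ℝ)).indicator ell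
    = (Ioo (0 : ℝ) 1).indicator (fun u : ℝ => Real.log (1 + Real.sqrt (1 - u ^ 2)) - Real.log u) := by
  ext u
  by_cases hu : u ∈ Ioi (0 : ℝ)
  · have hu0 : 0 < u := hu
    rw [indicator_of_mem hu]
    by_cases hu1 : u < 1
    · have hm : u ∈ Ioo (0 : ℝ) 1 := ⟨hu, hu1⟩
      rw [indicator_of_mem hm]
      unfold ell
      rw [abs_of_pos hu0, if_pos hu1]
    · have hm : u ∉ Ioo (0 : ℝ) 1 := fun h => hu1 h.2
      rw [indicator_of_notMem hm]
      unfold ell
      rw [abs_of_pos hu0, if_neg hu1]
  · have hm : u ∉ Ioo (0 : ℝ) 1 := fun h => hu h.1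
    rw [indicator_of_notMem hu, indicator_of_notMem hm]

lemma integral_ell : ∫ v, ell v = π := by
  have h1 : ∫ v, ell v = ∫ v, ell |v| := by
    congr 1
    ext v
    rw [ell_abs]
  rw [h1, integral_comp_abs]
  have h2 : ∫ u in Ioi (0:ℝ), ell u = π / 2 := by
    rw [← integral_indicator measurableSet_Ioi, ell_indicator, integral_indicator measurableSet_Ioo,
      ← integral_Ioc_eq_integral_Ioo, ← intervalIntegral.integral_of_le zero_le_one]
    exact integral_ell_aux.2
  rw [h2]
  ring

lemma integrable_ell : Integrable ell := by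
  by_contra h
  have := integral_undef h
  rw [integral_ell] at this
  exact Real.pi_ne_zero this

lemma integral_ell_scaled {r : ℝ} (hr : 0 < r) (l : ℝ) :
    Integrable (fun x : ℝ => ell ((l - x) / r)) ∧ ∫ x : ℝ, ell ((l - x) / r) = r * π := by
  have h1 : Integrable (fun x : ℝ => ell (x / r)) := integrable_ell.comp_div hr.ne'
  constructor
  · exact h1.comp_sub_left l
  · rw [integral_sub_left_eq_self (fun x : ℝ => ell (x / r)) volume l,
      MeasureTheory.Measure.integral_comp_div ell r, integral_ell, abs_of_pos hr, smul_eq_mul]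

/-- **Averaging.** A set of positive proportion where the multiplier is large. -/
lemma good_set {ι : Type*} (s : Finset ι) (lam : ι → ℝ) {a b r c q : ℝ} (hab : a < b) (hr : 0 < r)
    (hc : 0 < c) (hq : (s.card : ℝ) * (r * π) ≤ (2 * π * c * r - q) * (b - a)) :
    ∃ E : Set ℝ, MeasurableSet E ∧ E ⊆ Icc a b ∧ (∀ x ∈ E, ∀ i ∈ s, lam i ≠ x) ∧
      (∀ x ∈ E, q / 2 ≤ 2 * π * c * r - ∑ i ∈ s, ell ((lam i - x) / r)) ∧
      q / 2 * (b - a) ≤ 2 * π * c * r * volume.real E := by
  set Q : ℝ → ℝ := fun x => 2 * π * c * r - ∑ i ∈ s, ell ((lam i - x) / r) with hQ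
  have hSi : Integrable (fun x : ℝ => ∑ i ∈ s, ell ((lam i - x) / r)) := by
    apply integrable_finsetSum
    intro i _
    exact (integral_ell_scaled hr (lam i)).1
  have hSm : Measurable (fun x : ℝ => ∑ i ∈ s, ell ((lam i - x) / r)) := by
    apply Finset.measurable_fun_sum
    intro i _
    exact measurable_ell.comp (by fun_prop)
  have hQm : Measurable Q := measurable_const.sub hSm
  have hS0 : ∀ x, 0 ≤ ∑ i ∈ s, ell ((lam i - x) / r) := fun x => Finset.sum_nonneg fun i _ => ell_nonneg _
  have hSint : ∫ x : ℝ, ∑ i ∈ s, ell ((lam i - x) / r) = s.card * (r * π) := by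
    rw [integral_finsetSum]
    · rw [Finset.sum_congr rfl (fun i _ => (integral_ell_scaled hr (lam i)).2), Finset.sum_const, nsmul_eq_mul]
    · intro i _
      exact (integral_ell_scaled hr (lam i)).1
  set E0 : Set ℝ := Icc a b ∩ {x | q / 2 ≤ Q x} with hE0
  have hE0m : MeasurableSet E0 := measurableSet_Icc.inter (measurableSet_le measurable_const hQm)
  have hfin : (lam '' (s : Set ι)).Finite := s.finite_toSet.image lam
  refine ⟨E0 \ (lam '' (s : Set ι)), hE0m.diff hfin.measurableSet, fun x hx => hx.1.1, ?_, fun x hx => hx.1.2, ?_⟩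
  · intro x hx i hi h
    exact hx.2 ⟨i, hi, h⟩
  · have hvol : volume.real (E0 \ (lam '' (s : Set ι))) = volume.real E0 := by
      unfold Measure.real
      congr 1
      exact measure_sdiff_null (hfin.countable.measure_zero volume)
    rw [hvol]
    have hIfin : volume (Icc a b) ≠ ⊤ := by rw [Real.volume_Icc]; exact ENNReal.ofReal_ne_top
    have hconst : ∀ k : ℝ, IntegrableOn (fun _ : ℝ => k) (Icc a b) := fun k => integrableOn_const hIfin
    have hQi : IntegrableOn Q (Icc a b) := (hconst _).sub hSi.integrableOn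
    have h1 : q * (b - a) ≤ ∫ x in Icc a b, Q x := by
      have e : ∫ x in Icc a b, Q x = 2 * π * c * r * (b - a) - ∫ x in Icc a b, ∑ i ∈ s, ell ((lam i - x) / r) := by
        rw [hQ, integral_sub (hconst _) hSi.integrableOn, setIntegral_const, smul_eq_mul, Measure.real,
          Real.volume_Icc, ENNReal.toReal_ofReal (by linarith)]
        ring
      have h2 : ∫ x in Icc a b, ∑ i ∈ s, ell ((lam i - x) / r) ≤ s.card * (r * π) := by
        rw [← hSint]
        exact setIntegral_le_integral hSi (ae_of_all _ hS0)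
      rw [e]
      linarith
    have h3 : ∫ x in Icc a b, Q x ≤ ∫ x in Icc a b, (q / 2 + {x | q / 2 ≤ Q x}.indicator (fun _ => 2 * π * c * r - q / 2) x) := by
      apply setIntegral_mono_on hQi _ measurableSet_Icc
      · intro x _
        by_cases hx : x ∈ {x | q / 2 ≤ Q x}
        · rw [indicator_of_mem hx]
          have := hS0 x
          simp only [hQ]
          linarith
        · rw [indicator_of_notMem hx]
          simp only [mem_ofPred_eq, not_le] at hx
          linarith
      · apply (hconst _).add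
        apply IntegrableOn.indicator (hconst _)
        exact measurableSet_le measurable_const hQm
    rw [integral_add (hconst _) ((hconst _).indicator (measurableSet_le measurable_const hQm)),
      setIntegral_const, smul_eq_mul, Measure.real, Real.volume_Icc, ENNReal.toReal_ofReal (by linarith),
      setIntegral_indicator (measurableSet_le measurable_const hQm), setIntegral_const, smul_eq_mul] at h3
    rw [← hE0] at h3
    by_cases hqn : 0 ≤ q
    · have h4 : 0 ≤ volume.real E0 * (q / 2) := by positivity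
      nlinarith
    · push Not at hqn
      have h5 : 0 ≤ 2 * π * c * r * volume.real E0 := by positivity
      have h6 : q / 2 * (b - a) ≤ 0 := by
        apply mul_nonpos_of_nonpos_of_nonneg <;> linarith
      linarith

end Pool.Agent.H4
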