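import Mathlib

open Complex MeasureTheory Set Filter Topology
open scoped Real

namespace Pool.Agent.H4

/-- The Cauchy transform of `ρ` on the upper half plane. -/
noncomputable def CT (ρ : ℝ → ℂ) (z : ℂ) : ℂ := (2 * π * I)⁻¹ * ∫ t : ℝ, ρ t / (t - z)

lemma im_le_norm_sub' (z : ℂ) (t : ℝ) : z.im ≤ ‖(t : ℂ) - z‖ := by
  have h := Complex.abs_im_le_norm ((t : ℂ) - z)
  simp only [sub_im, ofReal_im, zero_sub, abs_neg] at h
  exact (le_abs_self _).trans h

lemma im_le_norm_sub {z : ℂ} (_hz : 0 < z.im) (t : ℝ) : z.im ≤ ‖(t : ℂ) - z‖ :=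
  im_le_norm_sub' z t

lemma sub_ne_zero' {z : ℂ} (hz : 0 < z.im) (t : ℝ) : (t : ℂ) - z ≠ 0 := by
  intro h
  have := im_le_norm_sub hz t
  rw [h, norm_zero] at this
  linarith

lemma norm_inv_sub_le {z : ℂ} (hz : 0 < z.im) (t : ℝ) : ‖((t : ℂ) - z)⁻¹‖ ≤ z.im⁻¹ := by
  rw [norm_inv]
  exact inv_anti₀ hz (im_le_norm_sub hz t)

lemma continuous_inv_sub {z : ℂ} (hz : 0 < z.im) : Continuous fun t : ℝ => ((t : ℂ) - z)⁻¹ := by
  apply Continuous.inv₀ (by fun_prop)
  exact fun t => sub_ne_zero' hz t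

lemma integrable_div {ρ : ℝ → ℂ} (hρ : Integrable ρ) {z : ℂ} (hz : 0 < z.im) :
    Integrable fun t : ℝ => ρ t / (t - z) := by
  have h : (fun t : ℝ => ρ t / (t - z)) = fun t : ℝ => ρ t * ((t : ℂ) - z)⁻¹ := by
    ext t; rw [div_eq_mul_inv]
  rw [h]
  exact hρ.mul_bdd (c := z.im⁻¹) (continuous_inv_sub hz).aestronglyMeasurable
    (ae_of_all _ fun t => norm_inv_sub_le hz t)

lemma norm_two_pi_I_inv : ‖(2 * (π : ℂ) * I)⁻¹‖ = (2 * π)⁻¹ := by
  rw [norm_inv, norm_mul, norm_mul, norm_I, mul_one, Complex.norm_real, Real.norm_eq_abs,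
    abs_of_pos Real.pi_pos]
  norm_num

lemma norm_CT_le' {ρ : ℝ → ℂ} {z : ℂ} :
    ‖CT ρ z‖ ≤ (2 * π)⁻¹ * ∫ t : ℝ, ‖ρ t‖ / ‖(t : ℂ) - z‖ := by
  unfold CT
  rw [norm_mul, norm_two_pi_I_inv]
  apply mul_le_mul_of_nonneg_left _ (by positivity)
  refine (norm_integral_le_integral_norm _).trans (le_of_eq ?_)
  congr 1
  ext t
  rw [norm_div]

lemma integrable_norm_div {ρ : ℝ → ℂ} (hρ : Integrable ρ) {z : ℂ} (hz : 0 < z.im) :
    Integrable fun t : ℝ => ‖ρ t‖ / ‖(t : ℂ) - z‖ := by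
  have := (integrable_div hρ hz).norm
  simpa [norm_div] using this

lemma norm_CT_le {ρ : ℝ → ℂ} (hρ : Integrable ρ) {z : ℂ} (hz : 0 < z.im) :
    ‖CT ρ z‖ ≤ (2 * π * z.im)⁻¹ * ∫ t : ℝ, ‖ρ t‖ := by
  refine norm_CT_le'.trans ?_
  rw [mul_inv (2 * π), mul_assoc]
  apply mul_le_mul_of_nonneg_left _ (by positivity)
  rw [← integral_const_mul]
  apply integral_mono (integrable_norm_div hρ hz) (hρ.norm.const_mul _)
  intro t
  simp only
  rw [div_eq_mul_inv, mul_comm]
  apply mul_le_mul_of_nonneg_right _ (norm_nonneg _)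
  rw [← norm_inv]
  exact norm_inv_sub_le hz t

lemma differentiableAt_CT {ρ : ℝ → ℂ} (hρ : Integrable ρ) {z : ℂ} (hz : 0 < z.im) :
    DifferentiableAt ℂ (CT ρ) z := by
  have hs : {w : ℂ | z.im / 2 < w.im} ∈ 𝓝 z := by
    apply IsOpen.mem_nhds
    · exact isOpen_lt continuous_const Complex.continuous_im
    · simp only [mem_ofPred_eq]; linarith
  have key : HasDerivAt (fun w => ∫ t : ℝ, ρ t / (t - w)) (∫ t : ℝ, ρ t / (t - z) ^ 2) z := by
    have := (hasDerivAt_integral_of_dominated_loc_of_deriv_le (μ := volume)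
      (F := fun (w : ℂ) (t : ℝ) => ρ t / (t - w))
      (F' := fun (w : ℂ) (t : ℝ) => ρ t / (t - w) ^ 2) (x₀ := z)
      (bound := fun t => ‖ρ t‖ * (z.im / 2)⁻¹ ^ 2) hs ?_ ?_ ?_ ?_ ?_ ?_).2
    · exact this
    · filter_upwards [hs] with w hw
      have hw' : 0 < w.im := lt_trans (by positivity) hw
      exact (integrable_div hρ hw').aestronglyMeasurable
    · exact integrable_div hρ hz
    · apply AEStronglyMeasurable.congr (f := fun t : ℝ => ρ t * (((t : ℂ) - z)⁻¹) ^ 2)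
      · exact hρ.aestronglyMeasurable.mul ((continuous_inv_sub hz).pow 2).aestronglyMeasurable
      · apply ae_of_all
        intro t
        simp only [div_eq_mul_inv, inv_pow]
    · apply ae_of_all
      intro t w hw
      have hw' : 0 < w.im := lt_trans (by positivity) hw
      rw [norm_div, norm_pow, div_eq_mul_inv, ← inv_pow]
      apply mul_le_mul_of_nonneg_left _ (norm_nonneg _)
      apply pow_le_pow_left₀ (by positivity)
      apply inv_anti₀ (by positivity)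
      exact (le_of_lt hw).trans (im_le_norm_sub hw' t)
    · exact hρ.norm.mul_const _
    · apply ae_of_all
      intro t w hw
      have hw' : 0 < w.im := lt_trans (by positivity) hw
      have h1 := ((hasDerivAt_id w).const_sub (t : ℂ)).fun_inv (sub_ne_zero' hw' t)
      have h2 := h1.const_mul (ρ t)
      have e : (fun w : ℂ => ρ t / ((t : ℂ) - w)) = fun w : ℂ => ρ t * ((t : ℂ) - id w)⁻¹ := by
        ext w; simp [div_eq_mul_inv]
      rw [e]
      refine HasDerivAt.congr_deriv h2 ?_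
      rw [neg_neg, mul_one_div]
      rfl
  exact (key.differentiableAt).const_mul _

lemma differentiableOn_CT {ρ : ℝ → ℂ} (hρ : Integrable ρ) :
    DifferentiableOn ℂ (CT ρ) {z | 0 < z.im} := fun _ hz =>
  (differentiableAt_CT hρ hz).differentiableWithinAt

lemma norm_sub_sq (t : ℝ) (z : ℂ) : ‖(t : ℂ) - z‖ ^ 2 = (t - z.re) ^ 2 + z.im ^ 2 := by
  rw [Complex.sq_norm, Complex.normSq_apply]
  simp
  ring

lemma integrable_inv_norm_sq {z : ℂ} (hz : 0 < z.im) :
    Integrable (fun t : ℝ => (‖(t : ℂ) - z‖ ^ 2)⁻¹) ∧ ∫ t : ℝ, (‖(t : ℂ) - z‖ ^ 2)⁻¹ = π / z.im := by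
  have e : (fun t : ℝ => (‖(t : ℂ) - z‖ ^ 2)⁻¹)
      = fun t : ℝ => (z.im ^ 2)⁻¹ * (1 + ((t - z.re) / z.im) ^ 2)⁻¹ := by
    ext t
    rw [norm_sub_sq, ← mul_inv]
    congr 1
    field_simp
    ring
  have h1 : Integrable (fun t : ℝ => (1 + ((t - z.re) / z.im) ^ 2)⁻¹) := by
    have := (integrable_inv_one_add_sq.comp_div hz.ne').comp_sub_right z.re
    exact this
  constructor
  · rw [e]
    exact h1.const_mul _
  · rw [e, integral_const_mul]
    have h2 : ∫ t : ℝ, (1 + ((t - z.re) / z.im) ^ 2)⁻¹ = z.im * π := by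
      rw [integral_sub_right_eq_self (fun t : ℝ => (1 + (t / z.im) ^ 2)⁻¹) z.re,
        MeasureTheory.Measure.integral_comp_div (fun t : ℝ => (1 + t ^ 2)⁻¹) z.im,
        integral_univ_inv_one_add_sq, abs_of_pos hz, smul_eq_mul]
    rw [h2]
    field_simp

/-- The bound `O(y^(-1/2))` for bounded integrable densities. -/
lemma norm_CT_le_sqrt {ρ : ℝ → ℂ} (hρ : Integrable ρ) {B : ℝ} (hB : ∀ t, ‖ρ t‖ ≤ B) {z : ℂ}
    (hz : 0 < z.im) :
    ‖CT ρ z‖ ≤ (2 * π)⁻¹ * ((B * ∫ t : ℝ, ‖ρ t‖) + π) / 2 * (Real.sqrt z.im)⁻¹ := by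
  refine norm_CT_le'.trans ?_
  have hs : 0 < Real.sqrt z.im := Real.sqrt_pos.mpr hz
  have hss : Real.sqrt z.im * Real.sqrt z.im = z.im := Real.mul_self_sqrt hz.le
  rw [mul_div_assoc, mul_assoc]
  apply mul_le_mul_of_nonneg_left _ (by positivity)
  have hB0 : 0 ≤ B := (norm_nonneg _).trans (hB 0)
  have h1 : ∫ t : ℝ, ‖ρ t‖ / ‖(t : ℂ) - z‖
      ≤ ∫ t : ℝ, ((Real.sqrt z.im)⁻¹ / 2 * B) * ‖ρ t‖ + (Real.sqrt z.im / 2) * (‖(t : ℂ) - z‖ ^ 2)⁻¹ := by
    apply integral_mono (integrable_norm_div hρ hz)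
    · exact (hρ.norm.const_mul _).add ((integrable_inv_norm_sq hz).1.const_mul _)
    · intro t
      simp only
      set a := ‖ρ t‖ with ha
      set b := ‖(t : ℂ) - z‖⁻¹ with hb
      have hb0 : 0 ≤ b := by positivity
      have ha0 : 0 ≤ a := norm_nonneg _
      have hab : a ≤ B := hB t
      rw [div_eq_mul_inv, ← inv_pow, ← hb]
      set s := Real.sqrt z.im
      have h2 : 0 ≤ (a * s⁻¹ - b) ^ 2 * (s / 2) := by positivity
      have h3 : (a * s⁻¹ - b) ^ 2 * (s / 2) = s⁻¹ / 2 * (a * a) + s / 2 * b ^ 2 - a * b := by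
        field_simp
        ring
      have h4 : s⁻¹ / 2 * (a * a) ≤ s⁻¹ / 2 * B * a := by
        rw [mul_assoc]
        apply mul_le_mul_of_nonneg_left _ (by positivity)
        exact mul_le_mul_of_nonneg_right hab ha0
      linarith
  refine h1.trans (le_of_eq ?_)
  rw [integral_add (hρ.norm.const_mul _) ((integrable_inv_norm_sq hz).1.const_mul _),
    integral_const_mul, integral_const_mul, (integrable_inv_norm_sq hz).2]
  have h5 : π / z.im = π * (Real.sqrt z.im)⁻¹ * (Real.sqrt z.im)⁻¹ := by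
    rw [mul_assoc, ← mul_inv, hss, div_eq_mul_inv]
  rw [h5]
  field_simp

/-- Multiplication by `z`. -/
lemma mul_CT {ρ : ℝ → ℂ} (hρ : Integrable ρ) (hρ1 : Integrable fun t : ℝ => (t : ℂ) * ρ t)
    (h0 : ∫ t : ℝ, ρ t = 0) {z : ℂ} (hz : 0 < z.im) :
    z * CT ρ z = CT (fun t => (t : ℂ) * ρ t) z := by
  unfold CT
  rw [mul_left_comm]
  congr 1
  rw [← integral_const_mul]
  have h1 : ∫ t : ℝ, (t : ℂ) * ρ t / (t - z) - z * (ρ t / (t - z)) = ∫ t : ℝ, ρ t := by
    congr 1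
    ext t
    have := sub_ne_zero' hz t
    field_simp
  rw [integral_sub (integrable_div hρ1 hz) ((integrable_div hρ hz).const_mul z), h0] at h1
  exact (sub_eq_zero.mp h1).symm

lemma norm_cexp_le {z : ℂ} (hz : 0 < z.im) {ξ : ℝ} (hξ : 0 ≤ ξ) (t : ℝ) :
    ‖cexp (2 * π * ξ * (z - t) * I)‖ ≤ 1 := by
  rw [Complex.norm_exp]
  apply Real.exp_le_one_iff.mpr
  have : (2 * π * ξ * (z - t) * I).re = -(2 * π * ξ * z.im) := by
    simp [Complex.mul_re, Complex.mul_im]
  rw [this]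
  have : 0 ≤ 2 * π * ξ * z.im := by positivity
  linarith

/-- The effect of a spectral gap. -/
lemma CT_gap {ρ : ℝ → ℂ} (hρ : Integrable ρ) {c : ℝ} (hc : 0 ≤ c)
    (hgap : ∀ ξ : ℝ, 0 ≤ ξ → ξ < c → ∫ t : ℝ, ρ t * cexp (-(2 * π * ξ * t) * I) = 0) {z : ℂ}
    (hz : 0 < z.im) :
    CT ρ z = cexp (2 * π * c * z * I) * CT (fun t => ρ t * cexp (-(2 * π * c * t) * I)) z := by
  have hswap : ∫ t : ℝ, ∫ ξ in Ioo (0 : ℝ) c, ρ t * cexp (2 * π * ξ * (z - t) * I)
      = ∫ ξ in Ioo (0 : ℝ) c, ∫ t : ℝ, ρ t * cexp (2 * π * ξ * (z - t) * I) := by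
    apply integral_integral_swap
    have h1 : Integrable (fun p : ℝ × ℝ => ρ p.1 * (1 : ℂ)) (volume.prod (volume.restrict (Ioo (0 : ℝ) c))) :=
      hρ.mul_prod (integrable_const (1 : ℂ))
    have h2 : Continuous fun p : ℝ × ℝ => cexp (2 * π * p.2 * (z - p.1) * I) := by fun_prop
    apply h1.mono
    · have h3 : AEStronglyMeasurable (fun p : ℝ × ℝ => ρ p.1) (volume.prod (volume.restrict (Ioo (0 : ℝ) c))) := by
        simpa using h1.aestronglyMeasurable
      exact h3.mul h2.aestronglyMeasurable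
    · have hm : MeasurableSet ((univ : Set ℝ) ×ˢ Ioo (0 : ℝ) c) := MeasurableSet.univ.prod measurableSet_Ioo
      have hμ : volume.prod (volume.restrict (Ioo (0 : ℝ) c))
          = ((volume : Measure ℝ).prod volume).restrict (univ ×ˢ Ioo (0 : ℝ) c) := by
        rw [← Measure.prod_restrict, Measure.restrict_univ]
      rw [hμ]
      filter_upwards [ae_restrict_mem hm] with p hp
      simp only [Function.uncurry, mul_one]
      rw [norm_mul]
      apply mul_le_of_le_one_right (norm_nonneg _)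
      exact norm_cexp_le hz hp.2.1.le p.1
  have hzero : ∫ ξ in Ioo (0 : ℝ) c, ∫ t : ℝ, ρ t * cexp (2 * π * ξ * (z - t) * I) = 0 := by
    rw [← integral_zero ℝ ℂ (μ := volume.restrict (Ioo (0 : ℝ) c))]
    apply setIntegral_congr_fun measurableSet_Ioo
    intro ξ hξ
    simp only
    have e : (fun t : ℝ => ρ t * cexp (2 * π * ξ * (z - t) * I))
        = fun t : ℝ => cexp (2 * π * ξ * z * I) * (ρ t * cexp (-(2 * π * ξ * t) * I)) := by
      ext t
      rw [mul_left_comm, ← Complex.exp_add]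
      congr 2
      ring
    rw [e, integral_const_mul, hgap ξ hξ.1.le hξ.2, mul_zero]
  have hinner : ∀ t : ℝ, ∫ ξ in Ioo (0 : ℝ) c, ρ t * cexp (2 * π * ξ * (z - t) * I)
      = (2 * π * I)⁻¹ * (ρ t / (t - z) - cexp (2 * π * c * z * I) * (ρ t * cexp (-(2 * π * c * t) * I) / (t - z))) := by
    intro t
    rw [← integral_Ioc_eq_integral_Ioo, ← intervalIntegral.integral_of_le hc,
      intervalIntegral.integral_const_mul]
    have hne : 2 * π * I * (z - t) ≠ 0 := by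
      apply mul_ne_zero
      · simp [Real.pi_ne_zero]
      · rw [← neg_ne_zero, neg_sub]
        exact sub_ne_zero' hz t
    have e : (fun ξ : ℝ => cexp (2 * π * ξ * (z - t) * I)) = fun ξ : ℝ => cexp ((2 * π * I * (z - t)) * ξ) := by
      ext ξ
      congr 1
      ring
    rw [e, integral_exp_mul_complex hne]
    have e2 : cexp (2 * π * I * (z - t) * c) = cexp (2 * π * c * z * I) * cexp (-(2 * π * c * t) * I) := by
      rw [← Complex.exp_add]
      congr 1
      ring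
    rw [e2, ofReal_zero, mul_zero, Complex.exp_zero]
    have h3 := sub_ne_zero' hz t
    have h4 : z - t ≠ 0 := by
      rw [← neg_ne_zero, neg_sub]; exact h3
    have h5 : (2 * π * I : ℂ) ≠ 0 := by simp [Real.pi_ne_zero]
    have h6 : z - (t : ℂ) = -((t : ℂ) - z) := by ring
    rw [h6] at hne ⊢
    field_simp
    ring
  have hρc : Integrable fun t : ℝ => ρ t * cexp (-(2 * π * c * t) * I) := by
    apply hρ.mul_bdd (c := 1)
    · apply Continuous.aestronglyMeasurable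
      fun_prop
    · apply ae_of_all
      intro t
      rw [Complex.norm_exp]
      simp
  have hfin : ∫ t : ℝ, ∫ ξ in Ioo (0 : ℝ) c, ρ t * cexp (2 * π * ξ * (z - t) * I)
      = CT ρ z - cexp (2 * π * c * z * I) * CT (fun t => ρ t * cexp (-(2 * π * c * t) * I)) z := by
    simp only [hinner]
    rw [integral_const_mul, integral_sub (integrable_div hρ hz) ((integrable_div hρc hz).const_mul _),
      integral_const_mul]
    unfold CT
    ring
  rw [hswap, hzero] at hfin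
  exact (sub_eq_zero.mp hfin.symm)

lemma norm_CT_gap_le {ρ : ℝ → ℂ} (hρ : Integrable ρ) {c : ℝ} (hc : 0 ≤ c)
    (hgap : ∀ ξ : ℝ, 0 ≤ ξ → ξ < c → ∫ t : ℝ, ρ t * cexp (-(2 * π * ξ * t) * I) = 0) {z : ℂ}
    (hz : 0 < z.im) :
    ‖CT ρ z‖ ≤ Real.exp (-(2 * π * c * z.im)) * ((2 * π * z.im)⁻¹ * ∫ t : ℝ, ‖ρ t‖) := by
  rw [CT_gap hρ hc hgap hz, norm_mul]
  apply mul_le_mul _ _ (norm_nonneg _) (Real.exp_nonneg _)
  · rw [Complex.norm_exp]
    apply le_of_eq
    congr 1
    simp [Complex.mul_re, Complex.mul_im]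
  · have hρc : Integrable fun t : ℝ => ρ t * cexp (-(2 * π * c * t) * I) := by
      apply hρ.mul_bdd (c := 1)
      · apply Continuous.aestronglyMeasurable
        fun_prop
      · apply ae_of_all
        intro t
        rw [Complex.norm_exp]
        simp
    refine (norm_CT_le hρc hz).trans (le_of_eq ?_)
    congr 2
    ext t
    rw [norm_mul, Complex.norm_exp]
    simp

end Pool.Agent.H4
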