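import Mathlib
import Pool.Agent.H4.Cauchy

open Complex MeasureTheory Set Filter Topology
open scoped Real

namespace Pool.Agent.H4

lemma two_re_CT {σ : ℝ → ℝ} (hσ : Integrable σ) {z : ℂ} (hz : 0 < z.im) :
    2 * (CT (fun t => (σ t : ℂ)) z).re = ∫ t : ℝ, (π⁻¹ * z.im * (‖(t : ℂ) - z‖ ^ 2)⁻¹) * σ t := by
  unfold CT
  have hint : Integrable (fun t : ℝ => (σ t : ℂ) / (t - z)) := integrable_div hσ.ofReal hz
  have h1 : ((2 * (π : ℂ) * I)⁻¹ * ∫ t : ℝ, (σ t : ℂ) / (t - z)).re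
      = (2 * π)⁻¹ * (∫ t : ℝ, (σ t : ℂ) / (t - z)).im := by
    have e : (2 * (π : ℂ) * I)⁻¹ = ((-(2 * π)⁻¹ : ℝ) : ℂ) * I := by
      push_cast
      rw [mul_inv, inv_I]
      ring
    rw [e, mul_assoc, Complex.re_ofReal_mul, Complex.I_mul_re]
    ring
  rw [h1]
  have h2 : (∫ t : ℝ, (σ t : ℂ) / (t - z)).im = ∫ t : ℝ, ((σ t : ℂ) / (t - z)).im := by
    have := (integral_im hint)
    exact this.symm
  rw [h2, ← mul_assoc, ← integral_const_mul]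
  congr 1
  ext t
  rw [Complex.div_im, ← Complex.sq_norm]
  simp
  ring

lemma poisson_mass {z : ℂ} (hz : 0 < z.im) :
    Integrable (fun t : ℝ => π⁻¹ * z.im * (‖(t : ℂ) - z‖ ^ 2)⁻¹) ∧
    ∫ t : ℝ, π⁻¹ * z.im * (‖(t : ℂ) - z‖ ^ 2)⁻¹ = 1 := by
  obtain ⟨h1, h2⟩ := integrable_inv_norm_sq hz
  refine ⟨h1.const_mul _, ?_⟩
  rw [integral_const_mul, h2]
  have := Real.pi_ne_zero
  field_simp

lemma abs_two_re_CT_le {σ : ℝ → ℝ} (hσ : Integrable σ) {B : ℝ} (hB : ∀ t, |σ t| ≤ B) {z : ℂ}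
    (hz : 0 < z.im) : |2 * (CT (fun t => (σ t : ℂ)) z).re| ≤ B := by
  rw [two_re_CT hσ hz]
  obtain ⟨h1, h2⟩ := poisson_mass hz
  calc |∫ t : ℝ, (π⁻¹ * z.im * (‖(t : ℂ) - z‖ ^ 2)⁻¹) * σ t|
      ≤ ∫ t : ℝ, |(π⁻¹ * z.im * (‖(t : ℂ) - z‖ ^ 2)⁻¹) * σ t| := abs_integral_le_integral_abs
    _ ≤ ∫ t : ℝ, (π⁻¹ * z.im * (‖(t : ℂ) - z‖ ^ 2)⁻¹) * B := by
        apply integral_mono_of_nonneg (ae_of_all _ fun t => abs_nonneg _) (h1.mul_const _)
        apply ae_of_all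
        intro t
        simp only
        have h3 : 0 ≤ π⁻¹ * z.im * (‖(t : ℂ) - z‖ ^ 2)⁻¹ := by positivity
        rw [abs_mul, abs_of_nonneg h3]
        exact mul_le_mul_of_nonneg_left (hB t) h3
    _ = B := by rw [integral_mul_const, h2, one_mul]

/-- The boundary values of twice the real part. -/
lemma tendsto_two_re_CT {σ : ℝ → ℝ} (hσ : Integrable σ) {x : ℝ} (hx : ContinuousAt σ x) :
    Tendsto (fun ε : ℝ => 2 * (CT (fun t => (σ t : ℂ)) (x + ε * I)).re) (𝓝[>] 0) (𝓝 (σ x)) := by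
  have hφ1 : ∫ x : ℝ, π⁻¹ * (1 + x ^ 2)⁻¹ = 1 := by
    rw [integral_const_mul, integral_univ_inv_one_add_sq]
    exact inv_mul_cancel₀ Real.pi_ne_zero
  have key := tendsto_integral_comp_smul_smul_of_integrable' (F := ℝ) (μ := volume)
    (φ := fun x : ℝ => π⁻¹ * (1 + x ^ 2)⁻¹) (fun x => by positivity) hφ1
    (by
      simp only [Module.finrank_self, pow_one]
      have h1 : Tendsto (fun x : ℝ => π⁻¹ * ‖x‖⁻¹) (Bornology.cobounded ℝ) (𝓝 (π⁻¹ * 0)) :=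
        (tendsto_inv_atTop_zero.comp tendsto_norm_cobounded_atTop).const_mul _
      rw [mul_zero] at h1
      refine squeeze_zero' (Eventually.of_forall fun x => by positivity) ?_ h1
      have h2 : ∀ᶠ x : ℝ in Bornology.cobounded ℝ, 0 < ‖x‖ := by
        exact tendsto_norm_cobounded_atTop.eventually (eventually_gt_atTop 0)
      filter_upwards [h2] with x hx
      have h3 : (1 + x ^ 2)⁻¹ ≤ (‖x‖ ^ 2)⁻¹ := by
        apply inv_anti₀ (by positivity)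
        rw [Real.norm_eq_abs, sq_abs]
        linarith
      calc ‖x‖ * (π⁻¹ * (1 + x ^ 2)⁻¹) ≤ ‖x‖ * (π⁻¹ * (‖x‖ ^ 2)⁻¹) := by gcongr
        _ = π⁻¹ * ‖x‖⁻¹ := by field_simp) hσ hx
  have hinv : Tendsto (fun ε : ℝ => ε⁻¹) (𝓝[>] 0) atTop := tendsto_inv_nhdsGT_zero
  have k2 := key.comp hinv
  refine k2.congr' ?_
  filter_upwards [self_mem_nhdsWithin] with ε hε
  have hε' : 0 < ε := hε
  have him : ((x : ℂ) + ε * I).im = ε := by simp
  have hre : ((x : ℂ) + ε * I).re = x := by simp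
  rw [two_re_CT hσ (by rw [him]; exact hε')]
  simp only [Function.comp, Module.finrank_self, pow_one, smul_eq_mul]
  congr 1
  ext t
  rw [norm_sub_sq, him, hre]
  field_simp
  ring

end Pool.Agent.H4
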