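import Mathlib

open Complex MeasureTheory Set Filter Topology
open scoped Real

namespace Pool.Agent.H4

/-- A function analytic in the upper half plane and `O(|z|^(-2))` on `Im z ≥ 1/2` has vanishing
integral along `Im z = 1/2`. -/
lemma tendsto_line_zero {H : ℂ → ℂ} (hH : DifferentiableOn ℂ H {z | 0 < z.im}) {K : ℝ}
    (hK : ∀ z : ℂ, 1 / 2 ≤ z.im → 2 ≤ ‖z‖ → ‖H z‖ ≤ K / ‖z‖ ^ 2) :
    Tendsto (fun R : ℝ => ∫ u in (-R)..R, H (u + (1 / 2 : ℝ) * I)) atTop (𝓝 0) := by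
  have hK0 : 0 ≤ K := by
    have h := (norm_nonneg _).trans (hK (2 * I) (by norm_num) (by simp))
    by_contra hneg
    push Not at hneg
    have : K / ‖(2 * I : ℂ)‖ ^ 2 < 0 := div_neg_of_neg_of_pos hneg (by simp)
    linarith
  have hlim : Tendsto (fun R : ℝ => 4 * K * R⁻¹) atTop (𝓝 0) := by
    simpa using tendsto_inv_atTop_zero.const_mul (4 * K)
  apply squeeze_zero_norm' _ hlim
  filter_upwards [eventually_ge_atTop 2] with R hR
  have hrect := Complex.integral_boundary_rect_eq_zero_of_differentiableOn H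
    (-R + (1 / 2 : ℝ) * I) (R + (R + 1 / 2 : ℝ) * I) ?_
  · simp only [add_re, neg_re, ofReal_re, mul_re, I_re, mul_zero, ofReal_im, I_im, mul_one,
      sub_self, add_zero, add_im, neg_im, neg_zero, mul_im, zero_add] at hrect
    have e : (∫ u in (-R)..R, H (u + (1 / 2 : ℝ) * I))
        = (∫ u in (-R)..R, H (u + (R + 1 / 2 : ℝ) * I))
          - I • (∫ y in (1 / 2 : ℝ)..(R + 1 / 2), H (R + y * I))
          + I • (∫ y in (1 / 2 : ℝ)..(R + 1 / 2), H (((-R : ℝ) : ℂ) + y * I)) := by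
      push_cast at hrect ⊢
      linear_combination hrect
    rw [e]
    have b1 : ‖∫ u in (-R)..R, H (u + (R + 1 / 2 : ℝ) * I)‖ ≤ K / R ^ 2 * |R - (-R)| := by
      apply intervalIntegral.norm_integral_le_of_norm_le_const
      intro u _
      have him : ((u : ℂ) + (R + 1 / 2 : ℝ) * I).im = R + 1 / 2 := by simp
      have hn : R ≤ ‖(u : ℂ) + (R + 1 / 2 : ℝ) * I‖ := by
        have := Complex.abs_im_le_norm ((u : ℂ) + (R + 1 / 2 : ℝ) * I)
        rw [him] at this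
        have h2 := (le_abs_self _).trans this
        linarith
      refine (hK _ (by rw [him]; linarith) (by linarith)).trans ?_
      apply div_le_div_of_nonneg_left hK0 (by positivity)
      exact pow_le_pow_left₀ (by linarith) hn 2
    have b2 : ∀ s : ℝ, |s| = R → ‖∫ y in (1 / 2 : ℝ)..(R + 1 / 2), H ((s : ℂ) + y * I)‖
        ≤ K / R ^ 2 * |R + 1 / 2 - 1 / 2| := by
      intro s hs
      apply intervalIntegral.norm_integral_le_of_norm_le_const
      intro y hy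
      rw [uIoc_of_le (by linarith)] at hy
      have him : ((s : ℂ) + y * I).im = y := by simp
      have hre : ((s : ℂ) + y * I).re = s := by simp
      have hn : R ≤ ‖(s : ℂ) + y * I‖ := by
        have := Complex.abs_re_le_norm ((s : ℂ) + y * I)
        rw [hre, hs] at this
        exact this
      refine (hK _ (by rw [him]; exact hy.1.le) (by linarith)).trans ?_
      apply div_le_div_of_nonneg_left hK0 (by positivity)
      exact pow_le_pow_left₀ (by linarith) hn 2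
    have b2p := b2 R (abs_of_nonneg (by linarith))
    have b2m := b2 (-R) (by rw [abs_neg]; exact abs_of_nonneg (by linarith))
    have hRR : |R - (-R)| = 2 * R := by rw [abs_of_nonneg (by linarith)]; ring
    have hRR2 : |R + 1 / 2 - 1 / 2| = R := by rw [abs_of_nonneg (by linarith)]; ring
    rw [hRR] at b1
    rw [hRR2] at b2p b2m
    calc ‖(∫ u in (-R)..R, H (u + (R + 1 / 2 : ℝ) * I))
          - I • (∫ y in (1 / 2 : ℝ)..(R + 1 / 2), H (R + y * I))
          + I • (∫ y in (1 / 2 : ℝ)..(R + 1 / 2), H (((-R : ℝ) : ℂ) + y * I))‖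
        ≤ K / R ^ 2 * (2 * R) + K / R ^ 2 * R + K / R ^ 2 * R := by
          refine (norm_add_le _ _).trans (add_le_add ((norm_sub_le _ _).trans (add_le_add b1 ?_)) ?_)
          · rw [norm_smul, norm_I, one_mul]; exact b2p
          · rw [norm_smul, norm_I, one_mul]; exact b2m
      _ = 4 * K * R⁻¹ := by
          have : R ≠ 0 := by linarith
          field_simp
          ring
  · apply hH.mono
    intro z hz
    rw [mem_reProdIm] at hz
    have h2 := hz.2
    simp only [add_im, neg_im, ofReal_im, neg_zero, mul_im, ofReal_re, I_im, mul_one, I_re, mul_zero,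
      add_zero, zero_add] at h2
    rw [uIcc_of_le (by linarith)] at h2
    simp only [mem_ofPred_eq]
    linarith [h2.1]

lemma norm_kernel_ge (u : ℝ) : u ^ 2 + 1 / 4 ≤ ‖((u : ℂ) + (1 / 2 : ℝ) * I) ^ 2 + 1‖ := by
  have e : ((u : ℂ) + (1 / 2 : ℝ) * I) ^ 2 + 1 = (u - (1 / 2 : ℝ) * I) * (u + (3 / 2 : ℝ) * I) := by
    push_cast
    ring_nf
    rw [I_sq]
    ring
  rw [e, norm_mul]
  have h1 : ‖(u : ℂ) - (1 / 2 : ℝ) * I‖ = Real.sqrt (u ^ 2 + 1 / 4) := by
    rw [Complex.norm_def, Complex.normSq_apply]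
    congr 1
    simp
    ring
  have h2 : ‖(u : ℂ) + (3 / 2 : ℝ) * I‖ = Real.sqrt (u ^ 2 + 9 / 4) := by
    rw [Complex.norm_def, Complex.normSq_apply]
    congr 1
    simp
    ring
  rw [h1, h2]
  have h3 : Real.sqrt (u ^ 2 + 1 / 4) ≤ Real.sqrt (u ^ 2 + 9 / 4) := Real.sqrt_le_sqrt (by linarith)
  have h4 : Real.sqrt (u ^ 2 + 1 / 4) * Real.sqrt (u ^ 2 + 1 / 4) = u ^ 2 + 1 / 4 :=
    Real.mul_self_sqrt (by positivity)
  nlinarith [Real.sqrt_nonneg (u ^ 2 + 1 / 4)]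

lemma kernel_ne_zero (u : ℝ) : ((u : ℂ) + (1 / 2 : ℝ) * I) ^ 2 + 1 ≠ 0 := by
  intro h
  have := norm_kernel_ge u
  rw [h, norm_zero] at this
  nlinarith [sq_nonneg u]

lemma norm_inv_kernel_le (u : ℝ) : ‖(((u : ℂ) + (1 / 2 : ℝ) * I) ^ 2 + 1)⁻¹‖ ≤ 4 * (1 + u ^ 2)⁻¹ := by
  rw [norm_inv]
  calc ‖((u : ℂ) + (1 / 2 : ℝ) * I) ^ 2 + 1‖⁻¹ ≤ (u ^ 2 + 1 / 4)⁻¹ :=
        inv_anti₀ (by positivity) (norm_kernel_ge u)
    _ ≤ 4 * (1 + u ^ 2)⁻¹ := by
        rw [inv_eq_one_div, div_le_iff₀ (by positivity), ← div_eq_mul_inv, div_mul_eq_mul_div,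
          le_div_iff₀ (by positivity)]
        nlinarith [sq_nonneg u]

lemma continuous_line {G : ℂ → ℂ} (hG : DifferentiableOn ℂ G {z | 0 < z.im}) {y : ℝ} (hy : 0 < y) :
    Continuous fun u : ℝ => G (u + y * I) := by
  have h : Continuous fun u : ℝ => (u : ℂ) + y * I := by fun_prop
  exact hG.continuousOn.comp_continuous h (fun u => by simp [hy])

lemma integrable_kernel_mul {G : ℂ → ℂ} (hG : DifferentiableOn ℂ G {z | 0 < z.im}) {C : ℝ}
    (hC : ∀ u : ℝ, ‖G (u + (1 / 2 : ℝ) * I)‖ ≤ C) :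
    Integrable fun u : ℝ => G (u + (1 / 2 : ℝ) * I) * (((u : ℂ) + (1 / 2 : ℝ) * I) ^ 2 + 1)⁻¹ := by
  apply Integrable.mono' (g := fun u : ℝ => C * (4 * (1 + u ^ 2)⁻¹))
  · exact (integrable_inv_one_add_sq.const_mul 4).const_mul C
  · apply Continuous.aestronglyMeasurable
    apply (continuous_line hG (by norm_num)).mul
    apply Continuous.inv₀ (by fun_prop) kernel_ne_zero
  · apply ae_of_all
    intro u
    rw [norm_mul]
    have hC0 : 0 ≤ C := (norm_nonneg _).trans (hC u)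
    exact mul_le_mul (hC u) (norm_inv_kernel_le u) (norm_nonneg _) hC0

/-- The total mass of the kernel on the shifted line. -/
lemma integral_kernel :
    ∫ u : ℝ, (((u : ℂ) + (1 / 2 : ℝ) * I) ^ 2 + 1)⁻¹ = (π : ℂ) := by
  have hint : Integrable fun u : ℝ => (((u : ℂ) + (1 / 2 : ℝ) * I) ^ 2 + 1)⁻¹ := by
    have := integrable_kernel_mul (G := fun _ => 1) (differentiableOn_const 1) (C := 1) (by simp)
    simpa using this
  have hden : ∀ u : ℝ, Complex.normSq (((u : ℂ) + (1 / 2 : ℝ) * I) ^ 2 + 1) = (u ^ 2 + 1 / 4) * (u ^ 2 + 9 / 4) := by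
    intro u
    rw [Complex.normSq_apply]
    have h1 : ((((u : ℂ) + (1 / 2 : ℝ) * I) ^ 2 + 1)).re = u ^ 2 + 3 / 4 := by
      simp [pow_two]
      ring
    have h2 : ((((u : ℂ) + (1 / 2 : ℝ) * I) ^ 2 + 1)).im = u := by
      simp [pow_two]
      ring
    rw [h1, h2]
    ring
  apply Complex.ext
  · have h1 : (∫ u : ℝ, (((u : ℂ) + (1 / 2 : ℝ) * I) ^ 2 + 1)⁻¹).re
        = ∫ u : ℝ, ((((u : ℂ) + (1 / 2 : ℝ) * I) ^ 2 + 1)⁻¹).re := (integral_re hint).symm
    rw [h1, ofReal_re]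
    have e : (fun u : ℝ => ((((u : ℂ) + (1 / 2 : ℝ) * I) ^ 2 + 1)⁻¹).re)
        = fun u : ℝ => (1 + (u / (1 / 2)) ^ 2)⁻¹ + (1 / 3) * (1 + (u / (3 / 2)) ^ 2)⁻¹ := by
      ext u
      rw [Complex.inv_re, hden]
      have h1 : ((((u : ℂ) + (1 / 2 : ℝ) * I) ^ 2 + 1)).re = u ^ 2 + 3 / 4 := by
        simp [pow_two]
        ring
      rw [h1]
      have h3 : u ^ 2 + 1 / 4 ≠ 0 := by positivity
      have h4 : u ^ 2 + 9 / 4 ≠ 0 := by positivity
      have h5 : 1 + (u / (1 / 2)) ^ 2 = 4 * (u ^ 2 + 1 / 4) := by ring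
      have h6 : 1 + (u / (3 / 2)) ^ 2 = (4 / 9) * (u ^ 2 + 9 / 4) := by ring
      rw [h5, h6]
      field_simp
      ring
    rw [e]
    have i1 : Integrable fun u : ℝ => (1 + (u / (1 / 2)) ^ 2)⁻¹ :=
      integrable_inv_one_add_sq.comp_div (by norm_num : (1 / 2 : ℝ) ≠ 0)
    have i2 : Integrable fun u : ℝ => (1 + (u / (3 / 2)) ^ 2)⁻¹ :=
      integrable_inv_one_add_sq.comp_div (by norm_num : (3 / 2 : ℝ) ≠ 0)
    rw [integral_add i1 (i2.const_mul _), integral_const_mul,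
      MeasureTheory.Measure.integral_comp_div (fun t : ℝ => (1 + t ^ 2)⁻¹) (1 / 2),
      MeasureTheory.Measure.integral_comp_div (fun t : ℝ => (1 + t ^ 2)⁻¹) (3 / 2),
      integral_univ_inv_one_add_sq, smul_eq_mul, smul_eq_mul, abs_of_pos (by norm_num : (0:ℝ) < 1 / 2),
      abs_of_pos (by norm_num : (0:ℝ) < 3 / 2)]
    ring
  · have h1 : (∫ u : ℝ, (((u : ℂ) + (1 / 2 : ℝ) * I) ^ 2 + 1)⁻¹).im
        = ∫ u : ℝ, ((((u : ℂ) + (1 / 2 : ℝ) * I) ^ 2 + 1)⁻¹).im := (integral_im hint).symm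
    rw [h1, ofReal_im]
    have hodd : ∀ u : ℝ, ((((u : ℂ) + (1 / 2 : ℝ) * I) ^ 2 + 1)⁻¹).im = - u / ((u ^ 2 + 1 / 4) * (u ^ 2 + 9 / 4)) := by
      intro u
      rw [Complex.inv_im, hden]
      have h2 : ((((u : ℂ) + (1 / 2 : ℝ) * I) ^ 2 + 1)).im = u := by
        simp [pow_two]
        ring
      rw [h2]
    have h3 : ∫ u : ℝ, ((((u : ℂ) + (1 / 2 : ℝ) * I) ^ 2 + 1)⁻¹).im
        = ∫ u : ℝ, ((((((-u : ℝ)) : ℂ) + (1 / 2 : ℝ) * I) ^ 2 + 1)⁻¹).im :=
      (integral_neg_eq_self (fun u : ℝ => ((((u : ℂ) + (1 / 2 : ℝ) * I) ^ 2 + 1)⁻¹).im) volume).symm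
    have h4 : ∫ u : ℝ, ((((((-u : ℝ)) : ℂ) + (1 / 2 : ℝ) * I) ^ 2 + 1)⁻¹).im
        = - ∫ u : ℝ, ((((u : ℂ) + (1 / 2 : ℝ) * I) ^ 2 + 1)⁻¹).im := by
      rw [← integral_neg]
      congr 1
      ext u
      rw [hodd, hodd]
      ring
    linarith

/-- Poisson type formula for bounded analytic functions in the upper half plane. -/
theorem half_plane_formula {G : ℂ → ℂ} (hG : DifferentiableOn ℂ G {z | 0 < z.im}) {C : ℝ}
    (hC : ∀ z : ℂ, 1 / 2 ≤ z.im → ‖G z‖ ≤ C) :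
    ∫ u : ℝ, G (u + (1 / 2 : ℝ) * I) * (((u : ℂ) + (1 / 2 : ℝ) * I) ^ 2 + 1)⁻¹ = π * G I := by
  have hCl : ∀ u : ℝ, ‖G (u + (1 / 2 : ℝ) * I)‖ ≤ C := fun u => hC _ (by simp)
  have hC0 : 0 ≤ C := (norm_nonneg _).trans (hCl 0)
  have hopen : IsOpen {z : ℂ | 0 < z.im} := isOpen_lt continuous_const Complex.continuous_im
  have hI : {z : ℂ | 0 < z.im} ∈ 𝓝 I := hopen.mem_nhds (by simp)
  set H : ℂ → ℂ := fun z => dslope G I z * (z + I)⁻¹ with hHdef
  have hne : ∀ z : ℂ, 0 < z.im → z + I ≠ 0 := by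
    intro z hz h
    have : (z + I).im = z.im + 1 := by simp
    rw [h] at this
    simp at this
    linarith
  have hH : DifferentiableOn ℂ H {z | 0 < z.im} := by
    apply DifferentiableOn.mul
    · exact (Complex.differentiableOn_dslope hI).mpr hG
    · apply DifferentiableOn.inv (by fun_prop)
      exact fun z hz => hne z hz
  have hHeq : ∀ z : ℂ, 0 < z.im → z ≠ I → H z = (G z - G I) * (z ^ 2 + 1)⁻¹ := by
    intro z hz hzI
    simp only [hHdef]
    rw [dslope_of_ne _ hzI, slope_def_field, div_eq_mul_inv, mul_assoc, ← mul_inv]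
    congr 2
    ring_nf
    rw [I_sq]
    ring
  have hlim := tendsto_line_zero hH (K := 8 * C) (by
    intro z hz hz2
    have hz0 : 0 < z.im := by linarith
    have hzI : z ≠ I := by
      intro h
      rw [h, norm_I] at hz2
      norm_num at hz2
    rw [hHeq z hz0 hzI, norm_mul, norm_inv]
    have h1 : ‖G z - G I‖ ≤ 2 * C := by
      refine (norm_sub_le _ _).trans ?_
      have := hC z hz
      have := hC I (by simp; norm_num)
      linarith
    have h2 : ‖z‖ ^ 2 / 4 ≤ ‖z ^ 2 + 1‖ := by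
      have h3 := norm_sub_norm_le (z ^ 2) (-1)
      rw [norm_pow, norm_neg, norm_one, sub_neg_eq_add] at h3
      nlinarith
    have h4 : 0 < ‖z‖ ^ 2 / 4 := by positivity
    calc ‖G z - G I‖ * ‖z ^ 2 + 1‖⁻¹ ≤ (2 * C) * (‖z‖ ^ 2 / 4)⁻¹ := by
          apply mul_le_mul h1 (inv_anti₀ h4 h2) (by positivity) (by positivity)
      _ = 8 * C / ‖z‖ ^ 2 := by
          rw [inv_div]
          ring)
  have hintG := integrable_kernel_mul hG hCl
  have hintc := integrable_kernel_mul (G := fun _ => G I) (differentiableOn_const _) (C := ‖G I‖) (fun _ => le_rfl)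
  have hHline : ∀ u : ℝ, H (u + (1 / 2 : ℝ) * I)
      = G (u + (1 / 2 : ℝ) * I) * (((u : ℂ) + (1 / 2 : ℝ) * I) ^ 2 + 1)⁻¹
        - G I * (((u : ℂ) + (1 / 2 : ℝ) * I) ^ 2 + 1)⁻¹ := by
    intro u
    rw [hHeq _ (by simp) (by
      intro h
      have := congrArg Complex.im h
      simp at this)]
    ring
  have hintH : Integrable fun u : ℝ => H (u + (1 / 2 : ℝ) * I) := by
    have : (fun u : ℝ => H (u + (1 / 2 : ℝ) * I)) = _ := funext hHline
    rw [this]
    exact hintG.sub hintc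
  have hlim2 := intervalIntegral_tendsto_integral hintH tendsto_neg_atTop_atBot tendsto_id
  have h0 : ∫ u : ℝ, H (u + (1 / 2 : ℝ) * I) = 0 := tendsto_nhds_unique hlim2 hlim
  simp only [hHline] at h0
  rw [integral_sub hintG hintc, integral_const_mul, integral_kernel] at h0
  rw [sub_eq_zero.mp h0]
  ring

end Pool.Agent.H4
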