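import Mathlib
import Pool.Agent.H4.Cauchy2
import Pool.Agent.H4.HalfPlane

open Complex MeasureTheory Set Filter Topology
open scoped Real

namespace Pool.Agent.H4

lemma countable_disc_shift {σ : ℝ → ℝ} (h : {t | ¬ContinuousAt σ t}.Countable) (x : ℝ) :
    ∀ᵐ t : ℝ, ContinuousAt σ (x + t) := by
  have h1 : {t : ℝ | ¬ContinuousAt σ (x + t)}.Countable :=
    h.preimage_of_injOn (f := fun t => x + t) (fun a _ b _ hab => by simpa using hab)
  have := h1.measure_zero volume
  rw [ae_iff]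
  exact this

/-- Boundary values against a function which is real on the real axis. -/
lemma bottom_limit {σ : ℝ → ℝ} (hσ : Integrable σ) {B : ℝ} (hB : ∀ t, |σ t| ≤ B)
    (hc : {t | ¬ContinuousAt σ t}.Countable) {x r : ℝ} (hr : 0 ≤ r) {g : ℂ → ℂ}
    (hgc : ContinuousOn g {u | 0 ≤ u.im ∧ |u.re| ≤ r ∧ u.im ≤ 1 / 2}) {L : ℝ}
    (hg : ∀ t : ℝ, |t| ≤ r → ∀ ε : ℝ, 0 < ε → ε ≤ 1 / 2 → ‖g (t + ε * I) - g t‖ ≤ L * ε)
    (hgr : ∀ t : ℝ, |t| ≤ r → (g t).im = 0) :
    Tendsto (fun ε : ℝ => 2 * (∫ t in (-r)..r, CT (fun t => (σ t : ℂ)) (x + t + ε * I) * g (t + ε * I)).re)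
      (𝓝[>] 0) (𝓝 (∫ t in (-r)..r, σ (x + t) * (g t).re)) := by
  set S := CT (fun t => (σ t : ℂ)) with hS
  have hσc : Integrable (fun t => (σ t : ℂ)) := hσ.ofReal
  have hB0 : 0 ≤ B := (abs_nonneg _).trans (hB 0)
  have hL0 : 0 ≤ L := by
    have := (norm_nonneg _).trans (hg 0 (by simpa using hr) (1 / 2) (by norm_num) le_rfl)
    linarith
  -- a bound for g
  have hcomp : IsCompact {u : ℂ | 0 ≤ u.im ∧ |u.re| ≤ r ∧ u.im ≤ 1 / 2} := by
    have : {u : ℂ | 0 ≤ u.im ∧ |u.re| ≤ r ∧ u.im ≤ 1 / 2} = (Icc (-r) r) ×ℂ (Icc 0 (1 / 2)) := by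
      ext u
      simp only [mem_ofPred_eq, mem_reProdIm, mem_Icc, abs_le]
      tauto
    rw [this]
    exact isCompact_Icc.reProdIm isCompact_Icc
  obtain ⟨Mg, hMg⟩ := hcomp.exists_bound_of_continuousOn hgc
  have hMg0 : 0 ≤ Mg := (norm_nonneg _).trans (hMg 0 (by simp [hr]))
  obtain ⟨A, hA⟩ : ∃ A : ℝ, A = (2 * π)⁻¹ * ((B * ∫ t : ℝ, ‖(σ t : ℂ)‖) + π) / 2 := ⟨_, rfl⟩
  have hSA : ∀ z : ℂ, 0 < z.im → ‖S z‖ ≤ A * (Real.sqrt z.im)⁻¹ := by
    intro z hz
    rw [hA]
    exact norm_CT_le_sqrt hσc (by intro t; simpa using hB t) hz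
  have hA0 : 0 ≤ A := by
    have := (norm_nonneg _).trans (hSA I (by simp))
    simpa using this
  have hSd : DifferentiableOn ℂ S {z | 0 < z.im} := differentiableOn_CT hσc
  have hSc : ∀ ε : ℝ, 0 < ε → Continuous fun t : ℝ => S (x + t + ε * I) := by
    intro ε hε
    have h : Continuous fun t : ℝ => (x : ℂ) + t + ε * I := by fun_prop
    exact hSd.continuousOn.comp_continuous h (fun u => by simp [hε])
  have hgcε : ∀ ε : ℝ, 0 ≤ ε → ε ≤ 1 / 2 → ContinuousOn (fun t : ℝ => g (t + ε * I)) (Icc (-r) r) := by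
    intro ε hε hε'
    apply hgc.comp (by fun_prop)
    intro t ht
    simp only [mem_ofPred_eq, add_im, ofReal_im, mul_im, ofReal_re, I_im, mul_one, I_re, mul_zero,
      add_zero, zero_add, add_re, mul_re, sub_self]
    exact ⟨hε, abs_le.mpr ht, hε'⟩
  have hmemI : ∀ᶠ ε : ℝ in 𝓝[>] 0, 0 < ε ∧ ε ≤ 1 / 2 := by
    have : Ioc (0 : ℝ) (1 / 2) ∈ 𝓝[>] (0 : ℝ) := Ioc_mem_nhdsGT (by norm_num)
    filter_upwards [this] with ε hε using hε
  have hrr : -r ≤ r := by linarith
  have hcongr : ∀ᶠ ε : ℝ in 𝓝[>] 0,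
      (∫ t in (-r)..r, 2 * (S (x + t + ε * I) * g (t + ε * I)).re)
      = 2 * (∫ t in (-r)..r, S (x + t + ε * I) * g (t + ε * I)).re := by
    filter_upwards [hmemI] with ε hε
    rw [intervalIntegral.integral_const_mul]
    congr 1
    have hi : IntervalIntegrable (fun t : ℝ => S (x + t + ε * I) * g (t + ε * I)) volume (-r) r := by
      apply ContinuousOn.intervalIntegrable
      rw [uIcc_of_le hrr]
      exact (hSc ε hε.1).continuousOn.mul (hgcε ε hε.1.le hε.2)
    have := Complex.reCLM.intervalIntegral_comp_comm hi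
    simpa using this
  refine Tendsto.congr' hcongr ?_
  apply intervalIntegral.tendsto_integral_filter_of_dominated_convergence (fun _ => B * Mg + 2 * A * L)
  · filter_upwards [hmemI] with ε hε
    apply ContinuousOn.aestronglyMeasurable _ measurableSet_uIoc
    have : ContinuousOn (fun t : ℝ => S (x + t + ε * I) * g (t + ε * I)) (Icc (-r) r) :=
      (hSc ε hε.1).continuousOn.mul (hgcε ε hε.1.le hε.2)
    rw [uIoc_of_le hrr]
    exact ((Complex.continuous_re.comp_continuousOn this).const_smul (2 : ℝ)).mono Ioc_subset_Icc_self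
  · filter_upwards [hmemI] with ε hε
    apply ae_of_all
    intro t ht
    rw [uIoc_of_le hrr] at ht
    have htr : |t| ≤ r := abs_le.mpr ⟨ht.1.le, ht.2⟩
    have him : ((x : ℂ) + t + ε * I).im = ε := by simp
    have hz : 0 < ((x : ℂ) + t + ε * I).im := by rw [him]; exact hε.1
    have h1 : |2 * (S (x + t + ε * I)).re| ≤ B := abs_two_re_CT_le hσ hB hz
    have h2 : |(g (t + ε * I)).re| ≤ Mg := by
      refine (Complex.abs_re_le_norm _).trans (hMg _ ?_)
      simp only [mem_ofPred_eq, add_im, ofReal_im, mul_im, ofReal_re, I_im, mul_one, I_re, mul_zero,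
        add_zero, zero_add, add_re, mul_re, sub_self]
      exact ⟨hε.1.le, htr, hε.2⟩
    have h3 : |(S (x + t + ε * I)).im| ≤ A * (Real.sqrt ε)⁻¹ := by
      refine (Complex.abs_im_le_norm _).trans ?_
      have := hSA _ hz
      rwa [him] at this
    have h4 : |(g (t + ε * I)).im| ≤ L * ε := by
      have h5 := hg t htr ε hε.1 hε.2
      have h6 := (Complex.abs_im_le_norm (g (t + ε * I) - g t)).trans h5
      rw [sub_im, hgr t htr, sub_zero] at h6
      exact h6
    rw [Real.norm_eq_abs, mul_re]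
    have h7 : 2 * ((S (x + t + ε * I)).re * (g (t + ε * I)).re - (S (x + t + ε * I)).im * (g (t + ε * I)).im)
      = 2 * (S (x + t + ε * I)).re * (g (t + ε * I)).re - 2 * ((S (x + t + ε * I)).im * (g (t + ε * I)).im) := by ring
    rw [h7]
    refine (abs_sub _ _).trans (add_le_add ?_ ?_)
    · rw [abs_mul]
      exact mul_le_mul h1 h2 (abs_nonneg _) hB0
    · rw [abs_mul, abs_mul, abs_of_pos (by norm_num : (0:ℝ) < 2)]
      have h8 : |(S (x + t + ε * I)).im| * |(g (t + ε * I)).im| ≤ (A * (Real.sqrt ε)⁻¹) * (L * ε) :=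
        mul_le_mul h3 h4 (abs_nonneg _) (by positivity)
      have h9 : (Real.sqrt ε)⁻¹ * ε ≤ 1 := by
        have hs : 0 < Real.sqrt ε := Real.sqrt_pos.mpr hε.1
        have hss : Real.sqrt ε * Real.sqrt ε = ε := Real.mul_self_sqrt hε.1.le
        have hs1 : Real.sqrt ε ≤ 1 := by
          rw [Real.sqrt_le_iff]
          exact ⟨zero_le_one, by linarith [hε.2]⟩
        calc (Real.sqrt ε)⁻¹ * ε = (Real.sqrt ε)⁻¹ * (Real.sqrt ε * Real.sqrt ε) := by rw [hss]
          _ = Real.sqrt ε := by field_simp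
          _ ≤ 1 := hs1
      calc 2 * (|(S (x + t + ε * I)).im| * |(g (t + ε * I)).im|) ≤ 2 * ((A * (Real.sqrt ε)⁻¹) * (L * ε)) := by
            linarith
        _ = 2 * A * L * ((Real.sqrt ε)⁻¹ * ε) := by ring
        _ ≤ 2 * A * L * 1 := mul_le_mul_of_nonneg_left h9 (by positivity)
        _ = 2 * A * L := mul_one _
  · exact intervalIntegrable_const
  · filter_upwards [countable_disc_shift hc x] with t ht
    intro htI
    rw [uIoc_of_le hrr] at htI
    have htr : |t| ≤ r := abs_le.mpr ⟨htI.1.le, htI.2⟩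
    have h1 : Tendsto (fun ε : ℝ => 2 * (S (x + t + ε * I)).re) (𝓝[>] 0) (𝓝 (σ (x + t))) := by
      have := tendsto_two_re_CT hσ ht
      simpa using this
    have h2 : Tendsto (fun ε : ℝ => g (t + ε * I)) (𝓝[>] 0) (𝓝 (g t)) := by
      rw [tendsto_iff_norm_sub_tendsto_zero]
      have hz : Tendsto (fun ε : ℝ => L * ε) (𝓝[>] 0) (𝓝 0) := by
        have : Tendsto (fun ε : ℝ => L * ε) (𝓝 0) (𝓝 (L * 0)) := tendsto_id.const_mul L
        rw [mul_zero] at this
        exact this.mono_left nhdsWithin_le_nhds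
      apply squeeze_zero' (Eventually.of_forall fun _ => norm_nonneg _) _ hz
      filter_upwards [hmemI] with ε hε using hg t htr ε hε.1 hε.2
    have h3 : Tendsto (fun ε : ℝ => (g (t + ε * I)).re) (𝓝[>] 0) (𝓝 (g t).re) :=
      (Complex.continuous_re.tendsto _).comp h2
    have h4 : Tendsto (fun ε : ℝ => (S (x + t + ε * I)).im * (g (t + ε * I)).im) (𝓝[>] 0) (𝓝 0) := by
      have hz : Tendsto (fun ε : ℝ => A * L * Real.sqrt ε) (𝓝[>] 0) (𝓝 0) := by
        have : Tendsto (fun ε : ℝ => A * L * Real.sqrt ε) (𝓝 0) (𝓝 (A * L * Real.sqrt 0)) :=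
          (Real.continuous_sqrt.tendsto 0).const_mul (A * L)
        rw [Real.sqrt_zero, mul_zero] at this
        exact this.mono_left nhdsWithin_le_nhds
      apply squeeze_zero_norm' _ hz
      filter_upwards [hmemI] with ε hε
      have him : ((x : ℂ) + t + ε * I).im = ε := by simp
      have hz : 0 < ((x : ℂ) + t + ε * I).im := by rw [him]; exact hε.1
      have h3 : |(S (x + t + ε * I)).im| ≤ A * (Real.sqrt ε)⁻¹ := by
        refine (Complex.abs_im_le_norm _).trans ?_
        have := hSA _ hz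
        rwa [him] at this
      have h4 : |(g (t + ε * I)).im| ≤ L * ε := by
        have h5 := hg t htr ε hε.1 hε.2
        have h6 := (Complex.abs_im_le_norm (g (t + ε * I) - g t)).trans h5
        rw [sub_im, hgr t htr, sub_zero] at h6
        exact h6
      rw [norm_mul, Real.norm_eq_abs, Real.norm_eq_abs]
      have hs : 0 < Real.sqrt ε := Real.sqrt_pos.mpr hε.1
      have hss : Real.sqrt ε * Real.sqrt ε = ε := Real.mul_self_sqrt hε.1.le
      calc |(S (x + t + ε * I)).im| * |(g (t + ε * I)).im| ≤ (A * (Real.sqrt ε)⁻¹) * (L * ε) :=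
            mul_le_mul h3 h4 (abs_nonneg _) (by positivity)
        _ = (A * (Real.sqrt ε)⁻¹) * (L * (Real.sqrt ε * Real.sqrt ε)) := by rw [hss]
        _ = A * L * Real.sqrt ε := by field_simp
    have h5 := (h1.mul h3).sub (h4.const_mul 2)
    simp only [mul_zero, sub_zero] at h5
    refine h5.congr (fun ε => ?_)
    rw [mul_re]
    ring

end Pool.Agent.H4
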