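import Mathlib
import Pool.Agent.H4.Local

open Complex MeasureTheory Set Filter Topology
open scoped Real

namespace Pool.Agent.H4

/-- Hypotheses on the Cauchy transform `S` of the density `σ`. -/
structure Good (σ : ℝ → ℝ) (B A A' : ℝ) : Prop where
  int : Integrable σ
  bdd : ∀ t, |σ t| ≤ B
  cont : {t | ¬ContinuousAt σ t}.Countable
  sqrt : ∀ z : ℂ, 0 < z.im → ‖CT (fun t => (σ t : ℂ)) z‖ ≤ A * (Real.sqrt z.im)⁻¹
  lineInt : Integrable fun u : ℝ => ‖CT (fun t => (σ t : ℂ)) (u + (1 / 2 : ℝ) * I)‖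
  line : ∫ u : ℝ, ‖CT (fun t => (σ t : ℂ)) (u + (1 / 2 : ℝ) * I)‖ ≤ A'

/-- Abbreviation for the Cauchy transform of a real density. -/
noncomputable abbrev SS (σ : ℝ → ℝ) : ℂ → ℂ := CT (fun t => (σ t : ℂ))

/-- The closed box. -/
def box (r : ℝ) : Set ℂ := {u | 0 ≤ u.im ∧ |u.re| ≤ r ∧ u.im ≤ 1 / 2}

lemma local_identity {σ : ℝ → ℝ} {B A A' : ℝ} (H : Good σ B A A') {x r : ℝ} (hr : 0 ≤ r)
    {f p : ℂ → ℂ} {M C L : ℝ} (hp : Differentiable ℂ p)
    (hpr : ∀ u : ℂ, 0 ≤ u.im → u.im ≤ 1 / 2 → ‖p u * (u ^ 2 + 1)⁻¹‖ ≤ 3)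
    (hf : DifferentiableOn ℂ f {u | 0 < u.im})
    (hfo : ∀ u : ℂ, 0 < u.im → u.im ≤ 1 / 2 → r ≤ |u.re| → ‖f u‖ ≤ M)
    (hG : ∀ u : ℂ, 1 / 2 ≤ u.im → ‖p u * (SS σ (x + u) * f u)‖ ≤ C)
    (hgc : ContinuousOn (fun u => f u * (p u * (u ^ 2 + 1)⁻¹)) (box r))
    (hg : ∀ t : ℝ, |t| ≤ r → ∀ ε : ℝ, 0 < ε → ε ≤ 1 / 2 →
      ‖f (t + ε * I) * (p (t + ε * I) * ((t + ε * I) ^ 2 + 1)⁻¹) - f t * (p t * ((t : ℂ) ^ 2 + 1)⁻¹)‖ ≤ L * ε)
    (hgr : ∀ t : ℝ, |t| ≤ r → (f t * (p t * ((t : ℂ) ^ 2 + 1)⁻¹)).im = 0) :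
    |(∫ t in (-r)..r, σ (x + t) * (f t * (p t * ((t : ℂ) ^ 2 + 1)⁻¹)).re)
      - 2 * (π * (p I * (SS σ (x + I) * f I))).re| ≤ (24 * A + 6 * A') * M := by
  set g : ℂ → ℂ := fun u => f u * (p u * (u ^ 2 + 1)⁻¹) with hgdef
  set S := SS σ with hS
  have hlim := bottom_limit H.int H.bdd H.cont (x := x) hr (g := g) hgc hg hgr
  have hSd : DifferentiableOn ℂ S {z | 0 < z.im} := differentiableOn_CT H.int.ofReal
  have hM0 : 0 ≤ M := by
    refine (norm_nonneg _).trans (hfo (r + (1 / 2 : ℝ) * I) (by simp) (by simp) ?_)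
    simp [abs_of_nonneg hr]
  have hA0 : 0 ≤ A := by
    have := (norm_nonneg _).trans (H.sqrt I (by simp))
    simpa using this
  have hu1 : ∀ u : ℂ, 0 < u.im → u.im ≤ 1 / 2 → u ^ 2 + 1 ≠ 0 := by
    intro u h1 h2 h3
    have h4 : (u - I) * (u + I) = 0 := by
      ring_nf; rw [I_sq]; linear_combination h3
    rcases mul_eq_zero.mp h4 with h5 | h5
    · have := congrArg Complex.im h5
      simp at this
      linarith
    · have := congrArg Complex.im h5
      simp at this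
      linarith
  -- the full integrand
  set F : ℂ → ℂ := fun u => S (x + u) * g u with hF
  have hSx : DifferentiableOn ℂ (fun u => S (x + u)) {u | 0 < u.im} := by
    apply hSd.comp (by fun_prop)
    intro u hu
    simpa using hu
  have hFd : DifferentiableOn ℂ F {u | 0 < u.im ∧ u.im ≤ 1 / 2} := by
    apply DifferentiableOn.mul
    · exact hSx.mono fun u hu => hu.1
    · apply DifferentiableOn.mul (hf.mono fun u hu => hu.1)
      apply DifferentiableOn.mul hp.differentiableOn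
      apply DifferentiableOn.inv (by fun_prop)
      exact fun u hu => hu1 u hu.1 hu.2
  -- the line integral
  have hGd : DifferentiableOn ℂ (fun u => p u * (S (x + u) * f u)) {u | 0 < u.im} :=
    hp.differentiableOn.mul (hSx.mul hf)
  have hline : ∫ t : ℝ, F (t + (1 / 2 : ℝ) * I) = π * (p I * (S (x + I) * f I)) := by
    rw [← half_plane_formula hGd hG]
    congr 1
    ext t
    simp only [hF, hgdef]
    ring
  have hFint : Integrable fun t : ℝ => F (t + (1 / 2 : ℝ) * I) := by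
    have := integrable_kernel_mul hGd (C := C) (fun u => hG _ (by simp))
    refine this.congr (ae_of_all _ fun t => ?_)
    simp only [hF, hgdef]
    ring
  -- outer part
  have hSxline : Integrable (fun t : ℝ => ‖S (x + (t + (1 / 2 : ℝ) * I))‖) ∧
      ∫ t : ℝ, ‖S (x + (t + (1 / 2 : ℝ) * I))‖ ≤ A' := by
    have e : (fun t : ℝ => ‖S (x + (t + (1 / 2 : ℝ) * I))‖)
        = fun t : ℝ => (fun u : ℝ => ‖S (u + (1 / 2 : ℝ) * I)‖) (x + t) := by
      ext t
      simp only [ofReal_add]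
      rw [add_assoc]
    constructor
    · rw [e]
      exact H.lineInt.comp_add_left x
    · rw [e, integral_add_left_eq_self (fun u : ℝ => ‖S (u + (1 / 2 : ℝ) * I)‖) x]
      exact H.line
  have hrr : -r ≤ r := by linarith
  have hinner : ‖(∫ t in (-r)..r, F (t + (1 / 2 : ℝ) * I)) - π * (p I * (S (x + I) * f I))‖ ≤ 3 * M * A' := by
    rw [← hline, intervalIntegral.integral_of_le hrr,
      ← integral_add_compl (measurableSet_Ioc (a := -r) (b := r)) hFint, sub_add_cancel_left, norm_neg]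
    calc ‖∫ t in (Ioc (-r) r)ᶜ, F (t + (1 / 2 : ℝ) * I)‖
        ≤ ∫ t in (Ioc (-r) r)ᶜ, (3 * M) * ‖S (x + (t + (1 / 2 : ℝ) * I))‖ := by
          apply norm_integral_le_of_norm_le (hSxline.1.const_mul _).integrableOn
          filter_upwards [ae_restrict_mem measurableSet_Ioc.compl] with t ht
          have htr : r ≤ |t| := by
            rw [mem_compl_iff, mem_Ioc, not_and_or, not_lt, not_le] at ht
            rcases ht with h | h
            · rw [abs_of_nonpos (by linarith)]; linarith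
            · rw [abs_of_nonneg (by linarith)]; linarith
          simp only [hF, hgdef]
          rw [norm_mul, norm_mul, mul_comm (3 * M)]
          apply mul_le_mul_of_nonneg_left _ (norm_nonneg _)
          rw [mul_comm 3 M]
          apply mul_le_mul _ _ (norm_nonneg _) hM0
          · exact hfo _ (by simp) (by simp) (by simpa using htr)
          · exact hpr _ (by simp) (by simp)
      _ ≤ ∫ t : ℝ, (3 * M) * ‖S (x + (t + (1 / 2 : ℝ) * I))‖ := by
          apply setIntegral_le_integral (hSxline.1.const_mul _)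
          exact ae_of_all _ fun t => by positivity
      _ ≤ 3 * M * A' := by
          rw [integral_const_mul]
          exact mul_le_mul_of_nonneg_left hSxline.2 (by positivity)
  -- sides
  have hside : ∀ s : ℝ, |s| = r → ∀ ε : ℝ, 0 < ε → ε ≤ 1 / 2 →
      ‖∫ y in ε..(1 / 2 : ℝ), F (s + y * I)‖ ≤ 6 * A * M := by
    intro s hs ε hε hε2
    have hb : ∀ y ∈ Ioc ε (1 / 2 : ℝ), ‖F (s + y * I)‖ ≤ (3 * A * M) * y ^ (-(1 / 2) : ℝ) := by
      intro y hy
      have hy0 : 0 < y := lt_trans hε hy.1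
      simp only [hF, hgdef]
      rw [norm_mul, norm_mul]
      have him : ((x : ℂ) + (s + y * I)).im = y := by simp
      have h1 : ‖S (x + (s + y * I))‖ ≤ A * y ^ (-(1 / 2) : ℝ) := by
        have := H.sqrt (x + (s + y * I)) (by rw [him]; exact hy0)
        rw [him, Real.sqrt_eq_rpow, ← Real.rpow_neg hy0.le] at this
        exact this
      have h2 : ‖f (s + y * I)‖ ≤ M := hfo _ (by simpa using hy0) (by simpa using hy.2) (by simp [hs])
      have h3 := hpr ((s : ℂ) + y * I) (by simpa using hy0.le) (by simpa using hy.2)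
      calc ‖S (x + (s + y * I))‖ * (‖f (s + y * I)‖ * ‖p (s + y * I) * (((s : ℂ) + y * I) ^ 2 + 1)⁻¹‖)
          ≤ (A * y ^ (-(1 / 2) : ℝ)) * (M * 3) := by
            apply mul_le_mul h1 (mul_le_mul h2 h3 (norm_nonneg _) hM0) (by positivity) (by positivity)
        _ = _ := by ring
    have hint : IntervalIntegrable (fun y : ℝ => (3 * A * M) * y ^ (-(1 / 2) : ℝ)) volume ε (1 / 2) := by
      apply IntervalIntegrable.const_mul
      exact intervalIntegral.intervalIntegrable_rpow' (by norm_num)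
    refine (intervalIntegral.norm_integral_le_of_norm_le hε2 (ae_of_all _ fun y hy => hb y hy) hint).trans ?_
    rw [intervalIntegral.integral_const_mul, integral_rpow (Or.inl (by norm_num))]
    have h4 : (1 / 2 : ℝ) ^ (-(1 / 2) + 1 : ℝ) ≤ 1 := Real.rpow_le_one (by norm_num) (by norm_num) (by norm_num)
    have h5 : 0 ≤ ε ^ (-(1 / 2) + 1 : ℝ) := Real.rpow_nonneg hε.le _
    have h6 : ((1 / 2 : ℝ) ^ (-(1 / 2) + 1 : ℝ) - ε ^ (-(1 / 2) + 1 : ℝ)) / (-(1 / 2) + 1) ≤ 2 := by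
      rw [div_le_iff₀ (by norm_num)]
      linarith
    calc 3 * A * M * (((1 / 2 : ℝ) ^ (-(1 / 2) + 1 : ℝ) - ε ^ (-(1 / 2) + 1 : ℝ)) / (-(1 / 2) + 1))
        ≤ 3 * A * M * 2 := mul_le_mul_of_nonneg_left h6 (by positivity)
      _ = 6 * A * M := by ring
  apply le_of_tendsto ((hlim.sub_const _).abs)
  have hmemI : ∀ᶠ ε : ℝ in 𝓝[>] 0, 0 < ε ∧ ε ≤ 1 / 2 := by
    have : Ioc (0 : ℝ) (1 / 2) ∈ 𝓝[>] (0 : ℝ) := Ioc_mem_nhdsGT (by norm_num)
    filter_upwards [this] with ε hε using hε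
  filter_upwards [hmemI] with ε hε
  have hrect := Complex.integral_boundary_rect_eq_zero_of_differentiableOn F
    (-r + ε * I) (r + (1 / 2 : ℝ) * I) ?_
  · simp only [add_re, neg_re, ofReal_re, mul_re, I_re, mul_zero, ofReal_im, I_im, mul_one,
      sub_self, add_zero, add_im, neg_im, neg_zero, mul_im, zero_add] at hrect
    have e : (∫ t in (-r)..r, S (x + t + ε * I) * g (t + ε * I))
        = (∫ t in (-r)..r, F (t + (1 / 2 : ℝ) * I))
          - I • (∫ y in ε..(1 / 2 : ℝ), F (r + y * I))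
          + I • (∫ y in ε..(1 / 2 : ℝ), F (((-r : ℝ) : ℂ) + y * I)) := by
      have e0 : (∫ t in (-r)..r, S (x + t + ε * I) * g (t + ε * I)) = ∫ t in (-r)..r, F (t + ε * I) := by
        congr 1
        ext t
        simp only [hF]
        rw [add_assoc]
      rw [e0]
      push_cast at hrect ⊢
      linear_combination hrect
    rw [e, ← mul_sub, ← Complex.sub_re]
    have h1 := hside r (abs_of_nonneg hr) ε hε.1 hε.2
    have h2 := hside (-r) (by rw [abs_neg]; exact abs_of_nonneg hr) ε hε.1 hε.2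
    have e2 : (∫ t in (-r)..r, F (t + (1 / 2 : ℝ) * I))
          - I • (∫ y in ε..(1 / 2 : ℝ), F (r + y * I))
          + I • (∫ y in ε..(1 / 2 : ℝ), F (((-r : ℝ) : ℂ) + y * I)) - π * (p I * (SS σ (x + I) * f I))
        = ((∫ t in (-r)..r, F (t + (1 / 2 : ℝ) * I)) - π * (p I * (S (x + I) * f I)))
          - I • (∫ y in ε..(1 / 2 : ℝ), F (r + y * I))
          + I • (∫ y in ε..(1 / 2 : ℝ), F (((-r : ℝ) : ℂ) + y * I)) := by ring
    rw [abs_mul, abs_of_pos (by norm_num : (0:ℝ) < 2), e2]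
    have h3 : ‖((∫ t in (-r)..r, F (t + (1 / 2 : ℝ) * I)) - π * (p I * (S (x + I) * f I)))
          - I • (∫ y in ε..(1 / 2 : ℝ), F (r + y * I))
          + I • (∫ y in ε..(1 / 2 : ℝ), F (((-r : ℝ) : ℂ) + y * I))‖ ≤ 3 * M * A' + 6 * A * M + 6 * A * M := by
      refine (norm_add_le _ _).trans (add_le_add ((norm_sub_le _ _).trans (add_le_add hinner ?_)) ?_)
      · rw [norm_smul, norm_I, one_mul]; exact h1
      · rw [norm_smul, norm_I, one_mul]; exact h2
    have h4 := (Complex.abs_re_le_norm _).trans h3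
    calc _ ≤ 2 * (3 * M * A' + 6 * A * M + 6 * A * M) := by linarith
      _ = (24 * A + 6 * A') * M := by ring
  · apply hFd.mono
    intro z hz
    rw [mem_reProdIm] at hz
    have h2 := hz.2
    simp only [add_im, neg_im, ofReal_im, neg_zero, mul_im, ofReal_re, I_im, mul_one, I_re, mul_zero,
      add_zero, zero_add] at h2
    rw [uIcc_of_le hε.2] at h2
    exact ⟨lt_of_lt_of_le hε.1 h2.1, h2.2⟩

end Pool.Agent.H4
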