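import Mathlib
import Pool.Agent.H4.Slit
import Pool.Agent.H4.Local2

open Complex MeasureTheory Set Filter Topology
open scoped Real

namespace Pool.Agent.H4

/-- The local multiplier with zeros at `r * v i`. -/
noncomputable def mult (c r : ℝ) {ι : Type*} (s : Finset ι) (v : ι → ℝ) (u : ℂ) : ℂ :=
  cexp (2 * π * c * r * rt (u / r)) * ∏ i ∈ s, bl (v i) (u / r)

/-- Domain of analyticity. -/
def Dom (r : ℝ) : Set ℂ := {u : ℂ | u / r ∈ Om}

variable {c r : ℝ} {ι : Type*} {s : Finset ι} {v : ι → ℝ}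

lemma isOpen_Dom (r : ℝ) : IsOpen (Dom r) := isOpen_Om.preimage (by fun_prop)

lemma mem_Dom_of_im (hr : 0 < r) {u : ℂ} (hu : u.im ≠ 0) : u ∈ Dom r := by
  apply mem_Om_of_im_ne_zero
  rw [Complex.div_ofReal_im]
  exact div_ne_zero hu hr.ne'

lemma mem_Dom_of_real (hr : 0 < r) {t : ℝ} (ht : |t| < r) : (t : ℂ) ∈ Dom r := by
  show (t : ℂ) / r ∈ Om
  rw [← ofReal_div]
  apply mem_Om_of_real
  rw [abs_div, abs_of_pos hr, div_lt_one hr]
  exact ht

lemma box_subset_Dom (hr : 0 < r) {r' : ℝ} (hr' : r' < r) : box r' ⊆ Dom r := by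
  intro u hu
  by_cases h : u.im = 0
  · have e : u = (u.re : ℂ) := by
      apply Complex.ext <;> simp [h]
    rw [e]
    exact mem_Dom_of_real hr (lt_of_le_of_lt hu.2.1 hr')
  · exact mem_Dom_of_im hr h

lemma differentiableOn_mult (hv : ∀ i ∈ s, |v i| < 1) : DifferentiableOn ℂ (mult c r s v) (Dom r) := by
  have h1 : DifferentiableOn ℂ (fun u : ℂ => rt (u / r)) (Dom r) :=
    differentiableOn_rt.comp (by fun_prop) (fun u hu => hu)
  unfold mult
  apply DifferentiableOn.mul
  · exact (h1.const_mul _).cexp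
  · apply DifferentiableOn.fun_finsetProd
    intro i hi
    exact (differentiableOn_bl (hv i hi)).comp (by fun_prop) (fun u hu => hu)

lemma norm_mult_le (hv : ∀ i ∈ s, |v i| < 1) (u : ℂ) :
    ‖mult c r s v u‖ ≤ Real.exp (2 * π * c * (r * (rt (u / r)).re)) := by
  unfold mult
  rw [norm_mul, norm_prod]
  have h1 : ∏ i ∈ s, ‖bl (v i) (u / r)‖ ≤ 1 := by
    apply Finset.prod_le_one (fun i _ => norm_nonneg _)
    intro i hi
    exact norm_bl_le (hv i hi) _
  have h2 : ‖cexp (2 * π * c * r * rt (u / r))‖ = Real.exp (2 * π * c * (r * (rt (u / r)).re)) := by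
    rw [Complex.norm_exp]
    congr 1
    have : (2 * π * c * r * rt (u / r) : ℂ) = ((2 * π * c * r : ℝ) : ℂ) * rt (u / r) := by push_cast; ring
    rw [this, Complex.re_ofReal_mul]
    ring
  rw [h2]
  exact mul_le_of_le_one_right (Real.exp_nonneg _) h1

lemma norm_mult_le' (hc : 0 ≤ c) (hr : 0 < r) (hv : ∀ i ∈ s, |v i| < 1) (u : ℂ) :
    ‖mult c r s v u‖ ≤ Real.exp (2 * π * c * (r + |u.im|)) := by
  refine (norm_mult_le hv u).trans ?_
  apply Real.exp_le_exp.mpr
  apply mul_le_mul_of_nonneg_left _ (by positivity)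
  have h := rt_re_le (u / r)
  rw [Complex.div_ofReal_im, abs_div, abs_of_pos hr] at h
  calc r * (rt (u / r)).re ≤ r * (1 + |u.im| / r) := mul_le_mul_of_nonneg_left h hr.le
    _ = r + |u.im| := by field_simp

lemma norm_mult_outer (hc : 0 ≤ c) (hr : 2 ≤ r) (hv : ∀ i ∈ s, |v i| < 1) {u : ℂ} (hu : 0 < u.im)
    (hu2 : u.im ≤ 1 / 2) (hur : r - 1 ≤ |u.re|) :
    ‖mult c r s v u‖ ≤ Real.exp (2 * π * c * Real.sqrt (3 * r)) := by
  refine (norm_mult_le hv u).trans ?_
  apply Real.exp_le_exp.mpr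
  apply mul_le_mul_of_nonneg_left _ (by positivity)
  have hr0 : 0 < r := by linarith
  have h := rt_re_sq_le (u / r)
  rw [Complex.div_ofReal_im, Complex.div_ofReal_re] at h
  have h1 : 1 - (u.re / r) ^ 2 ≤ 2 / r := by
    have h2 : (r - 1) ^ 2 ≤ u.re ^ 2 := by
      rw [← sq_abs u.re]
      exact pow_le_pow_left₀ (by linarith) hur 2
    have h3 : u.re ^ 2 / r ^ 2 ≥ (r - 1) ^ 2 / r ^ 2 := by gcongr
    have h4 : (r - 1) ^ 2 / r ^ 2 = 1 - 2 / r + 1 / r ^ 2 := by field_simp; ring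
    have h5 : 0 ≤ 1 / r ^ 2 := by positivity
    rw [div_pow]
    linarith
  have h2 : (u.im / r) ^ 2 ≤ 2 / r := by
    rw [div_pow, div_le_div_iff₀ (by positivity) hr0]
    have : u.im ^ 2 ≤ 1 := by nlinarith
    nlinarith
  have h3 : |u.im / r| ≤ 1 / (2 * r) := by
    rw [abs_div, abs_of_pos hu, abs_of_pos hr0, div_le_div_iff₀ hr0 (by positivity)]
    nlinarith
  have h4 : (rt (u / r)).re ^ 2 ≤ 3 / r := by
    have h5 : max (1 - (u.re / r) ^ 2) ((u.im / r) ^ 2) ≤ 2 / r := max_le h1 h2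
    have h6 : 2 / r + 1 / (2 * r) ≤ 3 / r := by
      have : 2 / r + 1 / (2 * r) = (5 / 2) / r := by field_simp; norm_num
      rw [this]
      gcongr
      norm_num
    linarith
  have h5 : (r * (rt (u / r)).re) ^ 2 ≤ 3 * r := by
    rw [mul_pow]
    calc r ^ 2 * (rt (u / r)).re ^ 2 ≤ r ^ 2 * (3 / r) := mul_le_mul_of_nonneg_left h4 (by positivity)
      _ = 3 * r := by field_simp
  exact Real.le_sqrt_of_sq_le h5

lemma norm_mult_I (_hc : 0 ≤ c) (hr : 0 < r) (hv : ∀ i ∈ s, |v i| < 1) :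
    Real.exp (2 * π * c * r) * ∏ i ∈ s, |wr (v i)| ≤ ‖mult c r s v I‖ := by
  unfold mult
  have e : (I : ℂ) / r = ((1 / r : ℝ) : ℂ) * I := by push_cast; ring
  rw [norm_mul, norm_prod, e]
  apply mul_le_mul
  · rw [Complex.norm_exp]
    apply Real.exp_le_exp.mpr
    have : (2 * π * c * r * rt (((1 / r : ℝ) : ℂ) * I) : ℂ) = ((2 * π * c * r : ℝ) : ℂ) * rt (((1 / r : ℝ) : ℂ) * I) := by
      push_cast; ring
    rw [this, Complex.re_ofReal_mul]
    exact le_mul_of_one_le_right (by positivity) (rt_imag_re_ge _)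
  · apply Finset.prod_le_prod (fun i _ => abs_nonneg _)
    intro i hi
    exact norm_bl_imag_ge (hv i hi) _
  · exact Finset.prod_nonneg fun i _ => abs_nonneg _
  · exact norm_nonneg _

/-- The multiplier on the real axis. -/
noncomputable def multr (c r : ℝ) {ι : Type*} (s : Finset ι) (v : ι → ℝ) (t : ℝ) : ℝ :=
  Real.exp (2 * π * c * r * Real.sqrt (1 - (t / r) ^ 2)) *
    ∏ i ∈ s, ((wr (t / r) - wr (v i)) / (1 - wr (v i) * wr (t / r)))

lemma mult_real (hr : 0 < r) {t : ℝ} (ht : |t| < r) : mult c r s v t = (multr c r s v t : ℝ) := by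
  have ht' : |t / r| < 1 := by
    rw [abs_div, abs_of_pos hr, div_lt_one hr]
    exact ht
  unfold mult multr
  rw [← ofReal_div, rt_of_real ht'.le]
  push_cast
  congr 1
  apply Finset.prod_congr rfl
  intro i _
  have := bl_of_real (v := v i) ht'
  push_cast at this
  exact this

lemma multr_eq_abs_mul_sign (hr : 0 < r) (hv : ∀ i ∈ s, |v i| < 1) {t : ℝ} (ht : |t| < r) :
    multr c r s v t = |multr c r s v t| * ∏ i ∈ s, (SignType.sign (t / r - v i) : ℝ) := by
  have ht' : |t / r| < 1 := by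
    rw [abs_div, abs_of_pos hr, div_lt_one hr]
    exact ht
  have key : ∀ i ∈ s, (wr (t / r) - wr (v i)) / (1 - wr (v i) * wr (t / r))
      = |(wr (t / r) - wr (v i)) / (1 - wr (v i) * wr (t / r))| * (SignType.sign (t / r - v i) : ℝ) := by
    intro i hi
    have h1 := bl_real_sign (hv i hi) ht'
    set q := (wr (t / r) - wr (v i)) / (1 - wr (v i) * wr (t / r)) with hq
    rcases lt_trichotomy (t / r) (v i) with h | h | h
    · have h2 : t / r - v i < 0 := by linarith
      rw [sign_neg h2]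
      have : q ≤ 0 := by
        by_contra hc
        push Not at hc
        nlinarith
      rw [abs_of_nonpos this]
      simp
    · have : q = 0 := by rw [hq, h]; simp
      rw [this]; simp
    · have h2 : 0 < t / r - v i := by linarith
      rw [sign_pos h2]
      have : 0 ≤ q := by
        by_contra hc
        push Not at hc
        nlinarith
      rw [abs_of_nonneg this]
      simp
  have e := Finset.prod_congr (rfl : s = s) key
  rw [Finset.prod_mul_distrib] at e
  unfold multr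
  rw [abs_mul, abs_of_pos (Real.exp_pos _), Finset.abs_prod]
  conv_lhs => rw [e]
  ring

end Pool.Agent.H4
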