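import Mathlib
import Pool.Agent.H4.Mult

open Complex MeasureTheory Set Filter Topology
open scoped Real

namespace Pool.Agent.H4

lemma isCompact_box (r : ℝ) : IsCompact (box r) := by
  have : box r = (Icc (-r) r) ×ℂ (Icc 0 (1 / 2)) := by
    ext u
    simp only [box, mem_ofPred_eq, mem_reProdIm, mem_Icc, abs_le]
    tauto
  rw [this]
  exact isCompact_Icc.reProdIm isCompact_Icc

lemma convex_box (r : ℝ) : Convex ℝ (box r) := by
  have : box r = (Icc (-r) r) ×ℂ (Icc 0 (1 / 2)) := by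
    ext u
    simp only [box, mem_ofPred_eq, mem_reProdIm, mem_Icc, abs_le]
    tauto
  rw [this]
  exact ((convex_Icc (-r) r).is_linear_preimage Complex.reLm.isLinear).inter
    ((convex_Icc (0 : ℝ) (1 / 2)).is_linear_preimage Complex.imLm.isLinear)

lemma box_lip {g : ℂ → ℂ} {U : Set ℂ} (hU : IsOpen U) (hg : DifferentiableOn ℂ g U) {r : ℝ}
    (hb : box r ⊆ U) : ContinuousOn g (box r) ∧
      ∃ L, ∀ t : ℝ, |t| ≤ r → ∀ ε : ℝ, 0 < ε → ε ≤ 1 / 2 → ‖g (t + ε * I) - g t‖ ≤ L * ε := by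
  refine ⟨hg.continuousOn.mono hb, ?_⟩
  have hd : ContinuousOn (deriv g) (box r) := ((hg.deriv hU).continuousOn).mono hb
  obtain ⟨L, hL⟩ := (isCompact_box r).exists_bound_of_continuousOn hd
  refine ⟨L, fun t ht ε hε hε2 => ?_⟩
  have h1 : (t : ℂ) ∈ box r := by simp [box, ht]
  have h2 : (t : ℂ) + ε * I ∈ box r := by
    simp only [box, mem_ofPred_eq, add_im, ofReal_im, mul_im, ofReal_re, I_im, mul_one, I_re,
      mul_zero, add_zero, zero_add, add_re, mul_re, sub_self]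
    exact ⟨hε.le, ht, hε2⟩
  have := (convex_box r).norm_image_sub_le_of_norm_deriv_le
    (fun u hu => (hg u (hb hu)).differentiableAt (hU.mem_nhds (hb hu))) hL h1 h2
  rw [add_sub_cancel_left, norm_mul, norm_I, mul_one, Complex.norm_real, Real.norm_eq_abs,
    abs_of_pos hε] at this
  exact this

lemma norm_sub_I_ge {u : ℂ} (h2 : u.im ≤ 1 / 2) : 1 / 2 ≤ ‖u - I‖ := by
  have := Complex.abs_im_le_norm (u - I)
  rw [sub_im, I_im, abs_of_nonpos (by linarith)] at this
  linarith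

lemma norm_add_I_ge {u : ℂ} (h1 : 0 ≤ u.im) : 1 ≤ ‖u + I‖ := by
  have := Complex.abs_im_le_norm (u + I)
  rw [add_im, I_im, abs_of_nonneg (by linarith)] at this
  linarith

lemma sq_add_one_eq (u : ℂ) : u ^ 2 + 1 = (u - I) * (u + I) := by
  ring_nf
  rw [I_sq]
  ring

lemma sq_add_one_ne {u : ℂ} (h1 : |u.im| < 1) : u ^ 2 + 1 ≠ 0 := by
  rw [sq_add_one_eq]
  obtain ⟨h2, h3⟩ := abs_lt.mp h1
  apply mul_ne_zero
  · intro h
    have := congrArg Complex.im h
    simp at this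
    linarith
  · intro h
    have := congrArg Complex.im h
    simp at this
    linarith

/-- Kernels admissible in the local identity. -/
structure Ker (p : ℂ → ℂ) : Prop where
  diff : Differentiable ℂ p
  bd : ∀ u : ℂ, 0 ≤ u.im → u.im ≤ 1 / 2 → ‖p u * (u ^ 2 + 1)⁻¹‖ ≤ 3
  grow : ∀ u : ℂ, ‖p u‖ ≤ 1 + ‖u‖ ^ 2
  real : ∀ t : ℝ, (p t).im = 0

lemma ker_one : Ker (fun _ => 1) where
  diff := differentiable_const 1
  bd := by
    intro u h1 h2
    rw [one_mul, norm_inv, sq_add_one_eq, norm_mul]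
    have h3 := norm_sub_I_ge h2
    have h4 := norm_add_I_ge h1
    have h5 : 1 / 2 ≤ ‖u - I‖ * ‖u + I‖ := by nlinarith
    calc (‖u - I‖ * ‖u + I‖)⁻¹ ≤ (1 / 2)⁻¹ := inv_anti₀ (by norm_num) h5
      _ ≤ 3 := by norm_num
  grow := by intro u; simp
  real := by intro t; simp

lemma ker_id : Ker (fun u => u) where
  diff := differentiable_id
  bd := by
    intro u h1 h2
    rw [norm_mul, norm_inv, sq_add_one_eq, norm_mul]
    have h3 := norm_sub_I_ge h2
    have h4 := norm_add_I_ge h1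
    have h6 : ‖u‖ ≤ ‖u - I‖ + 1 := by
      calc ‖u‖ = ‖(u - I) + I‖ := by rw [sub_add_cancel]
        _ ≤ ‖u - I‖ + ‖I‖ := norm_add_le _ _
        _ = _ := by rw [norm_I]
    rw [← div_eq_mul_inv, div_le_iff₀ (by positivity)]
    nlinarith
  grow := by
    intro u
    nlinarith [sq_nonneg (‖u‖ - 1), norm_nonneg u]
  real := by intro t; simp

lemma ker_sq : Ker (fun u => u ^ 2 + 1) where
  diff := by fun_prop
  bd := by
    intro u h1 h2
    rw [mul_inv_cancel₀]
    · simp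
    · apply sq_add_one_ne
      rw [abs_of_nonneg h1]
      linarith
  grow := by
    intro u
    refine (norm_add_le _ _).trans ?_
    rw [norm_pow, norm_one, add_comm]
  real := by
    intro t
    have : ((t : ℂ) ^ 2 + 1) = ((t ^ 2 + 1 : ℝ) : ℂ) := by push_cast; ring
    rw [this, ofReal_im]

lemma identity_mult {σ : ℝ → ℝ} {B A A' A₂ : ℝ} (H : Good σ B A A') {c c₁ : ℝ} (hc : 0 ≤ c)
    (hcc : c ≤ c₁) (hdec : ∀ z : ℂ, 1 / 2 ≤ z.im → (1 + ‖z‖ ^ 2) * ‖SS σ z‖ ≤ A₂ * Real.exp (-(2 * π * c₁ * z.im)))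
    {x r : ℝ} (hr : 2 ≤ r) {ι : Type*} {s : Finset ι} {v : ι → ℝ} (hv : ∀ i ∈ s, |v i| < 1)
    {p : ℂ → ℂ} (hp : Ker p) :
    |(∫ t in (-(r - 1))..(r - 1), σ (x + t) * (multr c r s v t * (p t * ((t : ℂ) ^ 2 + 1)⁻¹).re))
      - 2 * (π * (p I * (SS σ (x + I) * mult c r s v I))).re|
      ≤ (24 * A + 6 * A') * Real.exp (2 * π * c * Real.sqrt (3 * r)) := by
  have hr0 : 0 < r := by linarith
  have hr1 : 0 ≤ r - 1 := by linarith
  set U : Set ℂ := Dom r ∩ {u : ℂ | |u.im| < 1} with hUdef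
  have hU : IsOpen U := by
    apply (isOpen_Dom r).inter
    exact isOpen_lt (by fun_prop) continuous_const
  have hbU : box (r - 1) ⊆ U := by
    intro u hu
    refine ⟨box_subset_Dom hr0 (by linarith) hu, ?_⟩
    have h1 : 0 ≤ u.im := hu.1
    have h2 : u.im ≤ 1 / 2 := hu.2.2
    simp only [mem_ofPred_eq]
    rw [abs_of_nonneg h1]
    linarith
  have hgd : DifferentiableOn ℂ (fun u => mult c r s v u * (p u * (u ^ 2 + 1)⁻¹)) U := by
    apply DifferentiableOn.mul ((differentiableOn_mult hv).mono inter_subset_left)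
    apply DifferentiableOn.mul hp.diff.differentiableOn
    apply DifferentiableOn.inv (by fun_prop)
    intro u hu
    exact sq_add_one_ne hu.2
  obtain ⟨hgc, L, hL⟩ := box_lip hU hgd hbU
  have hkr : ∀ t : ℝ, (p t * ((t : ℂ) ^ 2 + 1)⁻¹).im = 0 := by
    intro t
    have e1 : ((t : ℂ) ^ 2 + 1)⁻¹ = (((t ^ 2 + 1)⁻¹ : ℝ) : ℂ) := by push_cast; ring
    rw [e1, mul_im, ofReal_re, ofReal_im, hp.real t]
    ring
  have hmr : ∀ t : ℝ, |t| ≤ r - 1 → mult c r s v t * (p t * ((t : ℂ) ^ 2 + 1)⁻¹)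
      = ((multr c r s v t * (p t * ((t : ℂ) ^ 2 + 1)⁻¹).re : ℝ) : ℂ) := by
    intro t ht
    rw [mult_real hr0 (by linarith)]
    apply Complex.ext
    · simp only [mul_re, ofReal_re, ofReal_im, zero_mul, sub_zero]
    · rw [mul_im, hkr]; simp
  have hgr : ∀ t : ℝ, |t| ≤ r - 1 → (mult c r s v t * (p t * ((t : ℂ) ^ 2 + 1)⁻¹)).im = 0 := by
    intro t ht
    rw [hmr t ht, ofReal_im]
  have key := local_identity H (x := x) hr1 (f := mult c r s v) (p := p)
    (M := Real.exp (2 * π * c * Real.sqrt (3 * r)))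
    (C := (2 * x ^ 2 + 3) * (A₂ * Real.exp (2 * π * c * r))) (L := L) hp.diff hp.bd
    ((differentiableOn_mult hv).mono (fun u hu => mem_Dom_of_im hr0 (ne_of_gt hu)))
    (fun u h1 h2 h3 => norm_mult_outer hc hr hv h1 h2 h3) ?_ hgc hL hgr
  · have e : (∫ t in (-(r - 1))..(r - 1), σ (x + t) * (mult c r s v t * (p t * ((t : ℂ) ^ 2 + 1)⁻¹)).re)
        = ∫ t in (-(r - 1))..(r - 1), σ (x + t) * (multr c r s v t * (p t * ((t : ℂ) ^ 2 + 1)⁻¹).re) := by
      apply intervalIntegral.integral_congr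
      intro t ht
      rw [uIcc_of_le (by linarith)] at ht
      simp only
      rw [hmr t (abs_le.mpr ht), ofReal_re]
    rw [e] at key
    exact key
  · intro u hu
    have h1 := hdec (x + u) (by simpa using hu)
    have him : ((x : ℂ) + u).im = u.im := by simp
    rw [him] at h1
    have h2 := norm_mult_le' (s := s) (v := v) hc hr0 hv u
    rw [abs_of_nonneg (by linarith : 0 ≤ u.im)] at h2
    have h3 : ‖p u‖ ≤ (2 * x ^ 2 + 3) * (1 + ‖(x : ℂ) + u‖ ^ 2) := by
      refine (hp.grow u).trans ?_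
      have h4 : ‖u‖ ≤ ‖(x : ℂ) + u‖ + |x| := by
        calc ‖u‖ = ‖((x : ℂ) + u) - x‖ := by rw [add_sub_cancel_left]
          _ ≤ ‖(x : ℂ) + u‖ + ‖(x : ℂ)‖ := norm_sub_le _ _
          _ = _ := by rw [Complex.norm_real, Real.norm_eq_abs]
      have h5 : ‖u‖ ^ 2 ≤ 2 * ‖(x : ℂ) + u‖ ^ 2 + 2 * x ^ 2 := by
        have h6 := pow_le_pow_left₀ (norm_nonneg u) h4 2
        have h7 := sq_abs x
        nlinarith [sq_nonneg (‖(x : ℂ) + u‖ - |x|)]
      nlinarith [sq_nonneg ‖(x : ℂ) + u‖, sq_nonneg x, mul_nonneg (sq_nonneg x) (sq_nonneg ‖(x : ℂ) + u‖)]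
    have hS0 : 0 ≤ ‖SS σ (x + u)‖ := norm_nonneg _
    rw [norm_mul, norm_mul]
    calc ‖p u‖ * (‖SS σ (x + u)‖ * ‖mult c r s v u‖)
        ≤ ((2 * x ^ 2 + 3) * (1 + ‖(x : ℂ) + u‖ ^ 2)) * (‖SS σ (x + u)‖ * Real.exp (2 * π * c * (r + u.im))) := by
          apply mul_le_mul h3 (mul_le_mul_of_nonneg_left h2 hS0) (by positivity) (by positivity)
      _ = (2 * x ^ 2 + 3) * (((1 + ‖(x : ℂ) + u‖ ^ 2) * ‖SS σ (x + u)‖) * Real.exp (2 * π * c * (r + u.im))) := by ring
      _ ≤ (2 * x ^ 2 + 3) * ((A₂ * Real.exp (-(2 * π * c₁ * u.im))) * Real.exp (2 * π * c * (r + u.im))) := by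
          apply mul_le_mul_of_nonneg_left _ (by positivity)
          exact mul_le_mul_of_nonneg_right h1 (Real.exp_nonneg _)
      _ ≤ (2 * x ^ 2 + 3) * (A₂ * Real.exp (2 * π * c * r)) := by
          apply mul_le_mul_of_nonneg_left _ (by positivity)
          rw [mul_assoc, ← Real.exp_add]
          have hA2 : 0 ≤ A₂ := by
            by_contra hneg
            push Not at hneg
            have h8 : A₂ * Real.exp (-(2 * π * c₁ * u.im)) < 0 := mul_neg_of_neg_of_pos hneg (Real.exp_pos _)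
            have h9 : 0 ≤ (1 + ‖(x : ℂ) + u‖ ^ 2) * ‖SS σ (x + u)‖ := by positivity
            linarith
          apply mul_le_mul_of_nonneg_left _ hA2
          apply Real.exp_le_exp.mpr
          have h10 : 0 ≤ 2 * π * (c₁ - c) * u.im := by
            have : 0 ≤ c₁ - c := by linarith
            have : 0 ≤ u.im := by linarith
            positivity
          nlinarith

/-- **Local estimate.** If `σ` has few sign changes near `x`, its Cauchy transform is small at
`x + i`. -/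
theorem local_estimate {σ : ℝ → ℝ} {B A A' A₂ : ℝ} (H : Good σ B A A') {c c₁ : ℝ} (hc : 0 ≤ c)
    (hcc : c ≤ c₁) (hdec : ∀ z : ℂ, 1 / 2 ≤ z.im → (1 + ‖z‖ ^ 2) * ‖SS σ z‖ ≤ A₂ * Real.exp (-(2 * π * c₁ * z.im)))
    {x r : ℝ} (hr : 2 ≤ r) {ι : Type*} {s : Finset ι} {v : ι → ℝ} (hv : ∀ i ∈ s, |v i| < 1)
    {κ sg : ℝ} (hκ : 0 ≤ κ) (hsg : |sg| = 1) {Z : Set ℝ} (hZ : Z.Countable)
    (hσ : ∀ t : ℝ, |t| ≤ r - 1 → t ∉ Z →
      -κ ≤ sg * σ (x + t) * ∏ i ∈ s, (SignType.sign (t / r - v i) : ℝ)) :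
    ‖SS σ (x + I)‖ * ‖mult c r s v I‖ ≤ (24 * A + 6 * A') * Real.exp (2 * π * c * Real.sqrt (3 * r))
      + 2 * κ * r * Real.exp (2 * π * c * r) := by
  have hr0 : 0 < r := by linarith
  have hrr : -(r - 1) ≤ r - 1 := by linarith
  set E := (24 * A + 6 * A') * Real.exp (2 * π * c * Real.sqrt (3 * r)) with hE
  set F : ℝ → ℝ := fun t => σ (x + t) * multr c r s v t with hF
  have hm : ∀ t : ℝ, |t| ≤ r - 1 → |multr c r s v t| ≤ Real.exp (2 * π * c * r) := by
    intro t ht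
    have h1 := norm_mult_le' (s := s) (v := v) hc hr0 hv (t : ℂ)
    rw [mult_real hr0 (by linarith), Complex.norm_real, Real.norm_eq_abs, ofReal_im, abs_zero, add_zero] at h1
    exact h1
  have hmc : ContinuousOn (multr c r s v) (Icc (-(r - 1)) (r - 1)) := by
    have h1 : ContinuousOn (fun t : ℝ => mult c r s v t) (Icc (-(r - 1)) (r - 1)) := by
      apply (differentiableOn_mult (c := c) (r := r) hv).continuousOn.comp (by fun_prop)
      intro t ht
      have := abs_le.mpr ht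
      exact mem_Dom_of_real hr0 (by linarith)
    have h2 : ContinuousOn (fun t : ℝ => (mult c r s v t).re) (Icc (-(r - 1)) (r - 1)) :=
      Complex.continuous_re.comp_continuousOn h1
    apply h2.congr
    intro t ht
    have := abs_le.mpr ht
    simp only
    rw [mult_real hr0 (by linarith), ofReal_re]
  have hσi : IntervalIntegrable (fun t => σ (x + t)) volume (-(r - 1)) (r - 1) :=
    (H.int.comp_add_left x).intervalIntegrable
  have hmc' : ContinuousOn (multr c r s v) (uIcc (-(r - 1)) (r - 1)) := by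
    rw [uIcc_of_le hrr]; exact hmc
  have hFi : IntervalIntegrable F volume (-(r - 1)) (r - 1) := hσi.mul_continuousOn hmc'
  have hmi : IntervalIntegrable (fun t => |multr c r s v t|) volume (-(r - 1)) (r - 1) :=
    (ContinuousOn.intervalIntegrable hmc').abs
  -- first identity
  have k2 := identity_mult H hc hcc hdec (x := x) hr hv ker_sq
  have h0 : |∫ t in (-(r - 1))..(r - 1), F t| ≤ E := by
    have e1 : (∫ t in (-(r - 1))..(r - 1), σ (x + t) * (multr c r s v t * (((t : ℂ) ^ 2 + 1) * ((t : ℂ) ^ 2 + 1)⁻¹).re))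
        = ∫ t in (-(r - 1))..(r - 1), F t := by
      apply intervalIntegral.integral_congr
      intro t _
      simp only [hF]
      rw [mul_inv_cancel₀ (sq_add_one_ne (by simp)), one_re, mul_one]
    have e2 : (I : ℂ) ^ 2 + 1 = 0 := by rw [I_sq]; ring
    rw [e1, e2, zero_mul, mul_zero, zero_re, mul_zero, sub_zero] at k2
    exact k2
  have hpt : ∀ t ∈ Icc (-(r - 1)) (r - 1), t ∉ Z → |F t| ≤ sg * F t + 2 * κ * |multr c r s v t| := by
    intro t ht htZ
    have ht' := abs_le.mpr ht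
    have h1 := hσ t ht' htZ
    have h2 := multr_eq_abs_mul_sign (c := c) hr0 hv (t := t) (by linarith)
    have h3 : sg * F t = |multr c r s v t| * (sg * σ (x + t) * ∏ i ∈ s, (SignType.sign (t / r - v i) : ℝ)) := by
      simp only [hF]
      conv_lhs => rw [h2]
      ring
    have h4 : -κ * |multr c r s v t| ≤ sg * F t := by
      rw [h3, mul_comm (-κ)]
      exact mul_le_mul_of_nonneg_left h1 (abs_nonneg _)
    have h5 : |F t| = |sg * F t| := by rw [abs_mul sg, hsg, one_mul]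
    rw [h5]
    have h6 : 0 ≤ κ * |multr c r s v t| := by positivity
    apply abs_le.mpr
    constructor <;> linarith
  have hFabs : ∫ t in (-(r - 1))..(r - 1), |F t| ≤ E + 4 * κ * r * Real.exp (2 * π * c * r) := by
    have h1 : ∫ t in (-(r - 1))..(r - 1), |F t|
        ≤ ∫ t in (-(r - 1))..(r - 1), (sg * F t + 2 * κ * |multr c r s v t|) := by
      apply intervalIntegral.integral_mono_ae_restrict hrr hFi.abs
        ((hFi.const_mul _).add (hmi.const_mul _))
      filter_upwards [ae_restrict_mem measurableSet_Icc, ae_restrict_of_ae (hZ.ae_notMem volume)] with t ht htZ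
      exact hpt t ht htZ
    rw [intervalIntegral.integral_add (hFi.const_mul _) (hmi.const_mul _),
      intervalIntegral.integral_const_mul, intervalIntegral.integral_const_mul] at h1
    have h2 : sg * ∫ t in (-(r - 1))..(r - 1), F t ≤ E := by
      calc sg * ∫ t in (-(r - 1))..(r - 1), F t ≤ |sg * ∫ t in (-(r - 1))..(r - 1), F t| := le_abs_self _
        _ ≤ E := by rw [abs_mul, hsg, one_mul]; exact h0
    have h3 : ∫ t in (-(r - 1))..(r - 1), |multr c r s v t| ≤ ∫ t in (-(r - 1))..(r - 1), Real.exp (2 * π * c * r) := by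
      apply intervalIntegral.integral_mono_on hrr hmi intervalIntegrable_const
      intro t ht
      exact hm t (abs_le.mpr ht)
    rw [intervalIntegral.integral_const, smul_eq_mul] at h3
    have h4 : 2 * κ * ∫ t in (-(r - 1))..(r - 1), |multr c r s v t| ≤ 4 * κ * r * Real.exp (2 * π * c * r) := by
      calc 2 * κ * ∫ t in (-(r - 1))..(r - 1), |multr c r s v t|
          ≤ 2 * κ * ((r - 1 - -(r - 1)) * Real.exp (2 * π * c * r)) := mul_le_mul_of_nonneg_left h3 (by positivity)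
        _ = 4 * κ * (r - 1) * Real.exp (2 * π * c * r) := by ring
        _ ≤ 4 * κ * r * Real.exp (2 * π * c * r) := by
            apply mul_le_mul_of_nonneg_right _ (Real.exp_nonneg _)
            apply mul_le_mul_of_nonneg_left _ (by positivity)
            linarith
    linarith
  -- the two kernels
  have hker : ∀ p : ℂ → ℂ, (∀ t : ℝ, |(p t * ((t : ℂ) ^ 2 + 1)⁻¹).re| ≤ 1) → Continuous p →
      |∫ t in (-(r - 1))..(r - 1), σ (x + t) * (multr c r s v t * (p t * ((t : ℂ) ^ 2 + 1)⁻¹).re)|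
        ≤ ∫ t in (-(r - 1))..(r - 1), |F t| := by
    intro p hp _
    have h1 : ‖∫ t in (-(r - 1))..(r - 1), σ (x + t) * (multr c r s v t * (p t * ((t : ℂ) ^ 2 + 1)⁻¹).re)‖
        ≤ ∫ t in (-(r - 1))..(r - 1), |F t| := by
      apply intervalIntegral.norm_integral_le_of_norm_le hrr _ hFi.abs
      apply ae_of_all
      intro t _
      rw [Real.norm_eq_abs, ← mul_assoc, abs_mul]
      exact mul_le_of_le_one_right (abs_nonneg _) (hp t)
    exact h1
  have hk1 : ∀ t : ℝ, |((1 : ℂ) * ((t : ℂ) ^ 2 + 1)⁻¹).re| ≤ 1 := by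
    intro t
    have e1 : (1 : ℂ) * ((t : ℂ) ^ 2 + 1)⁻¹ = (((t ^ 2 + 1)⁻¹ : ℝ) : ℂ) := by push_cast; ring
    rw [e1, ofReal_re, abs_of_pos (by positivity)]
    exact inv_le_one_of_one_le₀ (by nlinarith [sq_nonneg t])
  have hk2 : ∀ t : ℝ, |((t : ℂ) * ((t : ℂ) ^ 2 + 1)⁻¹).re| ≤ 1 := by
    intro t
    have e1 : (t : ℂ) * ((t : ℂ) ^ 2 + 1)⁻¹ = ((t * (t ^ 2 + 1)⁻¹ : ℝ) : ℂ) := by push_cast; ring
    rw [e1, ofReal_re, abs_mul, abs_of_pos (by positivity : 0 < (t ^ 2 + 1)⁻¹), ← div_eq_mul_inv,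
      div_le_one (by positivity)]
    nlinarith [sq_nonneg (|t| - 1), sq_abs t, abs_nonneg t]
  have i1 := hker (fun _ => 1) hk1 continuous_const
  have i2 := hker (fun u => u) hk2 continuous_id
  have k0 := identity_mult H hc hcc hdec (x := x) hr hv ker_one
  have k1 := identity_mult H hc hcc hdec (x := x) hr hv ker_id
  set G : ℂ := SS σ (x + I) * mult c r s v I with hG
  have hre : 2 * (π * ((1 : ℂ) * G)).re = 2 * π * G.re := by
    rw [one_mul, Complex.re_ofReal_mul]; ring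
  have him : 2 * (π * ((I : ℂ) * G)).re = -(2 * π * G.im) := by
    rw [Complex.re_ofReal_mul, I_mul_re]; ring
  rw [hre] at k0
  rw [him] at k1
  have hpi := Real.pi_gt_three
  set J := E + 4 * κ * r * Real.exp (2 * π * c * r) with hJ
  have j0 : |2 * π * G.re| ≤ E + J := by
    have h1 := abs_sub_abs_le_abs_sub (2 * π * G.re)
      (∫ t in (-(r - 1))..(r - 1), σ (x + t) * (multr c r s v t * ((1 : ℂ) * ((t : ℂ) ^ 2 + 1)⁻¹).re))
    rw [abs_sub_comm] at h1
    linarith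
  have j1 : |2 * π * G.im| ≤ E + J := by
    have h1 := abs_sub_abs_le_abs_sub (-(2 * π * G.im))
      (∫ t in (-(r - 1))..(r - 1), σ (x + t) * (multr c r s v t * ((t : ℂ) * ((t : ℂ) ^ 2 + 1)⁻¹).re))
    rw [abs_sub_comm, abs_neg] at h1
    linarith
  rw [← norm_mul, ← hG]
  have h7 := Complex.norm_le_abs_re_add_abs_im G
  rw [abs_mul, abs_of_pos (by positivity : 0 < 2 * π)] at j0 j1
  have h8 : 2 * π * ‖G‖ ≤ 2 * (E + J) := by
    calc 2 * π * ‖G‖ ≤ 2 * π * (|G.re| + |G.im|) := mul_le_mul_of_nonneg_left h7 (by positivity)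
      _ ≤ _ := by linarith
  have hG0 : 0 ≤ ‖G‖ := norm_nonneg _
  have h9 : 2 * ‖G‖ ≤ π * ‖G‖ := mul_le_mul_of_nonneg_right (by linarith) hG0
  nlinarith

end Pool.Agent.H4
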