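import Mathlib

open Complex MeasureTheory Set Filter Topology Metric
open scoped Real

namespace Pool.Agent.H4

/-- Lower bound coming from Jensen's formula. -/
lemma jensen_lower {g : ℂ → ℂ} (hg : AnalyticOnNhd ℂ g (ball 0 1)) {w : ℂ} (hw : w ∈ ball (0 : ℂ) 1)
    (hgw : g w ≠ 0) : ∃ n K : ℝ, ∀ ρ : ℝ, 0 < ρ → ρ < 1 → ∀ N : ℝ,
      n * Real.log ρ + K ≤ Real.circleAverage (fun z => Real.log (max ‖g z‖ (Real.exp (-N)))) 0 ρ := by
  refine ⟨((meromorphicOrderAt g 0).untop₀ : ℝ), Real.log ‖meromorphicTrailingCoeffAt g 0‖, ?_⟩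
  intro ρ hρ hρ1 N
  have habs : |ρ| = ρ := abs_of_pos hρ
  have hsub : closedBall (0 : ℂ) |ρ| ⊆ ball 0 1 := by
    rw [habs]; exact closedBall_subset_ball hρ1
  have hgA : AnalyticOnNhd ℂ g (closedBall 0 |ρ|) := hg.mono hsub
  have hmer : MeromorphicOn g (closedBall 0 |ρ|) := hgA.meromorphicOn
  have hmerS : MeromorphicOn g (sphere 0 |ρ|) := fun z hz => hmer z (sphere_subset_closedBall hz)
  have hJ := MeromorphicOn.circleAverage_log_norm hρ.ne' hmer
  have h0 : (0 : ℂ) ∈ closedBall (0 : ℂ) |ρ| := by simp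
  rw [MeromorphicOn.divisor_apply hmer h0] at hJ
  have hsum : 0 ≤ ∑ᶠ u, (MeromorphicOn.divisor g (closedBall 0 |ρ|) u : ℝ) * Real.log (ρ * ‖(0 : ℂ) - u‖⁻¹) := by
    apply finsum_nonneg
    intro u
    have hd : 0 ≤ MeromorphicOn.divisor g (closedBall 0 |ρ|) u := MeromorphicOn.AnalyticOnNhd.divisor_nonneg hgA u
    by_cases hu : u ∈ closedBall (0 : ℂ) |ρ|
    · apply mul_nonneg (by exact_mod_cast hd)
      by_cases hu0 : u = 0
      · simp [hu0]
      · apply Real.log_nonneg
        rw [zero_sub, norm_neg, ← div_eq_mul_inv, le_div_iff₀ (norm_pos_iff.mpr hu0), one_mul]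
        rw [mem_closedBall_zero_iff, habs] at hu
        exact hu
    · have : MeromorphicOn.divisor g (closedBall 0 |ρ|) u = 0 :=
        Function.locallyFinsuppWithin.apply_eq_zero_of_notMem _ hu
      rw [this]; simp
  have hconn : IsConnected (ball (0 : ℂ) 1) :=
    ⟨⟨0, by simp⟩, (convex_ball (0 : ℂ) 1).isPreconnected⟩
  have hcod : g ⁻¹' {0}ᶜ ∈ codiscreteWithin (sphere (0 : ℂ) |ρ|) := by
    apply Filter.codiscreteWithin_mono (sphere_subset_closedBall.trans hsub)
    exact hg.preimage_zero_mem_codiscreteWithin hgw hw hconn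
  set f₂ : ℂ → ℝ := fun z => if g z = 0 then Real.log (max ‖g z‖ (Real.exp (-N))) else Real.log ‖g z‖ with hf₂
  have heq : (fun z => Real.log ‖g z‖) =ᶠ[codiscreteWithin (sphere (0 : ℂ) |ρ|)] f₂ := by
    filter_upwards [hcod] with z hz
    have : g z ≠ 0 := hz
    simp [hf₂, this]
  have hint1 : CircleIntegrable (fun z => Real.log ‖g z‖) 0 ρ := hmerS.circleIntegrable_log_norm
  have hint2 : CircleIntegrable f₂ 0 ρ := hint1.congr_codiscreteWithin heq
  have hcont : ContinuousOn (fun z => Real.log (max ‖g z‖ (Real.exp (-N)))) (sphere (0 : ℂ) |ρ|) := by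
    apply ContinuousOn.log
    · apply ContinuousOn.sup _ continuousOn_const
      exact ((hgA.continuousOn).mono sphere_subset_closedBall).norm
    · intro z _
      exact ne_of_gt (lt_of_lt_of_le (Real.exp_pos _) (le_max_right _ _))
  have hint3 : CircleIntegrable (fun z => Real.log (max ‖g z‖ (Real.exp (-N)))) 0 ρ :=
    hcont.circleIntegrable'
  have hle : Real.circleAverage f₂ 0 ρ
      ≤ Real.circleAverage (fun z => Real.log (max ‖g z‖ (Real.exp (-N)))) 0 ρ := by
    apply Real.circleAverage_mono hint2 hint3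
    intro z _
    simp only [hf₂]
    split_ifs with h
    · exact le_rfl
    · apply Real.log_le_log (norm_pos_iff.mpr h) (le_max_left _ _)
  rw [← Real.circleAverage_congr_codiscreteWithin heq hρ.ne'] at hle
  refine le_trans ?_ hle
  rw [hJ]
  linarith

lemma exp_two_arctan (x : ℝ) : cexp (((2 * Real.arctan x + π : ℝ) : ℂ) * I) = (x - I) / (x + I) := by
  have hs : 0 < Real.sqrt (1 + x ^ 2) := Real.sqrt_pos.mpr (by positivity)
  have hss : Real.sqrt (1 + x ^ 2) * Real.sqrt (1 + x ^ 2) = 1 + x ^ 2 := Real.mul_self_sqrt (by positivity)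
  have h1 : cexp ((Real.arctan x : ℂ) * I) = (1 + x * I) / Real.sqrt (1 + x ^ 2) := by
    rw [Complex.exp_mul_I, ← Complex.ofReal_cos, ← Complex.ofReal_sin, Real.cos_arctan, Real.sin_arctan]
    push_cast
    field_simp
  have h2 : (((2 * Real.arctan x + π : ℝ) : ℂ) * I) = (Real.arctan x : ℂ) * I + (Real.arctan x : ℂ) * I + π * I := by
    push_cast; ring
  rw [h2, Complex.exp_add, Complex.exp_add, h1, Complex.exp_pi_mul_I]
  have h3 : (x : ℂ) + I ≠ 0 := by
    intro h
    have := congrArg Complex.im h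
    simp at this
  have h4 : ((Real.sqrt (1 + x ^ 2) : ℝ) : ℂ) ≠ 0 := by
    exact_mod_cast hs.ne'
  have h5 : ((Real.sqrt (1 + x ^ 2) : ℝ) : ℂ) * ((Real.sqrt (1 + x ^ 2) : ℝ) : ℂ) = 1 + (x : ℂ) ^ 2 := by
    exact_mod_cast hss
  rw [div_mul_div_comm, h5]
  have h6 : (1 : ℂ) + (x : ℂ) ^ 2 ≠ 0 := by
    rw [← h5]; exact mul_ne_zero h4 h4
  field_simp
  ring_nf
  rw [show (I : ℂ) ^ 3 = I ^ 2 * I by ring, I_sq]
  ring

/-- Circle averages as integrals over the line. -/
lemma circleAverage_eq_line (h : ℂ → ℝ) (ρ : ℝ) :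
    Real.circleAverage h 0 ρ = π⁻¹ * ∫ x : ℝ, (1 + x ^ 2)⁻¹ * h (ρ * ((x - I) / (x + I))) := by
  rw [Real.circleAverage_def, intervalIntegral.integral_of_le (by positivity), integral_Ioc_eq_integral_Ioo]
  have himg : (fun x : ℝ => 2 * Real.arctan x + π) '' univ = Ioo 0 (2 * π) := by
    ext y
    simp only [image_univ, mem_range, mem_Ioo]
    constructor
    · rintro ⟨x, rfl⟩
      have h1 := Real.neg_pi_div_two_lt_arctan x
      have h2 := Real.arctan_lt_pi_div_two x
      constructor <;> linarith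
    · rintro ⟨h1, h2⟩
      have : (y - π) / 2 ∈ Ioo (-(π / 2)) (π / 2) := ⟨by linarith, by linarith⟩
      rw [← Real.range_arctan] at this
      obtain ⟨x, hx⟩ := this
      exact ⟨x, by rw [hx]; ring⟩
  rw [← himg, integral_image_eq_integral_abs_deriv_smul (f' := fun x => 2 * (1 / (1 + x ^ 2))) MeasurableSet.univ]
  · rw [Measure.restrict_univ, smul_eq_mul, mul_inv, mul_comm (2 : ℝ)⁻¹, mul_assoc, ← integral_const_mul]
    congr 2
    ext x
    rw [smul_eq_mul, abs_of_pos (by positivity)]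
    have : circleMap 0 ρ (2 * Real.arctan x + π) = ρ * ((x - I) / (x + I)) := by
      rw [circleMap, zero_add, exp_two_arctan]
    rw [this]
    ring
  · intro x _
    exact (((Real.hasDerivAt_arctan x).const_mul 2).add_const π).hasDerivWithinAt
  · intro x _ y _ hxy
    simp only at hxy
    exact Real.arctan_injective (by linarith)

end Pool.Agent.H4
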