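import Mathlib
import Pool.Agent.H4.LogInt

open Complex MeasureTheory Set Filter Topology Metric
open scoped Real

namespace Pool.Agent.H4

/-- Cayley type map from the disc to the upper half plane. -/
noncomputable def cay (w : ℂ) : ℂ := I * ((1 + w) / (1 - w))

lemma cay_im {w : ℂ} (hw : ‖w‖ < 1) : 0 < (cay w).im := by
  unfold cay
  have h1 : 1 - w ≠ 0 := by
    intro h
    have : w = 1 := by linear_combination -h
    rw [this, norm_one] at hw
    exact lt_irrefl _ hw
  rw [I_mul_im, Complex.div_re]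
  have h2 : 0 < Complex.normSq (1 - w) := Complex.normSq_pos.mpr h1
  rw [← add_div]
  apply div_pos _ h2
  have h3 : w.re * w.re + w.im * w.im < 1 := by
    have := Complex.sq_norm w
    rw [Complex.normSq_apply] at this
    rw [← this]
    exact (sq_lt_one_iff₀ (norm_nonneg _)).mpr hw
  simp
  nlinarith

lemma cay_ball {z : ℂ} (hz : 0 < z.im) : ‖(z - I) / (z + I)‖ < 1 := by
  have h1 : z + I ≠ 0 := by
    intro h
    have := congrArg Complex.im h
    simp at this
    linarith
  rw [norm_div, div_lt_one (norm_pos_iff.mpr h1), ← sq_lt_sq₀ (norm_nonneg _) (norm_nonneg _),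
    Complex.sq_norm, Complex.sq_norm, Complex.normSq_apply, Complex.normSq_apply]
  simp
  nlinarith

lemma cay_inv {z : ℂ} (hz : z + I ≠ 0) : cay ((z - I) / (z + I)) = z := by
  unfold cay
  have h1 : 1 - (z - I) / (z + I) = 2 * I / (z + I) := by field_simp; ring
  have h2 : 1 + (z - I) / (z + I) = 2 * z / (z + I) := by field_simp; ring
  rw [h1, h2, div_div_div_cancel_right₀ hz]
  field_simp

lemma real_add_I_ne (x : ℝ) : (x : ℂ) + I ≠ 0 := by
  intro h
  have := congrArg Complex.im h
  simp at this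

lemma norm_cay_real (x : ℝ) : ‖((x : ℂ) - I) / (x + I)‖ = 1 := by
  rw [norm_div, div_eq_one_iff_eq (norm_ne_zero_iff.mpr (real_add_I_ne x))]
  rw [Complex.norm_def, Complex.norm_def, Complex.normSq_apply, Complex.normSq_apply]
  simp

theorem log_max_integral {G : ℂ → ℂ} (hG : DifferentiableOn ℂ G {z | -1 < z.im}) {C : ℝ}
    (hC : 1 ≤ C) (hb : ∀ z : ℂ, 0 ≤ z.im → ‖G z‖ ≤ C) {z₀ : ℂ} (hz₀ : 0 < z₀.im) (hne : G z₀ ≠ 0) :
    ∃ K : ℝ, ∀ N : ℝ, 0 ≤ N →
      K ≤ π⁻¹ * ∫ x : ℝ, (1 + x ^ 2)⁻¹ * Real.log (max ‖G x‖ (Real.exp (-N))) := by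
  have hopen : IsOpen {z : ℂ | -1 < z.im} := isOpen_lt continuous_const Complex.continuous_im
  have hcayd : ∀ w : ℂ, w ≠ 1 → DifferentiableAt ℂ cay w := by
    intro w hw
    unfold cay
    have : 1 - w ≠ 0 := sub_ne_zero.mpr (Ne.symm hw)
    fun_prop (disch := exact this)
  have hne1 : ∀ w : ℂ, w ∈ ball (0 : ℂ) 1 → w ≠ 1 := by
    intro w hw h
    rw [h] at hw
    simp at hw
  have hgd : DifferentiableOn ℂ (fun w => G (cay w)) (ball 0 1) := by
    apply hG.comp
    · intro w hw
      exact (hcayd w (hne1 w hw)).differentiableWithinAt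
    · intro w hw
      have := cay_im (by simpa using hw : ‖w‖ < 1)
      simp only [mem_ofPred_eq]
      linarith
  have hga : AnalyticOnNhd ℂ (fun w => G (cay w)) (ball 0 1) := hgd.analyticOnNhd isOpen_ball
  have hz₀I : z₀ + I ≠ 0 := by
    intro h
    have := congrArg Complex.im h
    simp at this
    linarith
  obtain ⟨n, K, hK⟩ := jensen_lower hga (w := (z₀ - I) / (z₀ + I)) (by simpa using cay_ball hz₀)
    (by rw [cay_inv hz₀I]; exact hne)
  refine ⟨K, fun N hN => ?_⟩
  have hlogC : 0 ≤ Real.log C := Real.log_nonneg hC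
  have hball : ∀ ρ : ℝ, 0 < ρ → ρ < 1 → ∀ x : ℝ, (ρ : ℂ) * (((x : ℂ) - I) / (x + I)) ∈ ball (0 : ℂ) 1 := by
    intro ρ h0 h1 x
    rw [mem_ball_zero_iff, norm_mul, norm_cay_real, mul_one, Complex.norm_real, Real.norm_eq_abs,
      abs_of_pos h0]
    exact h1
  have hmem : ∀ᶠ ρ : ℝ in 𝓝[<] 1, 0 < ρ ∧ ρ < 1 := by
    have : Ioo (0 : ℝ) 1 ∈ 𝓝[<] (1 : ℝ) := Ioo_mem_nhdsLT (by norm_num)
    filter_upwards [this] with ρ hρ using hρ
  have hlogb : ∀ a : ℝ, 0 ≤ a → a ≤ C → |Real.log (max a (Real.exp (-N)))| ≤ N + Real.log C := by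
    intro a ha haC
    have h1 : Real.exp (-N) ≤ max a (Real.exp (-N)) := le_max_right _ _
    have h2 : -N ≤ Real.log (max a (Real.exp (-N))) := by
      rw [← Real.log_exp (-N)]
      exact Real.log_le_log (Real.exp_pos _) (by simp)
    have h3 : max a (Real.exp (-N)) ≤ C := max_le haC ((Real.exp_le_one_iff.mpr (by linarith)).trans hC)
    have h4 : Real.log (max a (Real.exp (-N))) ≤ Real.log C :=
      Real.log_le_log (lt_of_lt_of_le (Real.exp_pos _) h1) h3
    rw [abs_le]
    constructor <;> linarith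
  have hDCT : Tendsto (fun ρ : ℝ => ∫ x : ℝ, (1 + x ^ 2)⁻¹ *
      Real.log (max ‖G (cay (ρ * (((x : ℂ) - I) / (x + I))))‖ (Real.exp (-N)))) (𝓝[<] 1)
      (𝓝 (∫ x : ℝ, (1 + x ^ 2)⁻¹ * Real.log (max ‖G x‖ (Real.exp (-N))))) := by
    apply tendsto_integral_filter_of_dominated_convergence (fun x : ℝ => (1 + x ^ 2)⁻¹ * (N + Real.log C))
    · filter_upwards [hmem] with ρ hρ
      apply Continuous.aestronglyMeasurable
      apply Continuous.mul
      · exact Continuous.inv₀ (by fun_prop) (fun x => by positivity)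
      · apply Continuous.log
        · apply Continuous.sup _ continuous_const
          apply Continuous.norm
          have hc1 : Continuous fun x : ℝ => (ρ : ℂ) * (((x : ℂ) - I) / (x + I)) := by
            apply Continuous.mul continuous_const
            exact Continuous.div (by fun_prop) (by fun_prop) real_add_I_ne
          exact hgd.continuousOn.comp_continuous hc1 (fun x => hball ρ hρ.1 hρ.2 x)
        · intro x
          exact ne_of_gt (lt_of_lt_of_le (Real.exp_pos _) (le_max_right _ _))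
    · filter_upwards [hmem] with ρ hρ
      apply ae_of_all
      intro x
      rw [Real.norm_eq_abs, abs_mul, abs_of_pos (by positivity : 0 < (1 + x ^ 2)⁻¹)]
      apply mul_le_mul_of_nonneg_left _ (by positivity)
      apply hlogb _ (norm_nonneg _)
      apply hb
      have := hball ρ hρ.1 hρ.2 x
      exact (cay_im (by simpa using this)).le
    · exact integrable_inv_one_add_sq.mul_const _
    · apply ae_of_all
      intro x
      apply Tendsto.const_mul
      have hx1 : ((x : ℂ) - I) / (x + I) ≠ 1 := by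
        intro h
        rw [div_eq_one_iff_eq (real_add_I_ne x)] at h
        have := congrArg Complex.im h
        simp at this
        norm_num at this
      have hc1 : Tendsto (fun ρ : ℝ => (ρ : ℂ) * (((x : ℂ) - I) / (x + I))) (𝓝[<] 1)
          (𝓝 (((x : ℂ) - I) / (x + I))) := by
        have : Tendsto (fun ρ : ℝ => (ρ : ℂ) * (((x : ℂ) - I) / (x + I))) (𝓝 1)
          (𝓝 (((1 : ℝ) : ℂ) * (((x : ℂ) - I) / (x + I)))) := by
          apply Continuous.tendsto
          fun_prop
        rw [ofReal_one, one_mul] at this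
        exact this.mono_left nhdsWithin_le_nhds
      have hc2 : Tendsto (fun ρ : ℝ => cay ((ρ : ℂ) * (((x : ℂ) - I) / (x + I)))) (𝓝[<] 1) (𝓝 (x : ℂ)) := by
        have := ((hcayd _ hx1).continuousAt.tendsto).comp hc1
        rw [cay_inv (real_add_I_ne x)] at this
        exact this
      have hGx : ContinuousAt G (x : ℂ) := by
        apply (hG _ _).continuousWithinAt.continuousAt (hopen.mem_nhds _) <;> simp
      have hc3 := (hGx.tendsto.comp hc2).norm
      have hc4 : Tendsto (fun ρ : ℝ => max ‖G (cay (ρ * (((x : ℂ) - I) / (x + I))))‖ (Real.exp (-N))) (𝓝[<] 1)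
          (𝓝 (max ‖G x‖ (Real.exp (-N)))) := hc3.max tendsto_const_nhds
      exact (Real.continuousAt_log (ne_of_gt (lt_of_lt_of_le (Real.exp_pos _) (le_max_right _ _)))).tendsto.comp hc4
  have hleft : Tendsto (fun ρ : ℝ => n * Real.log ρ + K) (𝓝[<] 1) (𝓝 K) := by
    have h1 : Tendsto (fun ρ : ℝ => n * Real.log ρ + K) (𝓝 1) (𝓝 (n * Real.log 1 + K)) :=
      (((Real.continuousAt_log one_ne_zero).tendsto).const_mul n).add_const K
    rw [Real.log_one, mul_zero, zero_add] at h1
    exact h1.mono_left nhdsWithin_le_nhds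
  refine le_of_tendsto_of_tendsto hleft (hDCT.const_mul π⁻¹) ?_
  filter_upwards [hmem] with ρ hρ
  have := hK ρ hρ.1 hρ.2 N
  rw [circleAverage_eq_line] at this
  exact this

/-- **Uniqueness theorem** from divergence of the logarithmic integral. -/
theorem eq_zero_of_small {G : ℂ → ℂ} (hG : DifferentiableOn ℂ G {z | -1 < z.im}) {C : ℝ}
    (hb : ∀ z : ℂ, 0 ≤ z.im → ‖G z‖ ≤ C) {p κ : ℝ} (hp : 0 < p) (hκ : 0 < κ) {X Y : ℕ → ℝ} {k₀ : ℕ}
    (hX : ∀ k, k₀ ≤ k → 1 ≤ X k) (hY : ∀ k, k₀ ≤ k → 0 < Y k) (hYX : ∀ k, k₀ ≤ k → Y k ≤ X k)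
    (hsep : ∀ k, k₀ ≤ k → X k + Y k ≤ X (k + 1)) (hlong : ¬Summable fun k => (Y k / X k) ^ 2)
    (hE : ∀ k, k₀ ≤ k → ∃ E : Set ℝ, MeasurableSet E ∧ E ⊆ Ioc (X k) (X k + Y k) ∧
      p * Y k ≤ volume.real E ∧ ∀ x ∈ E, ‖G x‖ ≤ Real.exp (-(κ * Y k))) :
    ∀ z : ℂ, 0 < z.im → G z = 0 := by
  intro z₀ hz₀
  by_contra hne
  set C' := max C 1 with hC'
  have hC1 : 1 ≤ C' := le_max_right _ _
  have hb' : ∀ z : ℂ, 0 ≤ z.im → ‖G z‖ ≤ C' := fun z hz => (hb z hz).trans (le_max_left _ _)
  obtain ⟨K, hK⟩ := log_max_integral hG hC1 hb' hz₀ hne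
  have hlogC : 0 ≤ Real.log C' := Real.log_nonneg hC1
  set c₀ := κ * p / 5 with hc₀
  have hc₀pos : 0 < c₀ := by positivity
  -- iterated construction
  have key : ∀ n : ℕ, ∃ N : ℝ, ∃ ψ : ℝ → ℝ, 0 ≤ N ∧ Measurable ψ ∧ (∀ x, 0 ≤ ψ x) ∧ (∀ x, ψ x ≤ N) ∧
      (∀ x, X (n + k₀) < x → ψ x = 0) ∧ (∀ x, ψ x = 0 ∨ ‖G (x : ℂ)‖ ≤ Real.exp (-(ψ x))) ∧
      c₀ * ∑ k ∈ Finset.range n, (Y (k + k₀) / X (k + k₀)) ^ 2 ≤ ∫ x : ℝ, (1 + x ^ 2)⁻¹ * ψ x := by
    intro n
    induction n with
    | zero =>
      refine ⟨0, fun _ => 0, le_rfl, measurable_const, fun _ => le_rfl, fun _ => le_rfl,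
        fun _ _ => rfl, fun _ => Or.inl rfl, ?_⟩
      simp
    | succ n ih =>
      obtain ⟨N, ψ, hN, hψm, hψ0, hψN, hψR, hψG, hψi⟩ := ih
      have hkn : k₀ ≤ n + k₀ := Nat.le_add_left _ _
      obtain ⟨E, hEm, hEs, hEv, hEG⟩ := hE (n + k₀) hkn
      have hX1 : 1 ≤ X (n + k₀) := hX _ hkn
      have hY0 : 0 < Y (n + k₀) := hY _ hkn
      have hYX1 : Y (n + k₀) ≤ X (n + k₀) := hYX _ hkn
      have hsep1 : X (n + k₀) + Y (n + k₀) ≤ X (n + 1 + k₀) := by
        have := hsep _ hkn
        rwa [show n + k₀ + 1 = n + 1 + k₀ by ring] at this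
      have hEX : ∀ x ∈ E, X (n + k₀) < x := fun x hx => (hEs hx).1
      have hmeasψ' : Measurable (fun x => ψ x + E.indicator (fun _ => κ * Y (n + k₀)) x) :=
        hψm.add (measurable_const.indicator hEm)
      have hind0 : ∀ x, 0 ≤ E.indicator (fun _ => κ * Y (n + k₀)) x := by
        intro x
        apply indicator_nonneg
        intro _ _
        positivity
      refine ⟨N + κ * Y (n + k₀), fun x => ψ x + E.indicator (fun _ => κ * Y (n + k₀)) x, by positivity,
        hmeasψ', fun x => add_nonneg (hψ0 x) (hind0 x), ?_, ?_, ?_, ?_⟩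
      · intro x
        apply add_le_add (hψN x)
        by_cases hx : x ∈ E
        · rw [indicator_of_mem hx]
        · rw [indicator_of_notMem hx]; positivity
      · intro x hx
        have h1 : x ∉ E := fun h => absurd (hEs h).2 (not_le.mpr (by linarith))
        show ψ x + E.indicator (fun _ => κ * Y (n + k₀)) x = 0
        rw [indicator_of_notMem h1, hψR x (by linarith), add_zero]
      · intro x
        by_cases hx : x ∈ E
        · right
          show ‖G (x : ℂ)‖ ≤ Real.exp (-(ψ x + E.indicator (fun _ => κ * Y (n + k₀)) x))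
          rw [indicator_of_mem hx, hψR x (hEX x hx), zero_add]
          exact hEG x hx
        · have e0 : ψ x + E.indicator (fun _ => κ * Y (n + k₀)) x = ψ x := by
            rw [indicator_of_notMem hx, add_zero]
          simp only [e0]
          exact hψG x
      · have hi1 : Integrable fun x : ℝ => (1 + x ^ 2)⁻¹ * ψ x := by
          apply Integrable.mono' (integrable_inv_one_add_sq.mul_const N)
          · exact (by fun_prop : Measurable fun x : ℝ => (1 + x ^ 2)⁻¹ * ψ x).aestronglyMeasurable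
          · apply ae_of_all
            intro x
            rw [Real.norm_eq_abs, abs_mul, abs_of_nonneg (hψ0 x), abs_of_pos (by positivity)]
            exact mul_le_mul_of_nonneg_left (hψN x) (by positivity)
        have hi2 : Integrable fun x : ℝ => (1 + x ^ 2)⁻¹ * E.indicator (fun _ => κ * Y (n + k₀)) x := by
          apply Integrable.mono' (integrable_inv_one_add_sq.mul_const (κ * Y (n + k₀)))
          · apply Measurable.aestronglyMeasurable
            apply Measurable.mul (by fun_prop)
            exact measurable_const.indicator hEm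
          · apply ae_of_all
            intro x
            rw [Real.norm_eq_abs, abs_mul, abs_of_nonneg (hind0 x), abs_of_pos (by positivity)]
            apply mul_le_mul_of_nonneg_left _ (by positivity)
            by_cases hx : x ∈ E
            · rw [indicator_of_mem hx]
            · rw [indicator_of_notMem hx]; positivity
        have e1 : ∫ x : ℝ, (1 + x ^ 2)⁻¹ * (ψ x + E.indicator (fun _ => κ * Y (n + k₀)) x)
            = (∫ x : ℝ, (1 + x ^ 2)⁻¹ * ψ x)
              + ∫ x : ℝ, (1 + x ^ 2)⁻¹ * E.indicator (fun _ => κ * Y (n + k₀)) x := by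
          rw [← integral_add hi1 hi2]
          congr 1
          ext x
          ring
        rw [e1, Finset.sum_range_succ, mul_add]
        have h2 : c₀ * (Y (n + k₀) / X (n + k₀)) ^ 2
            ≤ ∫ x : ℝ, (1 + x ^ 2)⁻¹ * E.indicator (fun _ => κ * Y (n + k₀)) x := by
          have e2 : (fun x : ℝ => (1 + x ^ 2)⁻¹ * E.indicator (fun _ => κ * Y (n + k₀)) x)
              = E.indicator (fun x => (1 + x ^ 2)⁻¹ * (κ * Y (n + k₀))) := by
            ext x
            by_cases hx : x ∈ E
            · rw [indicator_of_mem hx, indicator_of_mem hx]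
            · rw [indicator_of_notMem hx, indicator_of_notMem hx, mul_zero]
          rw [e2, integral_indicator hEm]
          have hfin : volume E ≠ ⊤ := by
            apply ne_of_lt
            refine lt_of_le_of_lt (measure_mono hEs) ?_
            rw [Real.volume_Ioc]
            exact ENNReal.ofReal_lt_top
          have h3 : ∫ x in E, (1 + (2 * X (n + k₀)) ^ 2)⁻¹ * (κ * Y (n + k₀))
              ≤ ∫ x in E, (1 + x ^ 2)⁻¹ * (κ * Y (n + k₀)) := by
            apply setIntegral_mono_on _ _ hEm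
            · intro x hx
              apply mul_le_mul_of_nonneg_right _ (by positivity)
              apply inv_anti₀ (by positivity)
              have h4 := (hEs hx).2
              have h5 : 0 ≤ x := by linarith [hEX x hx]
              have := pow_le_pow_left₀ h5 (h4.trans (by linarith : X (n + k₀) + Y (n + k₀) ≤ 2 * X (n + k₀))) 2
              linarith
            · exact integrableOn_const hfin
            · exact (integrable_inv_one_add_sq.mul_const (κ * Y (n + k₀))).integrableOn
          rw [setIntegral_const, smul_eq_mul] at h3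
          refine le_trans ?_ h3
          have h6 : (1 + (2 * X (n + k₀)) ^ 2) ≤ 5 * X (n + k₀) ^ 2 := by nlinarith
          calc c₀ * (Y (n + k₀) / X (n + k₀)) ^ 2
              = (p * Y (n + k₀)) * ((5 * X (n + k₀) ^ 2)⁻¹ * (κ * Y (n + k₀))) := by
                rw [hc₀]
                have : X (n + k₀) ≠ 0 := by linarith
                field_simp
            _ ≤ volume.real E * ((1 + (2 * X (n + k₀)) ^ 2)⁻¹ * (κ * Y (n + k₀))) := by
                apply mul_le_mul hEv _ (by positivity) (by positivity)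
                apply mul_le_mul_of_nonneg_right _ (by positivity)
                exact inv_anti₀ (by positivity) h6
        linarith
  -- divergence
  have hns : ¬Summable fun k => (Y (k + k₀) / X (k + k₀)) ^ 2 := by
    rw [summable_nat_add_iff (f := fun k => (Y k / X k) ^ 2) k₀]
    exact hlong
  have hdiv := (not_summable_iff_tendsto_nat_atTop_of_nonneg (fun k => sq_nonneg (Y (k + k₀) / X (k + k₀)))).mp hns
  obtain ⟨n, hn⟩ := (hdiv.eventually_gt_atTop ((Real.log C' - K) * π / c₀)).exists
  obtain ⟨N, ψ, hN, hψm, hψ0, hψN, hψR, hψG, hψi⟩ := key n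
  have hKN := hK N hN
  have hi1 : Integrable fun x : ℝ => (1 + x ^ 2)⁻¹ * ψ x := by
    apply Integrable.mono' (integrable_inv_one_add_sq.mul_const N)
    · exact (by fun_prop : Measurable fun x : ℝ => (1 + x ^ 2)⁻¹ * ψ x).aestronglyMeasurable
    · apply ae_of_all
      intro x
      rw [Real.norm_eq_abs, abs_mul, abs_of_nonneg (hψ0 x), abs_of_pos (by positivity)]
      exact mul_le_mul_of_nonneg_left (hψN x) (by positivity)
  have hGc : Continuous fun x : ℝ => G x :=
    hG.continuousOn.comp_continuous Complex.continuous_ofReal (fun x => by simp)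
  have hlog0 : ∀ x : ℝ, -N ≤ Real.log (max ‖G (x : ℂ)‖ (Real.exp (-N))) := by
    intro x
    rw [← Real.log_exp (-N)]
    exact Real.log_le_log (Real.exp_pos _) (by simp)
  have hexpN : Real.exp (-N) ≤ 1 := Real.exp_le_one_iff.mpr (by linarith)
  have hlog1 : ∀ x : ℝ, Real.log (max ‖G (x : ℂ)‖ (Real.exp (-N))) ≤ Real.log C' - ψ x := by
    intro x
    have hpos : 0 < max ‖G (x : ℂ)‖ (Real.exp (-N)) := lt_of_lt_of_le (Real.exp_pos _) (le_max_right _ _)
    rcases hψG x with h | h
    · rw [h, sub_zero]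
      apply Real.log_le_log hpos
      exact max_le (hb' _ (by simp)) (hexpN.trans hC1)
    · have h1 : max ‖G (x : ℂ)‖ (Real.exp (-N)) ≤ Real.exp (-(ψ x)) :=
        max_le h (Real.exp_le_exp.mpr (by linarith [hψN x]))
      have h2 := Real.log_le_log hpos h1
      rw [Real.log_exp] at h2
      linarith
  have hiL : Integrable fun x : ℝ => (1 + x ^ 2)⁻¹ * Real.log (max ‖G x‖ (Real.exp (-N))) := by
    apply Integrable.mono' (integrable_inv_one_add_sq.mul_const (N + Real.log C'))
    · apply Continuous.aestronglyMeasurable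
      apply Continuous.mul
      · exact Continuous.inv₀ (by fun_prop) (fun x => by positivity)
      · apply Continuous.log
        · exact hGc.norm.sup continuous_const
        · intro x
          exact ne_of_gt (lt_of_lt_of_le (Real.exp_pos _) (le_max_right _ _))
    · apply ae_of_all
      intro x
      rw [Real.norm_eq_abs, abs_mul, abs_of_pos (by positivity : 0 < (1 + x ^ 2)⁻¹)]
      apply mul_le_mul_of_nonneg_left _ (by positivity)
      rw [abs_le]
      have h1 := hlog0 x
      have h2 := hlog1 x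
      have h3 := hψ0 x
      constructor <;> linarith
  have hbd : ∫ x : ℝ, (1 + x ^ 2)⁻¹ * Real.log (max ‖G x‖ (Real.exp (-N)))
      ≤ ∫ x : ℝ, ((1 + x ^ 2)⁻¹ * Real.log C' - (1 + x ^ 2)⁻¹ * ψ x) := by
    apply integral_mono hiL ((integrable_inv_one_add_sq.mul_const _).sub hi1)
    intro x
    simp only [Pi.sub_apply]
    rw [← mul_sub]
    exact mul_le_mul_of_nonneg_left (hlog1 x) (by positivity)
  rw [integral_sub (integrable_inv_one_add_sq.mul_const _) hi1, integral_mul_const,
    integral_univ_inv_one_add_sq] at hbd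
  rw [div_lt_iff₀ hc₀pos] at hn
  have hpi := Real.pi_pos
  have h1 : π⁻¹ * ∫ x : ℝ, (1 + x ^ 2)⁻¹ * Real.log (max ‖G x‖ (Real.exp (-N)))
      ≤ π⁻¹ * (π * Real.log C' - c₀ * ∑ k ∈ Finset.range n, (Y (k + k₀) / X (k + k₀)) ^ 2) := by
    apply mul_le_mul_of_nonneg_left _ (by positivity)
    linarith
  have h2 : π⁻¹ * (π * Real.log C' - c₀ * ∑ k ∈ Finset.range n, (Y (k + k₀) / X (k + k₀)) ^ 2) < K := by
    rw [inv_mul_lt_iff₀ hpi]
    linarith
  linarith

end Pool.Agent.H4
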