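import Mathlib
import Pool.Agent.H4.Avg
import Pool.Agent.H4.Local3
import Pool.Agent.H4.LogInt2

open Complex MeasureTheory Set Filter Topology
open scoped Real

namespace Pool.Agent.H4

lemma sign_div_eq {a r : ℝ} (hr : 0 < r) : SignType.sign (a / r) = SignType.sign a := by
  rcases lt_trichotomy a 0 with h | h | h
  · rw [sign_neg h, sign_neg (div_neg_of_neg_of_pos h hr)]
  · rw [h, zero_div]
  · rw [sign_pos h, sign_pos (div_pos h hr)]

lemma est_at {σ : ℝ → ℝ} {B A A' A₂ c : ℝ} (H : Good σ B A A') (hc : 0 < c)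
    (hdec : ∀ z : ℂ, 1 / 2 ≤ z.im → (1 + ‖z‖ ^ 2) * ‖SS σ z‖ ≤ A₂ * Real.exp (-(2 * π * c * z.im)))
    {x r κ sg : ℝ} (hr : 2 ≤ r) (hκ : 0 ≤ κ) (hsg : |sg| = 1) {ι : Type*} {s : Finset ι} {lam : ι → ℝ}
    {Z : Set ℝ} (hZ : Z.Countable)
    (hx : ∀ t : ℝ, |t| ≤ r - 1 → t ∉ Z →
      -κ ≤ sg * σ (x + t) * ∏ i ∈ s, (SignType.sign (x + t - lam i) : ℝ))
    (hxl : ∀ i ∈ s, lam i ≠ x) :
    ‖SS σ (x + I)‖ * Real.exp (2 * π * c * r - ∑ i ∈ s, ell ((lam i - x) / r))
      ≤ (24 * A + 6 * A') * Real.exp (2 * π * c * Real.sqrt (3 * r)) + 2 * κ * r * Real.exp (2 * π * c * r) := by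
  classical
  have hr0 : 0 < r := by linarith
  set v : ι → ℝ := fun i => (lam i - x) / r with hv
  set s₁ := s.filter (fun i => |v i| < 1) with hs₁
  set s₂ := s.filter (fun i => ¬ |v i| < 1) with hs₂
  have hv1 : ∀ i ∈ s₁, |v i| < 1 := fun i hi => (Finset.mem_filter.mp hi).2
  set sg' : ℝ := sg * ∏ i ∈ s₂, (SignType.sign (x - lam i) : ℝ) with hsg'
  have hconst : ∀ t : ℝ, |t| ≤ r - 1 → ∀ i ∈ s₂,
      (SignType.sign (x + t - lam i) : ℝ) = (SignType.sign (x - lam i) : ℝ) := by
    intro t ht i hi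
    have h1 : r ≤ |lam i - x| := by
      have := (Finset.mem_filter.mp hi).2
      rw [not_lt, hv, abs_div, abs_of_pos hr0, le_div_iff₀ hr0, one_mul] at this
      exact this
    obtain ⟨h2, h3⟩ := abs_le.mp ht
    rcases le_total 0 (lam i - x) with h | h
    · rw [abs_of_nonneg h] at h1
      rw [sign_neg (by linarith), sign_neg (by linarith)]
    · rw [abs_of_nonpos h] at h1
      rw [sign_pos (by linarith), sign_pos (by linarith)]
  have hsg'1 : |sg'| = 1 := by
    rw [hsg', abs_mul, hsg, one_mul, Finset.abs_prod]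
    apply Finset.prod_eq_one
    intro i hi
    have h1 : lam i ≠ x := hxl i (Finset.mem_filter.mp hi).1
    have h2 : x - lam i ≠ 0 := sub_ne_zero.mpr (Ne.symm h1)
    rcases lt_or_gt_of_ne h2 with h | h
    · rw [sign_neg h]; simp
    · rw [sign_pos h]; simp
  have hσ : ∀ t : ℝ, |t| ≤ r - 1 → t ∉ Z →
      -κ ≤ sg' * σ (x + t) * ∏ i ∈ s₁, (SignType.sign (t / r - v i) : ℝ) := by
    intro t ht htZ
    have h1 := hx t ht htZ
    rw [← Finset.prod_filter_mul_prod_filter_not s (fun i => |v i| < 1), ← hs₁, ← hs₂,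
      Finset.prod_congr rfl (hconst t ht)] at h1
    have h2 : ∏ i ∈ s₁, (SignType.sign (t / r - v i) : ℝ) = ∏ i ∈ s₁, (SignType.sign (x + t - lam i) : ℝ) := by
      apply Finset.prod_congr rfl
      intro i _
      have : t / r - v i = (x + t - lam i) / r := by
        simp only [hv]
        field_simp
        ring
      rw [this, sign_div_eq hr0]
    rw [h2, hsg']
    refine h1.trans (le_of_eq ?_)
    ring
  have key := local_estimate H hc.le le_rfl hdec (x := x) hr hv1 hκ hsg'1 hZ hσ
  refine le_trans ?_ key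
  apply mul_le_mul_of_nonneg_left _ (norm_nonneg _)
  refine le_trans (le_of_eq ?_) (norm_mult_I hc.le hr0 hv1)
  have h3 : ∏ i ∈ s₁, |wr (v i)| = Real.exp (-∑ i ∈ s₁, ell (v i)) := by
    rw [← Finset.sum_neg_distrib, Real.exp_sum]
    apply Finset.prod_congr rfl
    intro i hi
    apply abs_wr_eq (hv1 i hi)
    have h1 : lam i ≠ x := hxl i (Finset.mem_filter.mp hi).1
    simp only [hv]
    exact div_ne_zero (sub_ne_zero.mpr h1) hr0.ne'
  have h4 : ∑ i ∈ s, ell ((lam i - x) / r) = ∑ i ∈ s₁, ell (v i) := by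
    rw [hs₁, Finset.sum_filter]
    apply Finset.sum_congr rfl
    intro i _
    split_ifs with h
    · rfl
    · exact ell_ge (not_lt.mp h)
  rw [h3, h4, ← Real.exp_add]
  rfl

/-- **Deterministic oscillation theorem.** -/
theorem core {σ : ℝ → ℝ} {B A A' A₂ c : ℝ} (H : Good σ B A A') (hc : 0 < c) (hc1 : c ≤ 1)
    (hdec : ∀ z : ℂ, 1 / 2 ≤ z.im → (1 + ‖z‖ ^ 2) * ‖SS σ z‖ ≤ A₂ * Real.exp (-(2 * π * c * z.im)))
    {ε δ : ℝ} (hδ : 0 < δ) (hε : 2 - ε < 2 * c) {X Y : ℕ → ℝ}
    (hYX : ∀ k, Y k ≤ X k) (hsep : ∀ k, X k + Y k ≤ X (k + 1))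
    (hYinf : Tendsto Y atTop atTop) (hlong : ¬Summable fun k => (Y k / X k) ^ 2)
    {Z : Set ℝ} (hZ : Z.Countable)
    (hyp : ∀ᶠ k in atTop, ∃ (s : Finset ℕ) (lam : ℕ → ℝ) (sg : ℝ), |sg| = 1 ∧
      (s.card : ℝ) ≤ (2 - ε) * Y k ∧ ∀ y ∈ Icc (X k) (X k + Y k), y ∉ Z →
        -Real.exp (-(δ * Y k)) ≤ sg * σ y * ∏ i ∈ s, (SignType.sign (y - lam i) : ℝ)) :
    ∀ z : ℂ, 0 < z.im → SS σ z = 0 := by
  have hpi := Real.pi_pos
  have hpi4 := Real.pi_lt_four
  set ε₁ := 2 * c - (2 - ε) with hε₁
  have hε₁0 : 0 < ε₁ := by linarith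
  set θ := min (1 / 4) (min (ε₁ / 8) (δ / 16)) with hθ
  have hθ0 : 0 < θ := by positivity
  have hθ1 : θ ≤ 1 / 4 := min_le_left _ _
  have hθ2 : θ ≤ ε₁ / 8 := (min_le_right _ _).trans (min_le_left _ _)
  have hθ3 : θ ≤ δ / 16 := (min_le_right _ _).trans (min_le_right _ _)
  set C₃ := 24 * A + 6 * A' with hC₃
  set κ₀ := π * θ * ε₁ / 8 with hκ₀
  have hκ₀0 : 0 < κ₀ := by positivity
  -- growth condition
  have hgrow : ∀ᶠ X : ℝ in atTop, (|C₃| + 2) * Real.exp (2 * π * Real.sqrt (3 * (θ * X))) ≤ Real.exp (κ₀ * X) := by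
    have h1 : Tendsto (fun X : ℝ => κ₀ * X - 2 * π * Real.sqrt (3 * (θ * X))) atTop atTop := by
      have h2 : Tendsto (fun Y : ℝ => Y * (κ₀ * Y - 2 * π * Real.sqrt (3 * θ))) atTop atTop := by
        apply Tendsto.atTop_mul_atTop₀ tendsto_id
        exact tendsto_atTop_add_const_right _ _ (tendsto_id.const_mul_atTop hκ₀0)
      have h3 := h2.comp Real.tendsto_sqrt_atTop
      refine h3.congr' ?_
      filter_upwards [eventually_ge_atTop 0] with X hX
      simp only [Function.comp]
      have h4 : Real.sqrt (3 * (θ * X)) = Real.sqrt (3 * θ) * Real.sqrt X := by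
        rw [← mul_assoc, Real.sqrt_mul (by positivity)]
      rw [h4]
      have h5 : Real.sqrt X * Real.sqrt X = X := Real.mul_self_sqrt hX
      linear_combination κ₀ * h5
    filter_upwards [h1.eventually_ge_atTop (Real.log (|C₃| + 2))] with X hX
    have h6 : 0 < |C₃| + 2 := by positivity
    calc (|C₃| + 2) * Real.exp (2 * π * Real.sqrt (3 * (θ * X)))
        = Real.exp (Real.log (|C₃| + 2) + 2 * π * Real.sqrt (3 * (θ * X))) := by
          rw [Real.exp_add, Real.exp_log h6]
      _ ≤ Real.exp (κ₀ * X) := by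
          apply Real.exp_le_exp.mpr
          linarith
  have hlarge := (hYinf.eventually (hgrow.and (eventually_ge_atTop (max 1 (2 / θ))))).and hyp
  obtain ⟨k₀, hk₀⟩ := eventually_atTop.mp hlarge
  have hSd : DifferentiableOn ℂ (SS σ) {z | 0 < z.im} := differentiableOn_CT H.int.ofReal
  have hopen : IsOpen {z : ℂ | 0 < z.im} := isOpen_lt continuous_const Complex.continuous_im
  have hY1 : ∀ k, k₀ ≤ k → 1 ≤ Y k := fun k hk => (le_max_left _ _).trans (hk₀ k hk).1.2
  -- small values on a set of positive proportion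
  have hzero : ∀ z : ℂ, 0 < z.im → (fun z => SS σ (z + I)) z = 0 := by
    apply eq_zero_of_small (C := A₂) (p := ε₁ / 16) (κ := κ₀) (k₀ := k₀) _ _ (by positivity) hκ₀0
      (fun k hk => (hY1 k hk).trans (hYX k)) (fun k hk => by linarith [hY1 k hk]) (fun k _ => hYX k)
      (fun k _ => hsep k) hlong
    · intro k hk
      obtain ⟨s, lam, sg, hsg, hcard, hsign⟩ := (hk₀ k hk).2
      have hgr := (hk₀ k hk).1.1
      have hY1k := hY1 k hk
      have hYθ : 2 / θ ≤ Y k := (le_max_right _ _).trans (hk₀ k hk).1.2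
      generalize Y k = T at hgr hY1k hYθ hcard hsign ⊢
      generalize X k = U at hsign ⊢
      have hTpos : 0 < T := by linarith
      set r := θ * T with hr
      have hr2 : 2 ≤ r := by
        rw [div_le_iff₀ hθ0] at hYθ
        linarith
      have hr0 : 0 < r := by linarith
      have hba : U + r < U + T - r := by
        have : r ≤ 1 / 4 * T := mul_le_mul_of_nonneg_right hθ1 hTpos.le
        nlinarith
      have hlen : U + T - r - (U + r) = (1 - 2 * θ) * T := by rw [hr]; ring
      obtain ⟨E, hEm, hEs, hEl, hEq, hEv⟩ := good_set s lam (q := π * r * ε₁ / 2) hba hr0 hc (by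
        rw [hlen]
        have h1 : (s.card : ℝ) * (r * π) ≤ ((2 - ε) * T) * (r * π) :=
          mul_le_mul_of_nonneg_right hcard (by positivity)
        refine h1.trans ?_
        have h2 : 2 * π * c * r - π * r * ε₁ / 2 = π * r * (2 * c - ε₁ / 2) := by ring
        rw [h2]
        have h3 : (2 - ε) ≤ (2 * c - ε₁ / 2) * (1 - 2 * θ) := by
          have e1 : 2 - ε = 2 * c - ε₁ := by rw [hε₁]; ring
          rw [e1]
          have h4 : 4 * θ * c ≤ ε₁ / 2 := by nlinarith
          nlinarith [mul_pos hε₁0 hθ0]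
        have h5 := mul_le_mul_of_nonneg_left h3 (by positivity : 0 ≤ π * r * T)
        nlinarith)
      refine ⟨E, hEm, ?_, ?_, ?_⟩
      · intro x hx
        have := hEs hx
        exact ⟨by linarith [this.1], by linarith [this.2]⟩
      · -- measure
        rw [hlen] at hEv
        have h1 : (1 - 2 * θ) * T ≥ 1 / 2 * T := by
          apply mul_le_mul_of_nonneg_right _ hTpos.le
          linarith
        have h2 : π * r * ε₁ / 2 / 2 * (1 / 2 * T) ≤ 2 * π * c * r * volume.real E := by
          refine le_trans ?_ hEv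
          apply mul_le_mul_of_nonneg_left h1 (by positivity)
        have h3 : 2 * π * c * r * volume.real E ≤ 2 * π * r * volume.real E := by
          apply mul_le_mul_of_nonneg_right _ measureReal_nonneg
          have : 0 ≤ 2 * π * r := by positivity
          nlinarith
        have h4 : (2 * π * r) * (ε₁ / 16 * T) ≤ (2 * π * r) * volume.real E := by
          calc (2 * π * r) * (ε₁ / 16 * T) = π * r * ε₁ / 2 / 2 * (1 / 2 * T) := by ring
            _ ≤ _ := h2.trans h3
        exact le_of_mul_le_mul_left h4 (by positivity)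
      · intro x hx
        have hxI := hEs hx
        have hZx : ((fun t => x + t) ⁻¹' Z).Countable :=
          hZ.preimage_of_injOn (fun a _ b _ hab => by simpa using hab)
        have hloc : ∀ t : ℝ, |t| ≤ r - 1 → t ∉ ((fun t => x + t) ⁻¹' Z) →
            -Real.exp (-(δ * T)) ≤ sg * σ (x + t) *
            ∏ i ∈ s, (SignType.sign (x + t - lam i) : ℝ) := by
          intro t ht htZ
          obtain ⟨h1, h2⟩ := abs_le.mp ht
          apply hsign
          · exact ⟨by linarith [hxI.1], by linarith [hxI.2]⟩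
          · exact htZ
        have key := est_at H hc hdec (x := x) hr2 (Real.exp_nonneg _) hsg hZx hloc (hEl x hx)
        have hq := hEq x hx
        have h1 : ‖SS σ (x + I)‖ * Real.exp (π * r * ε₁ / 2 / 2)
            ≤ C₃ * Real.exp (2 * π * c * Real.sqrt (3 * r)) + 2 * Real.exp (-(δ * T)) * r * Real.exp (2 * π * c * r) := by
          refine le_trans ?_ key
          apply mul_le_mul_of_nonneg_left _ (norm_nonneg _)
          exact Real.exp_le_exp.mpr hq
        have h2 : C₃ * Real.exp (2 * π * c * Real.sqrt (3 * r)) ≤ |C₃| * Real.exp (2 * π * Real.sqrt (3 * (θ * T))) := by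
          apply mul_le_mul (le_abs_self _) _ (Real.exp_nonneg _) (abs_nonneg _)
          apply Real.exp_le_exp.mpr
          rw [← hr]
          apply mul_le_mul_of_nonneg_right _ (Real.sqrt_nonneg _)
          nlinarith
        have h3 : 2 * Real.exp (-(δ * T)) * r * Real.exp (2 * π * c * r) ≤ 2 * 1 := by
          have e1 : 2 * Real.exp (-(δ * T)) * r * Real.exp (2 * π * c * r)
              = 2 * (r * Real.exp (2 * π * c * r - δ * T)) := by
            rw [Real.exp_sub, Real.exp_neg]
            field_simp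
          rw [e1]
          apply mul_le_mul_of_nonneg_left _ (by norm_num)
          have h4 : 2 * π * c * r - δ * T ≤ -r := by
            have h5 : 16 * r ≤ δ * T := by
              have := mul_le_mul_of_nonneg_right hθ3 hTpos.le
              rw [← hr] at this
              linarith
            have h6 : 2 * π * c * r ≤ 8 * r := by
              apply mul_le_mul_of_nonneg_right _ hr0.le
              nlinarith
            linarith
          have h5 : r * Real.exp (2 * π * c * r - δ * T) ≤ r * Real.exp (-r) :=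
            mul_le_mul_of_nonneg_left (Real.exp_le_exp.mpr h4) hr0.le
          refine h5.trans ?_
          rw [Real.exp_neg, ← div_eq_mul_inv, div_le_one (Real.exp_pos _)]
          linarith [Real.add_one_le_exp r]
        have h4 : (1 : ℝ) ≤ Real.exp (2 * π * Real.sqrt (3 * (θ * T))) := by
          apply Real.one_le_exp
          positivity
        have h5 : ‖SS σ (x + I)‖ * Real.exp (π * r * ε₁ / 2 / 2) ≤ Real.exp (κ₀ * T) := by
          refine (h1.trans ?_).trans hgr
          nlinarith
        have h6 : Real.exp (π * r * ε₁ / 2 / 2) = Real.exp (κ₀ * T) * Real.exp (κ₀ * T) := by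
          rw [← Real.exp_add]
          congr 1
          rw [hκ₀, hr]
          ring
        rw [h6, ← mul_assoc] at h5
        have h7 : ‖SS σ (x + I)‖ * Real.exp (κ₀ * T) ≤ 1 := by
          by_contra hcon
          push Not at hcon
          have := mul_lt_mul_of_pos_right hcon (Real.exp_pos (κ₀ * T))
          linarith
        show ‖SS σ (x + I)‖ ≤ Real.exp (-(κ₀ * T))
        rw [Real.exp_neg, ← one_div, le_div_iff₀ (Real.exp_pos _)]
        exact h7
    · apply hSd.comp (by fun_prop)
      intro z hz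
      simp only [mem_ofPred_eq, add_im, I_im] at hz ⊢
      linarith
    · intro z hz
      have him : (z + I).im = z.im + 1 := by simp
      have h1 := hdec (z + I) (by rw [him]; linarith)
      have h2 : 0 ≤ ‖z + I‖ ^ 2 := sq_nonneg _
      have h3 : ‖SS σ (z + I)‖ ≤ (1 + ‖z + I‖ ^ 2) * ‖SS σ (z + I)‖ := by
        apply le_mul_of_one_le_left (norm_nonneg _)
        linarith
      have hA2 : 0 ≤ A₂ := by
        by_contra hneg
        push Not at hneg
        have h8 : A₂ * Real.exp (-(2 * π * c * (z + I).im)) < 0 := mul_neg_of_neg_of_pos hneg (Real.exp_pos _)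
        have h9 : 0 ≤ (1 + ‖z + I‖ ^ 2) * ‖SS σ (z + I)‖ := by positivity
        linarith
      have h4 : Real.exp (-(2 * π * c * (z + I).im)) ≤ 1 := by
        apply Real.exp_le_one_iff.mpr
        rw [him]
        have : 0 ≤ 2 * π * c * (z.im + 1) := by positivity
        linarith
      calc ‖SS σ (z + I)‖ ≤ _ := h3
        _ ≤ _ := h1
        _ ≤ A₂ * 1 := mul_le_mul_of_nonneg_left h4 hA2
        _ = A₂ := mul_one _
  -- identity theorem
  have han : AnalyticOnNhd ℂ (SS σ) {z | 0 < z.im} := hSd.analyticOnNhd hopen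
  have hconn : IsPreconnected {z : ℂ | 0 < z.im} := by
    have : Convex ℝ {z : ℂ | 0 < z.im} := by
      have := (convex_Ioi (0 : ℝ)).is_linear_preimage Complex.imLm.isLinear
      exact this
    exact this.isPreconnected
  have hev : SS σ =ᶠ[𝓝 (2 * I)] 0 := by
    have : {z : ℂ | 1 < z.im} ∈ 𝓝 (2 * I) := by
      apply (isOpen_lt continuous_const Complex.continuous_im).mem_nhds
      simp
    filter_upwards [this] with z hz
    have h1 : 0 < (z - I).im := by
      simp only [sub_im, I_im]
      have : 1 < z.im := hz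
      linarith
    have := hzero (z - I) h1
    simpa using this
  have := han.eqOn_zero_of_preconnected_of_eventuallyEq_zero hconn (by simp : (2 * I : ℂ) ∈ {z : ℂ | 0 < z.im}) hev
  intro z hz
  exact this hz

end Pool.Agent.H4
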