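import Mathlib

/-!
# Asymptotics of the digamma function in the right half plane
-/

open Complex Filter Set MeasureTheory Topology

namespace Pool.Agent.H4

/-- Euler's approximants are bounded by the real Gamma function. -/
theorem norm_GammaSeq_le {s : ℂ} (hs : 0 < s.re) {n : ℕ} (hn : n ≠ 0) :
    ‖GammaSeq s n‖ ≤ Real.Gamma s.re := by
  rw [GammaSeq_eq_approx_Gamma_integral hs hn, Real.Gamma_eq_integral hs]
  have h0 : (0 : ℝ) ≤ n := Nat.cast_nonneg n
  rw [intervalIntegral.integral_of_le h0]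
  refine (norm_integral_le_integral_norm _).trans ?_
  have hint : IntegrableOn (fun x : ℝ => Real.exp (-x) * x ^ (s.re - 1)) (Ioi 0) :=
    Real.GammaIntegral_convergent hs
  refine (integral_mono_of_nonneg (Eventually.of_forall fun x => norm_nonneg _)
    (hint.mono_set Ioc_subset_Ioi_self) ?_).trans ?_
  · rw [EventuallyLE, ae_restrict_iff' measurableSet_Ioc]
    refine Eventually.of_forall fun x hx => ?_
    have hx0 : 0 < x := hx.1
    have hxn : x ≤ n := hx.2
    have hn' : (0 : ℝ) < n := by positivity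
    rw [norm_mul, Complex.norm_of_nonneg
      (pow_nonneg (sub_nonneg.mpr <| div_le_one_of_le₀ hxn <| by positivity) _),
      norm_cpow_eq_rpow_re_of_pos hx0, sub_re, one_re]
    gcongr
    exact Real.one_sub_div_pow_le_exp_neg hxn
  · apply setIntegral_mono_set hint
    · rw [EventuallyLE, ae_restrict_iff' measurableSet_Ioi]
      refine Eventually.of_forall fun x hx => ?_
      have hx0 : (0:ℝ) < x := hx
      positivity
    · exact Eventually.of_forall (fun x hx => Ioc_subset_Ioi_self hx)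

theorem differentiableAt_GammaSeq {s : ℂ} (hs : 0 < s.re) {n : ℕ} (hn : n ≠ 0) :
    DifferentiableAt ℂ (fun z => GammaSeq z n) s := by
  unfold GammaSeq
  have h1 : (n : ℂ) ≠ 0 := Nat.cast_ne_zero.mpr hn
  have h2 : ∏ j ∈ Finset.range (n + 1), (s + j) ≠ 0 := by
    rw [Finset.prod_ne_zero_iff]
    intro j _ h
    have := congrArg Complex.re h
    simp at this
    have hj : (0:ℝ) ≤ j := Nat.cast_nonneg j
    linarith
  apply DifferentiableAt.div
  · apply DifferentiableAt.mul_const
    apply DifferentiableAt.const_cpow differentiableAt_id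
    left; exact h1
  · fun_prop
  · exact h2

theorem logDeriv_GammaSeq {s : ℂ} (hs : 0 < s.re) {n : ℕ} (hn : n ≠ 0) :
    logDeriv (fun z => GammaSeq z n) s = Complex.log n - ∑ j ∈ Finset.range (n + 1), (s + j)⁻¹ := by
  unfold GammaSeq
  have h1 : (n : ℂ) ≠ 0 := Nat.cast_ne_zero.mpr hn
  have h3 : ∀ j ∈ Finset.range (n + 1), (s + j : ℂ) ≠ 0 := by
    intro j _ h
    have := congrArg Complex.re h
    simp at this
    have hj : (0:ℝ) ≤ j := Nat.cast_nonneg j
    linarith
  have h2 : ∏ j ∈ Finset.range (n + 1), (s + j) ≠ 0 := by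
    rw [Finset.prod_ne_zero_iff]
    exact h3
  have h4 : (n.factorial : ℂ) ≠ 0 := Nat.cast_ne_zero.mpr (Nat.factorial_ne_zero n)
  have h5 : (n : ℂ) ^ s ≠ 0 := by
    rw [Ne, cpow_eq_zero_iff]; tauto
  rw [logDeriv_div]
  · rw [logDeriv_mul_const _ _ h4]
    have e1 : logDeriv (fun z => (n : ℂ) ^ z) s = Complex.log n := by
      rw [logDeriv_apply]
      have := (hasDerivAt_id s).const_cpow (c := (n : ℂ)) (Or.inl h1)
      simp only [id, mul_one] at this
      rw [this.deriv]
      field_simp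
    have e2 : logDeriv (fun z : ℂ => ∏ j ∈ Finset.range (n + 1), (z + j)) s
        = ∑ j ∈ Finset.range (n + 1), (s + j)⁻¹ := by
      rw [logDeriv_prod]
      · refine Finset.sum_congr rfl fun j _ => ?_
        rw [logDeriv_apply]
        simp
      · exact h3
      · intro j _; fun_prop
    rw [e1, e2]
  · exact mul_ne_zero h5 h4
  · exact h2
  · apply DifferentiableAt.mul_const
    apply DifferentiableAt.const_cpow differentiableAt_id
    left; exact h1
  · fun_prop

theorem deriv_GammaSeq_tendsto {s : ℂ} (hs : 0 < s.re) :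
    Tendsto (fun n : ℕ => deriv (fun z => GammaSeq z n) s) atTop (𝓝 (deriv Gamma s)) := by
  set r : ℝ := s.re / 2 with hr
  have hr0 : 0 < r := by positivity
  have hre : ∀ z ∈ Metric.closedBall s r, s.re / 2 ≤ z.re ∧ z.re ≤ 3 * s.re / 2 := by
    intro z hz
    have h1 : |(z - s).re| ≤ r := (abs_re_le_norm _).trans (by simpa [dist_eq_norm] using hz)
    rw [sub_re, abs_le] at h1
    constructor <;> linarith [h1.1, h1.2]
  have hpos : ∀ z ∈ Metric.closedBall s r, 0 < z.re := fun z hz => by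
    have := (hre z hz).1; linarith
  -- bound
  obtain ⟨M, hM⟩ : ∃ M, ∀ x ∈ Icc (s.re / 2) (3 * s.re / 2), Real.Gamma x ≤ M := by
    have hc : ContinuousOn Real.Gamma (Icc (s.re / 2) (3 * s.re / 2)) := by
      intro x hx
      have hx0 : 0 < x := lt_of_lt_of_le (by positivity) hx.1
      exact (Real.differentiableAt_Gamma (fun m => by
        have : (0:ℝ) ≤ m := Nat.cast_nonneg m
        intro h; linarith)).continuousAt.continuousWithinAt
    obtain ⟨M, hM⟩ := (isCompact_Icc.bddAbove_image hc)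
    exact ⟨M, fun x hx => hM ⟨x, hx, rfl⟩⟩
  have key : ∀ f : ℂ → ℂ, DifferentiableOn ℂ f (Metric.closedBall s r) →
      (∮ z in C(s, r), (1 / (z - s) ^ 2) • f z) = (2 * Real.pi * I) • deriv f s :=
    fun f hf => hf.deriv_eq_smul_circleIntegral hr0
  have hG : DifferentiableOn ℂ Gamma (Metric.closedBall s r) := by
    intro z hz
    refine (differentiableAt_Gamma z (fun m h => ?_)).differentiableWithinAt
    have := hpos z hz
    rw [h] at this
    simp at this
    have : (0:ℝ) ≤ m := Nat.cast_nonneg m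
    linarith
  have hGn : ∀ n : ℕ, n ≠ 0 → DifferentiableOn ℂ (fun z => GammaSeq z n) (Metric.closedBall s r) :=
    fun n hn z hz => (differentiableAt_GammaSeq (hpos z hz) hn).differentiableWithinAt
  have h2pi : (2 * Real.pi * I : ℂ) ≠ 0 := two_pi_I_ne_zero
  have hlim : Tendsto (fun n : ℕ => ∮ z in C(s, r), (1 / (z - s) ^ 2) • GammaSeq z n) atTop
      (𝓝 (∮ z in C(s, r), (1 / (z - s) ^ 2) • Gamma z)) := by
    unfold circleIntegral
    have hmem : ∀ θ : ℝ, circleMap s r θ ∈ Metric.closedBall s r := fun θ =>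
      circleMap_mem_closedBall s hr0.le θ
    apply intervalIntegral.tendsto_integral_filter_of_dominated_convergence
      (fun _ => r * ((1 / r ^ 2) * M))
    · filter_upwards [eventually_ne_atTop 0] with n hn
      apply Continuous.aestronglyMeasurable
      have hc1 : Continuous fun θ => GammaSeq (circleMap s r θ) n :=
        (hGn n hn).continuousOn.comp_continuous (continuous_circleMap s r) hmem
      have hc2 : Continuous fun θ => (circleMap s r θ - s) ^ 2 := by fun_prop
      have hne : ∀ θ, (circleMap s r θ - s) ^ 2 ≠ 0 := by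
        intro θ
        simp [circleMap, hr0.ne']
      have hc3 : Continuous fun θ => deriv (circleMap s r) θ := by
        simp_rw [deriv_circleMap]; fun_prop
      exact hc3.smul ((continuous_const.div hc2 hne).smul hc1)
    · filter_upwards [eventually_ne_atTop 0] with n hn
      refine Eventually.of_forall fun θ _ => ?_
      have hz := hmem θ
      have hM' : ‖GammaSeq (circleMap s r θ) n‖ ≤ M :=
        (norm_GammaSeq_le (hpos _ hz) hn).trans (hM _ ⟨(hre _ hz).1, (hre _ hz).2⟩)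
      rw [norm_smul, norm_smul]
      have e1 : ‖deriv (circleMap s r) θ‖ = r := by
        rw [deriv_circleMap]; simp [circleMap, abs_of_pos hr0]
      have e2 : ‖(1 / (circleMap s r θ - s) ^ 2 : ℂ)‖ = 1 / r ^ 2 := by
        simp [circleMap, abs_of_pos hr0]
      rw [e1, e2]
      gcongr
    · exact intervalIntegrable_const
    · refine Eventually.of_forall fun θ _ => ?_
      apply Tendsto.const_smul
      apply Tendsto.const_smul
      exact GammaSeq_tendsto_Gamma _
  rw [key Gamma hG] at hlim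
  have hlim2 : Tendsto (fun n : ℕ => (2 * Real.pi * I : ℂ) • deriv (fun z => GammaSeq z n) s) atTop
      (𝓝 ((2 * Real.pi * I : ℂ) • deriv Gamma s)) := by
    refine hlim.congr' ?_
    filter_upwards [eventually_ne_atTop 0] with n hn
    exact key _ (hGn n hn)
  have := hlim2.const_smul (2 * Real.pi * I : ℂ)⁻¹
  simp only [smul_smul, inv_mul_cancel₀ h2pi, one_smul] at this
  exact this

/-- Euler's formula for the digamma function. -/
theorem digamma_tendsto {s : ℂ} (hs : 0 < s.re) :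
    Tendsto (fun n : ℕ => Complex.log n - ∑ j ∈ Finset.range (n + 1), (s + j)⁻¹) atTop
      (𝓝 (digamma s)) := by
  have h1 := (deriv_GammaSeq_tendsto hs).div (GammaSeq_tendsto_Gamma s) (by
    exact Gamma_ne_zero_of_re_pos hs)
  rw [digamma_def, logDeriv_apply]
  refine h1.congr' ?_
  filter_upwards [eventually_ne_atTop 0] with n hn
  rw [← logDeriv_GammaSeq hs hn, logDeriv_apply]
  rfl

/-- The elementary bound for the sums that occur below. -/
theorem sum_inv_sq_le {A : ℝ} (hA : 0 < A) (n : ℕ) :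
    ∑ j ∈ Finset.range (n + 1), 1 / (A ^ 2 + (j : ℝ) ^ 2) ≤ 1 / A ^ 2 + 2 / A := by
  have key : ∀ m : ℕ, ∑ j ∈ Finset.range (m + 1), 1 / (A ^ 2 + (j : ℝ) ^ 2)
      ≤ 1 / A ^ 2 + 2 / A - 2 / (A + m) := by
    intro m
    induction m with
    | zero => simp
    | succ k ih =>
      rw [Finset.sum_range_succ]
      have hk : (0:ℝ) ≤ k := Nat.cast_nonneg k
      have h1 : 1 / (A ^ 2 + ((k + 1 : ℕ) : ℝ) ^ 2) ≤ 2 / (A + k) - 2 / (A + ((k + 1 : ℕ) : ℝ)) := by
        push_cast
        rw [div_sub_div _ _ (by positivity) (by positivity), div_le_div_iff₀ (by positivity) (by positivity)]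
        nlinarith [sq_nonneg (A - (k + 1)), mul_nonneg hA.le hk]
      linarith
  have h2 : 0 ≤ 2 / (A + (n : ℝ)) := by positivity
  linarith [key n]

theorem norm_add_nat_sq_ge {s : ℂ} (hs : 0 < s.re) (j : ℕ) :
    ‖s‖ ^ 2 + (j : ℝ) ^ 2 ≤ ‖s + j‖ ^ 2 := by
  rw [Complex.sq_norm, Complex.sq_norm, normSq_apply, normSq_apply]
  simp only [add_re, natCast_re, add_im, natCast_im, add_zero]
  have : (0:ℝ) ≤ j := Nat.cast_nonneg j
  nlinarith [mul_nonneg hs.le this]

theorem norm_pos_of_re_pos {s : ℂ} (hs : 0 < s.re) : 0 < ‖s‖ := by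
  rw [norm_pos_iff]
  rintro rfl
  simp at hs

theorem sum_inv_norm_sq_le {s : ℂ} (hs : 0 < s.re) (n : ℕ) :
    ∑ j ∈ Finset.range (n + 1), 1 / ‖s + j‖ ^ 2 ≤ 1 / ‖s‖ ^ 2 + 2 / ‖s‖ := by
  have h0 := norm_pos_of_re_pos hs
  refine (Finset.sum_le_sum fun j _ => ?_).trans (sum_inv_sq_le h0 n)
  exact one_div_le_one_div_of_le (by positivity) (norm_add_nat_sq_ge hs j)

/-- One term: `log (z + 1) - log z - 1 / z`. -/
theorem norm_log_add_one_sub_log_sub_inv_le {z : ℂ} (hz : 0 < z.re) :
    ‖Complex.log (z + 1) - Complex.log z - z⁻¹‖ ≤ 1 / ‖z‖ ^ 2 := by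
  have hz0 := norm_pos_of_re_pos hz
  have hz1 : z ≠ 0 := norm_pos_iff.mp hz0
  let f : ℝ → ℂ := fun v => Complex.log (z + v) - v * z⁻¹
  have hre : ∀ v : ℝ, 0 ≤ v → 0 < (z + v).re := by
    intro v hv; simp; linarith
  have hd : ∀ v ∈ Icc (0:ℝ) 1, HasDerivWithinAt f ((z + v)⁻¹ - z⁻¹) (Icc 0 1) v := by
    intro v hv
    have h1 : HasDerivAt (fun v : ℝ => (z + v : ℂ)) 1 v := by
      simpa using (Complex.ofRealCLM.hasDerivAt (x := v)).const_add z
    have h2 : HasDerivAt (fun v : ℝ => Complex.log (z + v)) ((z + v)⁻¹) v := by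
      have h3 := h1.clog_real (Or.inl (hre v hv.1))
      simpa using h3
    have h4 : HasDerivAt (fun v : ℝ => (v : ℂ) * z⁻¹) (z⁻¹) v := by
      simpa using (Complex.ofRealCLM.hasDerivAt (x := v)).mul_const z⁻¹
    exact (h2.sub h4).hasDerivWithinAt
  have hb : ∀ v ∈ Ico (0:ℝ) 1, ‖(z + v)⁻¹ - z⁻¹‖ ≤ 1 / ‖z‖ ^ 2 := by
    intro v hv
    have hzv : 0 < ‖z + v‖ := norm_pos_of_re_pos (hre v hv.1)
    have hzv1 : z + v ≠ 0 := norm_pos_iff.mp hzv
    have e : (z + v)⁻¹ - z⁻¹ = - v / ((z + v) * z) := by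
      field_simp; ring
    rw [e, norm_div, norm_neg, norm_mul, Complex.norm_real, Real.norm_eq_abs, abs_of_nonneg hv.1]
    have h5 : ‖z‖ ≤ ‖z + v‖ := by
      rw [← sq_le_sq₀ (norm_nonneg _) (norm_nonneg _), Complex.sq_norm, Complex.sq_norm,
        normSq_apply, normSq_apply]
      simp only [add_re, ofReal_re, add_im, ofReal_im, add_zero]
      nlinarith [mul_nonneg hz.le hv.1, hv.1]
    rw [div_le_div_iff₀ (by positivity) (by positivity)]
    nlinarith [hv.2, mul_nonneg hz0.le (sub_nonneg.mpr h5), sq_nonneg ‖z‖, hv.1,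
      mul_nonneg hz0.le hz0.le]
  have := norm_image_sub_le_of_norm_deriv_le_segment' hd hb 1 (right_mem_Icc.mpr zero_le_one)
  simp only [f, ofReal_one, ofReal_zero, zero_mul, add_zero, one_mul, sub_zero, mul_one] at this
  have e : Complex.log (z + 1) - z⁻¹ - Complex.log z = Complex.log (z + 1) - Complex.log z - z⁻¹ := by
    ring
  rw [e] at this
  exact this

theorem log_telescope (s : ℂ) (n : ℕ) :
    ∑ j ∈ Finset.range (n + 1), (Complex.log (s + j + 1) - Complex.log (s + j))
      = Complex.log (s + (n + 1 : ℕ)) - Complex.log s := by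
  have := Finset.sum_range_sub (fun j : ℕ => Complex.log (s + j)) (n + 1)
  simp only [Nat.cast_zero, add_zero] at this
  rw [← this]
  refine Finset.sum_congr rfl fun j _ => ?_
  push_cast
  rw [add_assoc]

theorem log_add_nat_sub_log_tendsto (s : ℂ) (hs : 0 < s.re) :
    Tendsto (fun n : ℕ => Complex.log (s + (n + 1 : ℕ)) - Complex.log n) atTop (𝓝 0) := by
  have h1 : Tendsto (fun n : ℕ => Complex.log (1 + (s + 1) * (n : ℂ)⁻¹)) atTop (𝓝 (Complex.log 1)) := by
    have h2 : Tendsto (fun n : ℕ => (1 + (s + 1) * (n : ℂ)⁻¹)) atTop (𝓝 1) := by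
      have h3 : Tendsto (fun n : ℕ => (n : ℂ)⁻¹) atTop (𝓝 0) := by
        exact tendsto_inv_atTop_nhds_zero_nat (𝕜 := ℂ)
      have := (h3.const_mul (s + 1)).const_add 1
      simpa using this
    exact (continuousAt_clog (by simp [slitPlane])).tendsto.comp h2
  rw [Complex.log_one] at h1
  refine h1.congr' ?_
  filter_upwards [eventually_ne_atTop 0] with n hn
  have hn0 : (0:ℝ) < n := by positivity
  have hn1 : (n : ℂ) ≠ 0 := Nat.cast_ne_zero.mpr hn
  have e1 : (s + (n + 1 : ℕ) : ℂ) = (n : ℝ) * (1 + (s + 1) * (n : ℂ)⁻¹) := by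
    push_cast; field_simp; ring
  have e2 : (1 + (s + 1) * (n : ℂ)⁻¹) ≠ 0 := by
    intro h
    have h5 : (s + (n + 1 : ℕ) : ℂ) = 0 := by rw [e1, h, mul_zero]
    have := congrArg Complex.re h5
    simp at this
    linarith
  rw [e1, Complex.log_ofReal_mul hn0 e2]
  have : Complex.log n = (Real.log n : ℂ) := by
    rw [← Complex.ofReal_natCast, Complex.ofReal_log hn0.le]
  rw [this]; ring

/-- **Digamma asymptotics**: `ψ(s) = log s + O(1/|s|)` in the right half plane. -/
theorem norm_digamma_sub_log_le {s : ℂ} (hs : 0 < s.re) :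
    ‖digamma s - Complex.log s‖ ≤ 1 / ‖s‖ ^ 2 + 2 / ‖s‖ := by
  have h1 := digamma_tendsto hs
  have h2 := log_add_nat_sub_log_tendsto s hs
  have h3 : Tendsto (fun n : ℕ => ∑ j ∈ Finset.range (n + 1),
      (Complex.log (s + j + 1) - Complex.log (s + j) - (s + j)⁻¹)) atTop
      (𝓝 (digamma s - Complex.log s)) := by
    have h4 := (h1.add h2).sub_const (Complex.log s)
    rw [add_zero] at h4
    refine h4.congr fun n => ?_
    rw [Finset.sum_sub_distrib, log_telescope]
    ring
  refine le_of_tendsto h3.norm (Eventually.of_forall fun n => ?_)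
  refine (norm_sum_le _ _).trans ((Finset.sum_le_sum fun j _ => ?_).trans (sum_inv_norm_sq_le hs n))
  apply norm_log_add_one_sub_log_sub_inv_le
  simp
  have : (0:ℝ) ≤ j := Nat.cast_nonneg j
  linarith

/-- Lipschitz estimate for digamma. -/
theorem norm_digamma_sub_digamma_le {s s' : ℂ} (hs : 0 < s.re) (hs' : 0 < s'.re) :
    ‖digamma s - digamma s'‖ ≤ ‖s - s'‖ *
      (((1 / ‖s‖ ^ 2 + 2 / ‖s‖) + (1 / ‖s'‖ ^ 2 + 2 / ‖s'‖)) / 2) := by
  have h3 : Tendsto (fun n : ℕ => ∑ j ∈ Finset.range (n + 1), ((s' + j)⁻¹ - (s + j)⁻¹)) atTop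
      (𝓝 (digamma s - digamma s')) := by
    refine ((digamma_tendsto hs).sub (digamma_tendsto hs')).congr fun n => ?_
    rw [Finset.sum_sub_distrib]
    ring
  refine le_of_tendsto h3.norm (Eventually.of_forall fun n => ?_)
  refine (norm_sum_le _ _).trans ?_
  have hterm : ∀ j ∈ Finset.range (n + 1), ‖(s' + j)⁻¹ - (s + j)⁻¹‖ ≤
      ‖s - s'‖ * ((1 / ‖s + j‖ ^ 2 + 1 / ‖s' + j‖ ^ 2) / 2) := by
    intro j _
    have hj : (0:ℝ) ≤ j := Nat.cast_nonneg j
    have p1 : 0 < ‖s + j‖ := norm_pos_of_re_pos (by simp; linarith)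
    have p2 : 0 < ‖s' + j‖ := norm_pos_of_re_pos (by simp; linarith)
    have q1 : s + j ≠ 0 := norm_pos_iff.mp p1
    have q2 : s' + j ≠ 0 := norm_pos_iff.mp p2
    have e : (s' + j)⁻¹ - (s + j)⁻¹ = (s - s') / ((s + j) * (s' + j)) := by
      field_simp; ring
    rw [e, norm_div, norm_mul, div_eq_mul_inv]
    apply mul_le_mul_of_nonneg_left _ (norm_nonneg _)
    have : (1 / ‖s + j‖ ^ 2 + 1 / ‖s' + j‖ ^ 2) / 2 - (‖s + j‖ * ‖s' + j‖)⁻¹
        = (1 / ‖s + j‖ - 1 / ‖s' + j‖) ^ 2 / 2 := by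
      field_simp; ring
    nlinarith [sq_nonneg (1 / ‖s + j‖ - 1 / ‖s' + j‖)]
  refine (Finset.sum_le_sum hterm).trans ?_
  rw [← Finset.mul_sum, ← Finset.sum_div, Finset.sum_add_distrib]
  apply mul_le_mul_of_nonneg_left _ (norm_nonneg _)
  have := sum_inv_norm_sq_le hs n
  have := sum_inv_norm_sq_le hs' n
  linarith

end Pool.Agent.H4
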