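import Mathlib
import Pool.Agent.H4.Core

open Complex MeasureTheory Set Filter Topology
open scoped Real

namespace Pool.Agent.H4

lemma odd_transform {ρ : ℝ → ℝ} (hρ : Integrable ρ) (hodd : ∀ t, ρ (-t) = -ρ t) {ξ : ℝ}
    (h : ∫ t : ℝ, ρ t * Real.sin (2 * π * t * ξ) = 0) :
    ∫ t : ℝ, (ρ t : ℂ) * cexp (-(2 * π * ξ * t) * I) = 0 := by
  have hint : Integrable fun t : ℝ => (ρ t : ℂ) * cexp (-(2 * π * ξ * t) * I) := by
    apply hρ.ofReal.mul_bdd (c := 1)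
    · apply Continuous.aestronglyMeasurable
      fun_prop
    · apply ae_of_all
      intro t
      rw [Complex.norm_exp]
      simp
  have hexp : ∀ t : ℝ, cexp (-(2 * π * ξ * t) * I) = ((Real.cos (2 * π * t * ξ) : ℝ) : ℂ) - ((Real.sin (2 * π * t * ξ) : ℝ) : ℂ) * I := by
    intro t
    rw [show (-(2 * π * ξ * t) * I : ℂ) = ((-(2 * π * t * ξ) : ℝ) : ℂ) * I by push_cast; ring,
      Complex.exp_mul_I, ← Complex.ofReal_cos, ← Complex.ofReal_sin, Real.cos_neg, Real.sin_neg]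
    push_cast
    ring
  apply Complex.ext
  · have h1 : (∫ t : ℝ, (ρ t : ℂ) * cexp (-(2 * π * ξ * t) * I)).re
        = ∫ t : ℝ, ((ρ t : ℂ) * cexp (-(2 * π * ξ * t) * I)).re := (integral_re hint).symm
    have h2 : ∀ t : ℝ, ((ρ t : ℂ) * cexp (-(2 * π * ξ * t) * I)).re = ρ t * Real.cos (2 * π * t * ξ) := by
      intro t
      rw [hexp, Complex.re_ofReal_mul]
      simp only [sub_re, ofReal_re, mul_re, I_re, mul_zero, ofReal_im, I_im, mul_one, sub_self, sub_zero]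
    rw [h1, zero_re]
    simp_rw [h2]
    have h3 : ∫ t : ℝ, ρ t * Real.cos (2 * π * t * ξ) = ∫ t : ℝ, ρ (-t) * Real.cos (2 * π * (-t) * ξ) :=
      (integral_neg_eq_self (fun t : ℝ => ρ t * Real.cos (2 * π * t * ξ)) volume).symm
    have h4 : ∫ t : ℝ, ρ (-t) * Real.cos (2 * π * (-t) * ξ) = -∫ t : ℝ, ρ t * Real.cos (2 * π * t * ξ) := by
      rw [← integral_neg]
      congr 1
      ext t
      rw [hodd, show 2 * π * -t * ξ = -(2 * π * t * ξ) by ring, Real.cos_neg]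
      ring
    linarith
  · have h1 : (∫ t : ℝ, (ρ t : ℂ) * cexp (-(2 * π * ξ * t) * I)).im
        = ∫ t : ℝ, ((ρ t : ℂ) * cexp (-(2 * π * ξ * t) * I)).im := (integral_im hint).symm
    have h2 : ∀ t : ℝ, ((ρ t : ℂ) * cexp (-(2 * π * ξ * t) * I)).im = -(ρ t * Real.sin (2 * π * t * ξ)) := by
      intro t
      rw [hexp, Complex.im_ofReal_mul]
      simp only [sub_im, ofReal_im, mul_im, I_re, mul_zero, ofReal_re, I_im, mul_one, zero_sub, add_zero]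
      ring
    rw [h1, zero_im]
    simp_rw [h2]
    rw [integral_neg, h, neg_zero]

theorem good_of_gap {σ : ℝ → ℝ} {B c : ℝ} (hc : 0 < c) (h0 : Integrable σ)
    (h1 : Integrable fun t => t * σ t) (h2 : Integrable fun t => t ^ 2 * σ t) (hB : ∀ t, |σ t| ≤ B)
    (hcont : {t | ¬ContinuousAt σ t}.Countable) (hodd : ∀ t, σ (-t) = -σ t)
    (g0 : ∀ ξ, 0 ≤ ξ → ξ < c → ∫ t : ℝ, σ t * Real.sin (2 * π * t * ξ) = 0)
    (g1 : ∫ t : ℝ, t * σ t = 0)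
    (g2 : ∀ ξ, 0 ≤ ξ → ξ < c → ∫ t : ℝ, t ^ 2 * σ t * Real.sin (2 * π * t * ξ) = 0) :
    ∃ A A' A₂, Good σ B A A' ∧
      ∀ z : ℂ, 1 / 2 ≤ z.im → (1 + ‖z‖ ^ 2) * ‖SS σ z‖ ≤ A₂ * Real.exp (-(2 * π * c * z.im)) := by
  have hpi := Real.pi_pos
  have hB0 : 0 ≤ B := (abs_nonneg _).trans (hB 0)
  have c0 : Integrable fun t : ℝ => (σ t : ℂ) := h0.ofReal
  have c1 : Integrable fun t : ℝ => (t : ℂ) * (σ t : ℂ) := by
    have : Integrable fun t : ℝ => ((t * σ t : ℝ) : ℂ) := h1.ofReal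
    refine this.congr (ae_of_all _ fun t => ?_)
    push_cast
    rfl
  have c2 : Integrable fun t : ℝ => (t : ℂ) * ((t : ℂ) * (σ t : ℂ)) := by
    have : Integrable fun t : ℝ => ((t ^ 2 * σ t : ℝ) : ℂ) := h2.ofReal
    refine this.congr (ae_of_all _ fun t => ?_)
    push_cast
    ring
  have i0 : ∫ t : ℝ, (σ t : ℂ) = 0 := by
    have := odd_transform h0 hodd (ξ := 0) (g0 0 le_rfl hc)
    simpa using this
  have i1 : ∫ t : ℝ, (t : ℂ) * (σ t : ℂ) = 0 := by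
    have e : (fun t : ℝ => (t : ℂ) * (σ t : ℂ)) = fun t : ℝ => ((t * σ t : ℝ) : ℂ) := by
      ext t; push_cast; rfl
    rw [e, integral_complex_ofReal, g1, ofReal_zero]
  have e2 : (fun t : ℝ => (t : ℂ) * ((t : ℂ) * (σ t : ℂ))) = fun t : ℝ => ((t ^ 2 * σ t : ℝ) : ℂ) := by
    ext t; push_cast; ring
  set M := (π)⁻¹ * ((∫ t : ℝ, ‖(σ t : ℂ)‖) + ∫ t : ℝ, ‖(t : ℂ) * ((t : ℂ) * (σ t : ℂ))‖) with hM
  have hM0 : 0 ≤ M := by
    have h1 : 0 ≤ ∫ t : ℝ, ‖(σ t : ℂ)‖ := integral_nonneg fun _ => norm_nonneg _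
    have h2 : 0 ≤ ∫ t : ℝ, ‖(t : ℂ) * ((t : ℂ) * (σ t : ℂ))‖ := integral_nonneg fun _ => norm_nonneg _
    positivity
  have hdec : ∀ z : ℂ, 1 / 2 ≤ z.im → (1 + ‖z‖ ^ 2) * ‖SS σ z‖ ≤ M * Real.exp (-(2 * π * c * z.im)) := by
    intro z hz
    have hz0 : 0 < z.im := by linarith
    have b0 := norm_CT_gap_le c0 hc.le (fun ξ h1 h2 => odd_transform h0 hodd (g0 ξ h1 h2)) hz0
    have b2 : ‖z‖ ^ 2 * ‖SS σ z‖ ≤ Real.exp (-(2 * π * c * z.im)) * ((2 * π * z.im)⁻¹ *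
        ∫ t : ℝ, ‖(t : ℂ) * ((t : ℂ) * (σ t : ℂ))‖) := by
      have m1 := mul_CT c0 c1 i0 hz0
      have m2 := mul_CT c1 c2 i1 hz0
      have m3 : ‖z‖ ^ 2 * ‖SS σ z‖ = ‖CT (fun t => (t : ℂ) * ((t : ℂ) * (σ t : ℂ))) z‖ := by
        rw [← m2, ← m1, norm_mul, norm_mul]
        ring
      rw [m3]
      apply norm_CT_gap_le c2 hc.le _ hz0
      intro ξ h3 h4
      rw [e2] at *
      have hodd2 : ∀ t : ℝ, (-t) ^ 2 * σ (-t) = -(t ^ 2 * σ t) := by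
        intro t; rw [hodd]; ring
      have := odd_transform h2 hodd2 (g2 ξ h3 h4)
      have e3 : ∀ t : ℝ, (t : ℂ) * ((t : ℂ) * (σ t : ℂ)) = ((t ^ 2 * σ t : ℝ) : ℂ) := by
        intro t; push_cast; ring
      simp_rw [e3]
      exact this
    have hinv : (2 * π * z.im)⁻¹ ≤ π⁻¹ := by
      apply inv_anti₀ hpi
      nlinarith
    have n0 : 0 ≤ ∫ t : ℝ, ‖(σ t : ℂ)‖ := integral_nonneg fun _ => norm_nonneg _
    have n2 : 0 ≤ ∫ t : ℝ, ‖(t : ℂ) * ((t : ℂ) * (σ t : ℂ))‖ := integral_nonneg fun _ => norm_nonneg _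
    calc (1 + ‖z‖ ^ 2) * ‖SS σ z‖ = ‖SS σ z‖ + ‖z‖ ^ 2 * ‖SS σ z‖ := by ring
      _ ≤ Real.exp (-(2 * π * c * z.im)) * ((2 * π * z.im)⁻¹ * ∫ t : ℝ, ‖(σ t : ℂ)‖)
          + Real.exp (-(2 * π * c * z.im)) * ((2 * π * z.im)⁻¹ * ∫ t : ℝ, ‖(t : ℂ) * ((t : ℂ) * (σ t : ℂ))‖) :=
          add_le_add b0 b2
      _ = (2 * π * z.im)⁻¹ * ((∫ t : ℝ, ‖(σ t : ℂ)‖) + ∫ t : ℝ, ‖(t : ℂ) * ((t : ℂ) * (σ t : ℂ))‖)
          * Real.exp (-(2 * π * c * z.im)) := by ring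
      _ ≤ π⁻¹ * ((∫ t : ℝ, ‖(σ t : ℂ)‖) + ∫ t : ℝ, ‖(t : ℂ) * ((t : ℂ) * (σ t : ℂ))‖)
          * Real.exp (-(2 * π * c * z.im)) := by
          apply mul_le_mul_of_nonneg_right _ (Real.exp_nonneg _)
          exact mul_le_mul_of_nonneg_right hinv (by positivity)
      _ = _ := by rw [hM]
  have hline : ∀ u : ℝ, ‖SS σ (u + (1 / 2 : ℝ) * I)‖ ≤ M * (1 + u ^ 2)⁻¹ := by
    intro u
    have him : ((u : ℂ) + (1 / 2 : ℝ) * I).im = 1 / 2 := by simp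
    have h3 := hdec (u + (1 / 2 : ℝ) * I) (by rw [him])
    have h4 : Real.exp (-(2 * π * c * ((u : ℂ) + (1 / 2 : ℝ) * I).im)) ≤ 1 := by
      apply Real.exp_le_one_iff.mpr
      rw [him]
      have : 0 ≤ 2 * π * c * (1 / 2) := by positivity
      linarith
    have h5 : u ^ 2 ≤ ‖(u : ℂ) + (1 / 2 : ℝ) * I‖ ^ 2 := by
      rw [Complex.sq_norm, Complex.normSq_apply]
      simp
      nlinarith
    rw [← div_eq_mul_inv, le_div_iff₀ (by positivity), mul_comm]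
    calc (1 + u ^ 2) * ‖SS σ (u + (1 / 2 : ℝ) * I)‖
        ≤ (1 + ‖(u : ℂ) + (1 / 2 : ℝ) * I‖ ^ 2) * ‖SS σ (u + (1 / 2 : ℝ) * I)‖ := by
          apply mul_le_mul_of_nonneg_right _ (norm_nonneg _)
          linarith
      _ ≤ _ := h3
      _ ≤ M * 1 := mul_le_mul_of_nonneg_left h4 hM0
      _ = M := mul_one _
  have hSd : DifferentiableOn ℂ (SS σ) {z | 0 < z.im} := differentiableOn_CT c0
  have hlc : Continuous fun u : ℝ => SS σ (u + (1 / 2 : ℝ) * I) := continuous_line hSd (by norm_num)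
  have hli : Integrable fun u : ℝ => ‖SS σ (u + (1 / 2 : ℝ) * I)‖ := by
    apply Integrable.mono' (integrable_inv_one_add_sq.const_mul M) hlc.norm.aestronglyMeasurable
    apply ae_of_all
    intro u
    rw [norm_norm]
    exact hline u
  refine ⟨(2 * π)⁻¹ * ((B * ∫ t : ℝ, ‖(σ t : ℂ)‖) + π) / 2, M * π, M, ⟨h0, hB, hcont, ?_, hli, ?_⟩, hdec⟩
  · intro z hz
    exact norm_CT_le_sqrt c0 (by intro t; simpa using hB t) hz
  · calc ∫ u : ℝ, ‖CT (fun t => (σ t : ℂ)) (u + (1 / 2 : ℝ) * I)‖ ≤ ∫ u : ℝ, M * (1 + u ^ 2)⁻¹ := by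
          apply integral_mono hli (integrable_inv_one_add_sq.const_mul M)
          exact hline
      _ = M * π := by rw [integral_const_mul, integral_univ_inv_one_add_sq]

end Pool.Agent.H4
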