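import Mathlib
import Pool.Agent.H4.Gap
import Pool.Agent.H6.Final

open MeasureTheory Set Filter Topology
open scoped Real
open Pool.Agent.H6

namespace Pool.Agent.H4

/-- A band limited cutoff with all moments. -/
lemma exists_cutoff : ∃ κ : ℝ → ℝ, Continuous κ ∧ (∀ u, 0 ≤ κ u) ∧ (∀ u, κ u ≤ 1) ∧ κ 0 = 1 ∧
    (∀ u, κ (-u) = κ u) ∧
    (∀ k : ℕ, ∀ R : ℝ, 0 < R → ∃ C, 0 ≤ C ∧ ∀ u, |u ^ k * κ (u / R)| ≤ C / (1 + u ^ 2) ^ 3) ∧
    (∀ k : ℕ, ∀ R : ℝ, 0 < R → ∀ ξ, 1 / R < |ξ| →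
      (∫ u, u ^ k * κ (u / R) * Real.sin (2 * π * u * ξ) = 0) ∧
      (∫ u, u ^ k * κ (u / R) * Real.cos (2 * π * u * ξ) = 0)) := by
  obtain ⟨κ, hκc, hκ0, hκ1, hκz, hκe, hκd, hκs⟩ := exists_kappa
  have hdec : ∀ k : ℕ, ∀ R : ℝ, 0 < R → ∃ C, 0 ≤ C ∧ ∀ u, |u ^ k * κ (u / R)| ≤ C / (1 + u ^ 2) ^ 3 := by
    intro k R hR
    obtain ⟨C, hC0, hC⟩ := hκd (k + 3)
    refine ⟨C * (1 + R ^ 2) ^ (k + 3), by positivity, fun u => ?_⟩
    rw [le_div_iff₀ (by positivity), abs_mul, abs_of_nonneg (hκ0 _)]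
    have h1 : |u ^ k| ≤ (1 + u ^ 2) ^ k := by
      rw [abs_pow]
      apply pow_le_pow_left₀ (abs_nonneg _)
      nlinarith [sq_abs u, sq_nonneg (|u| - 1), abs_nonneg u]
    have h2 := hC (u / R)
    rw [le_div_iff₀ (by positivity)] at h2
    have h3 : 1 + u ^ 2 ≤ (1 + R ^ 2) * (1 + (u / R) ^ 2) := by
      have : R ^ 2 * (u / R) ^ 2 = u ^ 2 := by field_simp
      nlinarith [sq_nonneg (u / R), sq_nonneg R]
    have h4 : (1 + u ^ 2) ^ (k + 3) ≤ (1 + R ^ 2) ^ (k + 3) * (1 + (u / R) ^ 2) ^ (k + 3) := by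
      rw [← mul_pow]
      exact pow_le_pow_left₀ (by positivity) h3 _
    calc |u ^ k| * κ (u / R) * (1 + u ^ 2) ^ 3 ≤ (1 + u ^ 2) ^ k * κ (u / R) * (1 + u ^ 2) ^ 3 := by
          apply mul_le_mul_of_nonneg_right _ (by positivity)
          exact mul_le_mul_of_nonneg_right h1 (hκ0 _)
      _ = κ (u / R) * (1 + u ^ 2) ^ (k + 3) := by ring
      _ ≤ κ (u / R) * ((1 + R ^ 2) ^ (k + 3) * (1 + (u / R) ^ 2) ^ (k + 3)) :=
          mul_le_mul_of_nonneg_left h4 (hκ0 _)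
      _ = (κ (u / R) * (1 + (u / R) ^ 2) ^ (k + 3)) * (1 + R ^ 2) ^ (k + 3) := by ring
      _ ≤ C * (1 + R ^ 2) ^ (k + 3) := mul_le_mul_of_nonneg_right h2 (by positivity)
  refine ⟨κ, hκc, hκ0, hκ1, hκz, hκe, hdec, ?_⟩
  intro k R hR ξ hξ
  have hcR : Continuous (fun u => κ (u / R)) := hκc.comp (continuous_id.div_const R)
  have heven : ∀ u, (fun u => κ (u / R)) (-u) = (fun u => κ (u / R)) u := by
    intro u
    simp only [neg_div, hκe]
  have hint : ∀ n : ℕ, Integrable (fun x => x ^ n * κ (x / R)) := by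
    intro n
    obtain ⟨D, hD0, hD⟩ := hdec n R hR
    exact integrable_of_decay3 (by fun_prop) hD hD0
  have hsupp : ∀ ξ, 1 / R ≤ |ξ| → cosT (fun u => κ (u / R)) ξ = 0 := by
    intro ξ hξ
    rw [cosT_dilate κ hR, hκs, mul_zero]
    rw [abs_mul, abs_of_pos hR]
    rw [div_le_iff₀ hR] at hξ
    linarith
  exact integral_pow_mul_sin_eq_zero heven hint hsupp k hξ

lemma sin_mul_sin_eq (a b : ℝ) : Real.sin a * Real.sin b = (Real.cos (a - b) - Real.cos (a + b)) / 2 := by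
  rw [Real.cos_sub, Real.cos_add]
  ring

section
variable {κ : ℝ → ℝ}

/-- The densities against which the discrepancy is orthogonal. -/
lemma dens_sin (hκc : Continuous κ) (hκe : ∀ u, κ (-u) = κ u)
    (hdec : ∀ k : ℕ, ∀ R : ℝ, 0 < R → ∃ C, 0 ≤ C ∧ ∀ u, |u ^ k * κ (u / R)| ≤ C / (1 + u ^ 2) ^ 3)
    (hsp : ∀ k : ℕ, ∀ R : ℝ, 0 < R → ∀ ξ, 1 / R < |ξ| →
      (∫ u, u ^ k * κ (u / R) * Real.sin (2 * π * u * ξ) = 0) ∧
      (∫ u, u ^ k * κ (u / R) * Real.cos (2 * π * u * ξ) = 0))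
    {R c : ℝ} (hR : 0 < R) (hc : 0 < c) (hcR : c + 2 / R < 1) (j : ℕ) {ξ : ℝ} (h0 : 0 ≤ ξ) (h1 : ξ < c) :
    Dens (fun u => u ^ (2 * j) * κ (u / R) * Real.sin (2 * π * u * ξ)) := by
  obtain ⟨C, hC0, hC⟩ := hdec (2 * j) R hR
  have hcont : Continuous (fun u : ℝ => u ^ (2 * j) * κ (u / R) * Real.sin (2 * π * u * ξ)) := by
    have hcR : Continuous (fun u => κ (u / R)) := hκc.comp (continuous_id.div_const R)
    fun_prop
  have hdecay : ∀ u : ℝ, |u ^ (2 * j) * κ (u / R) * Real.sin (2 * π * u * ξ)| ≤ C / (1 + u ^ 2) ^ 3 := by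
    intro u
    rw [abs_mul]
    exact (mul_le_of_le_one_right (abs_nonneg _) (Real.abs_sin_le_one _)).trans (hC u)
  refine ⟨hcont, ⟨C, hC0, hdecay⟩, ⟨c + 2 / R, by positivity, hcR, ?_⟩⟩
  apply testFn_tail hcont hC0 hdecay _ (by positivity)
  · intro η hη
    have hRi : 1 / R < 2 / R := by gcongr; norm_num
    have hR2 : 0 < 1 / R := by positivity
    have ha : 1 / R < |ξ - η| := by
      have h2 := abs_sub_abs_le_abs_sub η ξ
      rw [abs_sub_comm, abs_of_nonneg h0] at h2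
      linarith
    have hb : 1 / R < |ξ + η| := by
      have h2 := abs_sub_abs_le_abs_sub η (-ξ)
      rw [abs_neg, sub_neg_eq_add, abs_of_nonneg h0, add_comm η ξ] at h2
      linarith
    have hki : Integrable (fun u : ℝ => u ^ (2 * j) * κ (u / R)) := by
      have hcR : Continuous (fun u => κ (u / R)) := hκc.comp (continuous_id.div_const R)
      exact integrable_of_decay3 (by fun_prop) hC hC0
    have e : ∀ u : ℝ, u ^ (2 * j) * κ (u / R) * Real.sin (2 * π * u * ξ) * Real.sin (2 * π * u * η)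
        = (1 / 2) * (u ^ (2 * j) * κ (u / R) * Real.cos (2 * π * u * (ξ - η)))
          - (1 / 2) * (u ^ (2 * j) * κ (u / R) * Real.cos (2 * π * u * (ξ + η))) := by
      intro u
      rw [mul_assoc (u ^ (2 * j) * κ (u / R)), sin_mul_sin_eq,
        show 2 * π * u * ξ - 2 * π * u * η = 2 * π * u * (ξ - η) by ring,
        show 2 * π * u * ξ + 2 * π * u * η = 2 * π * u * (ξ + η) by ring]
      ring
    simp_rw [e]
    rw [integral_sub ((integrable_mul_cos hki _).const_mul _) ((integrable_mul_cos hki _).const_mul _),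
      integral_const_mul, integral_const_mul, (hsp (2 * j) R hR _ ha).2, (hsp (2 * j) R hR _ hb).2]
    ring
  · intro u
    rw [neg_div, hκe, show 2 * π * -u * ξ = -(2 * π * u * ξ) by ring, Real.sin_neg, (even_two_mul j).neg_pow]
    ring

lemma dens_odd (hκc : Continuous κ) (hκe : ∀ u, κ (-u) = κ u)
    (hdec : ∀ k : ℕ, ∀ R : ℝ, 0 < R → ∃ C, 0 ≤ C ∧ ∀ u, |u ^ k * κ (u / R)| ≤ C / (1 + u ^ 2) ^ 3)
    (hsp : ∀ k : ℕ, ∀ R : ℝ, 0 < R → ∀ ξ, 1 / R < |ξ| →
      (∫ u, u ^ k * κ (u / R) * Real.sin (2 * π * u * ξ) = 0) ∧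
      (∫ u, u ^ k * κ (u / R) * Real.cos (2 * π * u * ξ) = 0))
    {R : ℝ} (hR : 0 < R) (hcR : 2 / R < 1) :
    Dens (fun u => u ^ 1 * κ (u / R)) := by
  obtain ⟨C, hC0, hC⟩ := hdec 1 R hR
  have hcR' : Continuous (fun u => κ (u / R)) := hκc.comp (continuous_id.div_const R)
  refine ⟨by fun_prop, ⟨C, hC0, hC⟩, ⟨2 / R, by positivity, hcR, ?_⟩⟩
  apply testFn_tail (by fun_prop) hC0 hC _ (by positivity)
  · intro η hη
    have hRi : 1 / R < 2 / R := by gcongr; norm_num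
    exact (hsp 1 R hR η (by linarith)).1
  · intro u
    rw [neg_div, hκe]
    ring

end

/-- The odd extension of the discrepancy. -/
noncomputable def oddD (L : ℝ → ℝ) (t : ℝ) : ℝ :=
  if 0 < t then L t - G2 t else if t < 0 then -(L (-t) - G2 (-t)) else 0

lemma oddD_neg (L : ℝ → ℝ) (t : ℝ) : oddD L (-t) = -oddD L t := by
  unfold oddD
  rcases lt_trichotomy t 0 with h | h | h
  · rw [if_pos (by linarith), if_neg (by linarith), if_pos h]
    ring
  · subst h; simp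
  · rw [if_neg (by linarith), if_pos (by linarith), if_pos h, neg_neg]

lemma oddD_pos (L : ℝ → ℝ) {t : ℝ} (ht : 0 < t) : oddD L t = L t - G2 t := by
  unfold oddD; rw [if_pos ht]

section
variable {ι : Type*} {γ w : ι → ℝ} {F : ℝ → Finset ι} {ns : ℕ → ℝ} {L : ℝ → ℝ}

lemma measurable_oddD (hL : IsLimit γ w F ns L) : Measurable (oddD L) := by
  unfold oddD
  have h1 := hL.measurable_D
  apply Measurable.ite measurableSet_Ioi h1
  apply Measurable.ite measurableSet_Iio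
  · exact (h1.comp measurable_neg).neg
  · exact measurable_const

lemma abs_oddD_le (hL : IsLimit γ w F ns L) : ∃ C, 0 < C ∧ ∀ t, |oddD L t| ≤ C * (1 + |t|) := by
  obtain ⟨C, hC0, hC⟩ := hL.abs_D_le
  refine ⟨C, hC0, fun t => ?_⟩
  unfold oddD
  split_ifs with h1 h2
  · rw [abs_of_pos h1]; exact hC t h1.le
  · rw [abs_neg, abs_of_neg h2]; exact hC _ (by linarith)
  · rw [abs_zero]; positivity

lemma countable_oddD (hL : IsLimit γ w F ns L) : {t | ¬ContinuousAt (oddD L) t}.Countable := by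
  have hc := hL.mono.countable_not_continuousAt
  have hc2 : (Neg.neg ⁻¹' {x | ¬ContinuousAt L x}).Countable :=
    hc.preimage_of_injOn (fun a _ b _ hab => neg_injective hab)
  apply ((hc.union hc2).union (countable_singleton (0 : ℝ))).mono
  intro t ht
  by_contra hcon
  simp only [mem_union, mem_ofPred_eq, mem_preimage, mem_singleton_iff, not_or, not_not] at hcon
  obtain ⟨⟨h1, h2⟩, h3⟩ := hcon
  apply ht
  rcases lt_or_gt_of_ne h3 with h | h
  · have hev : oddD L =ᶠ[𝓝 t] fun t => -(L (-t) - G2 (-t)) := by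
      filter_upwards [Iio_mem_nhds h] with s hs
      have hs' : s < 0 := hs
      unfold oddD
      rw [if_neg (by linarith), if_pos hs']
    have hcont : ContinuousAt (fun t => -(L (-t) - G2 (-t))) t := by
      apply ContinuousAt.neg
      apply ContinuousAt.sub
      · exact ContinuousAt.comp (f := fun t : ℝ => -t) (g := L) h2 continuous_neg.continuousAt
      · exact (continuous_G2.comp continuous_neg).continuousAt
    exact hcont.congr hev.symm
  · have hev : oddD L =ᶠ[𝓝 t] fun t => L t - G2 t := by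
      filter_upwards [Ioi_mem_nhds h] with s hs
      exact oddD_pos L hs
    exact (h1.sub continuous_G2.continuousAt).congr hev.symm

lemma integral_oddD (hL : IsLimit γ w F ns L) {p : ℝ → ℝ} (hp : Dens p) (hodd : ∀ u, p (-u) = -p u) :
    ∫ t, p t * oddD L t = 0 := by
  have e : ∫ t, p t * oddD L t = ∫ t, (p |t| * oddD L |t|) := by
    congr 1
    ext t
    rcases le_total 0 t with h | h
    · rw [abs_of_nonneg h]
    · rw [abs_of_nonpos h, hodd, oddD_neg]
      ring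
  rw [e, integral_comp_abs (f := fun t => p t * oddD L t)]
  have h2 : ∫ t in Ioi 0, p t * oddD L t = ∫ t in Ioi 0, p t * (L t - G2 t) := by
    apply setIntegral_congr_fun measurableSet_Ioi
    intro t ht
    simp only
    rw [oddD_pos L ht]
  rw [h2, hL.orth p hp, mul_zero]

end

end Pool.Agent.H4
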