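import Mathlib
import Pool.Agent.H4.Sigma

open MeasureTheory Set Filter Topology
open scoped Real
open Pool.Agent.H6

namespace Pool.Agent.H4

variable {ι : Type*} {γ w : ι → ℝ} {F : ℝ → Finset ι} {ns : ℕ → ℝ} {L : ℝ → ℝ}

/-- **Oscillation theorem for the limiting discrepancy.** -/
theorem eq_of_sign (hL : IsLimit γ w F ns L) {ε δ : ℝ} (hε : 0 < ε) (hδ : 0 < δ) {X Y : ℕ → ℝ}
    (hYX : ∀ k, Y k ≤ X k) (hsep : ∀ k, X k + Y k ≤ X (k + 1))
    (hYinf : Tendsto Y atTop atTop) (hlong : ¬Summable fun k => (Y k / X k) ^ 2)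
    {Z : Set ℝ} (hZ : Z.Countable)
    (hyp : ∀ᶠ k in atTop, ∃ (s : Finset ℕ) (lam : ℕ → ℝ) (sg : ℝ), |sg| = 1 ∧
      (s.card : ℝ) ≤ (2 - ε) * Y k ∧ ∀ y ∈ Icc (X k) (X k + Y k), y ∉ Z →
        -Real.exp (-(δ * Y k)) ≤ sg * (L y - G2 y) * ∏ i ∈ s, (SignType.sign (y - lam i) : ℝ)) :
    ∀ᵐ β ∂vpos, L β = G2 β := by
  obtain ⟨κ, hκc, hκ0, hκ1, hκz, hκe, hdec, hsp⟩ := exists_cutoff
  obtain ⟨K, hK0, hK⟩ := abs_oddD_le hL
  have hDm := measurable_oddD hL
  set c : ℝ := max (1 - ε / 4) (1 / 2) with hc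
  have hc1 : c < 1 := max_lt (by linarith) (by norm_num)
  have hc2 : 1 / 2 ≤ c := le_max_right _ _
  have hc0 : 0 < c := by linarith
  have hcε : 2 - ε < 2 * c := by
    have : 1 - ε / 4 ≤ c := le_max_left _ _
    linarith
  -- the truncated discrepancy vanishes
  have key : ∀ R : ℝ, 0 < R → c + 2 / R < 1 → ∀ x, ContinuousAt (oddD L) x → oddD L x * κ (x / R) = 0 := by
    intro R hR hcR
    set σ : ℝ → ℝ := fun t => oddD L t * κ (t / R) with hσ
    have hκR : Continuous (fun u => κ (u / R)) := hκc.comp (continuous_id.div_const R)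
    have hσm : Measurable σ := hDm.mul hκR.measurable
    -- size
    have hsize : ∀ k : ℕ, ∃ C, 0 ≤ C ∧ ∀ t, |t ^ k * σ t| ≤ C * (1 + t ^ 2)⁻¹ := by
      intro k
      obtain ⟨C, hC0, hC⟩ := hdec k R hR
      refine ⟨2 * K * C, by positivity, fun t => ?_⟩
      have h1 : |t ^ k * σ t| = |oddD L t| * |t ^ k * κ (t / R)| := by
        rw [hσ, abs_mul, abs_mul, abs_mul]
        ring
      rw [h1]
      have h2 : 1 + |t| ≤ 2 * (1 + t ^ 2) := by
        nlinarith [sq_nonneg (|t| - 1), sq_abs t, abs_nonneg t]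
      calc |oddD L t| * |t ^ k * κ (t / R)| ≤ (K * (2 * (1 + t ^ 2))) * (C / (1 + t ^ 2) ^ 3) := by
            apply mul_le_mul _ (hC t) (abs_nonneg _) (by positivity)
            exact (hK t).trans (mul_le_mul_of_nonneg_left h2 hK0.le)
        _ = 2 * K * C * (1 + t ^ 2)⁻¹ * (1 + t ^ 2)⁻¹ := by
            have : 1 + t ^ 2 ≠ 0 := by positivity
            field_simp
        _ ≤ 2 * K * C * (1 + t ^ 2)⁻¹ * 1 := by
            apply mul_le_mul_of_nonneg_left _ (by positivity)
            exact inv_le_one_of_one_le₀ (by nlinarith [sq_nonneg t])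
        _ = _ := mul_one _
    have hint : ∀ k : ℕ, Integrable fun t => t ^ k * σ t := by
      intro k
      obtain ⟨C, hC0, hC⟩ := hsize k
      apply Integrable.mono' (integrable_inv_one_add_sq.const_mul C)
      · exact ((measurable_id.pow_const k).mul hσm).aestronglyMeasurable
      · exact ae_of_all _ fun t => by rw [Real.norm_eq_abs]; exact hC t
    obtain ⟨B, hB0, hB⟩ := hsize 0
    have hB' : ∀ t, |σ t| ≤ B := by
      intro t
      have h1 := hB t
      rw [pow_zero, one_mul] at h1
      refine h1.trans (mul_le_of_le_one_right hB0 ?_)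
      exact inv_le_one_of_one_le₀ (by nlinarith [sq_nonneg t])
    have hcont : {t | ¬ContinuousAt σ t}.Countable := by
      apply (countable_oddD hL).mono
      intro t ht hcon
      exact ht (hcon.mul hκR.continuousAt)
    have hodd : ∀ t, σ (-t) = -σ t := by
      intro t
      simp only [hσ]
      rw [oddD_neg, neg_div, hκe]
      ring
    have hg : ∀ j : ℕ, ∀ ξ, 0 ≤ ξ → ξ < c → ∫ t, t ^ (2 * j) * σ t * Real.sin (2 * π * t * ξ) = 0 := by
      intro j ξ h0 h1
      have h2 := integral_oddD hL (dens_sin hκc hκe hdec hsp hR hc0 hcR j h0 h1) (by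
        intro u
        rw [neg_div, hκe, show 2 * π * -u * ξ = -(2 * π * u * ξ) by ring, Real.sin_neg, (even_two_mul j).neg_pow]
        ring)
      rw [← h2]
      congr 1
      ext t
      simp only [hσ]
      ring
    obtain ⟨A, A', A₂, hGood, hdecS⟩ := good_of_gap (σ := σ) hc0 (by simpa using hint 0)
      (by simpa using hint 1) (hint 2) hB' hcont hodd
      (fun ξ h0 h1 => by simpa using hg 0 ξ h0 h1)
      (by
        have h2 := integral_oddD hL (dens_odd hκc hκe hdec hsp hR (by linarith)) (by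
          intro u
          rw [neg_div, hκe]
          ring)
        rw [← h2]
        congr 1
        ext t
        simp only [hσ]
        ring)
      (fun ξ h0 h1 => by simpa using hg 1 ξ h0 h1)
    have hpos : ∀ᶠ k in atTop, 0 < Y k := hYinf.eventually_gt_atTop 0
    have hzero := core hGood hc0 hc1.le hdecS hδ hcε hYX hsep hYinf hlong hZ (by
      filter_upwards [hyp, hpos] with k hk hYk
      obtain ⟨s, lam, sg, hsg, hcard, hs⟩ := hk
      refine ⟨s, lam, sg, hsg, hcard, fun y hy hyZ => ?_⟩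
      have hy0 : 0 < y := lt_of_lt_of_le (lt_of_lt_of_le hYk (hYX k)) hy.1
      have h1 := hs y hy hyZ
      have h2 : sg * σ y * ∏ i ∈ s, (SignType.sign (y - lam i) : ℝ)
          = κ (y / R) * (sg * (L y - G2 y) * ∏ i ∈ s, (SignType.sign (y - lam i) : ℝ)) := by
        simp only [hσ]
        rw [oddD_pos L hy0]
        ring
      rw [h2]
      have h3 := hκ0 (y / R)
      have h4 := hκ1 (y / R)
      have h5 := Real.exp_pos (-(δ * Y k))
      generalize sg * (L y - G2 y) * ∏ i ∈ s, (SignType.sign (y - lam i) : ℝ) = q at h1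
      rcases le_total 0 q with h | h
      · have := mul_nonneg h3 h
        linarith
      · nlinarith)
    intro x hx
    have hσx : ContinuousAt σ x := hx.mul hκR.continuousAt
    have hlim := tendsto_two_re_CT hGood.int hσx
    have hev : (fun ε : ℝ => 2 * (CT (fun t => (σ t : ℂ)) (x + ε * Complex.I)).re) =ᶠ[𝓝[>] 0] fun _ => 0 := by
      filter_upwards [self_mem_nhdsWithin] with ε hε
      have hε' : 0 < ε := hε
      have := hzero (x + ε * Complex.I) (by simpa using hε')
      unfold SS at this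
      rw [this]
      simp
    have h0 := tendsto_nhds_unique (hlim.congr' hev) tendsto_const_nhds
    exact h0
  -- let R tend to infinity
  have hcd := hL.mono.countable_not_continuousAt
  rw [ae_restrict_iff' measurableSet_Ioi]
  have hae : ∀ᵐ x : ℝ, ContinuousAt L x := by
    rw [ae_iff]
    exact hcd.measure_zero volume
  filter_upwards [hae] with x hx hx0
  have hx0' : 0 < x := hx0
  have hcx : ContinuousAt (oddD L) x := by
    have hev : oddD L =ᶠ[𝓝 x] fun t => L t - G2 t := by
      filter_upwards [Ioi_mem_nhds hx0'] with s hs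
      exact oddD_pos L hs
    exact (hx.sub continuous_G2.continuousAt).congr hev.symm
  have hlimR : Tendsto (fun R : ℝ => κ (x / R)) atTop (𝓝 1) := by
    rw [← hκz]
    apply (hκc.tendsto 0).comp
    exact tendsto_const_nhds.div_atTop tendsto_id
  have h1 : ∀ᶠ R : ℝ in atTop, 0 < κ (x / R) := hlimR.eventually (lt_mem_nhds one_pos)
  have h2 : ∀ᶠ R : ℝ in atTop, c + 2 / R < 1 := by
    have : Tendsto (fun R : ℝ => c + 2 / R) atTop (𝓝 (c + 0)) :=
      tendsto_const_nhds.add (tendsto_const_nhds.div_atTop tendsto_id)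
    rw [add_zero] at this
    exact this.eventually (gt_mem_nhds hc1)
  obtain ⟨R, hR1, hR2, hR3⟩ := (h1.and (h2.and (eventually_gt_atTop 0))).exists
  have h3 := key R hR3 hR2 x hcx
  rcases mul_eq_zero.mp h3 with h | h
  · rw [oddD_pos L hx0'] at h
    linarith
  · exact absurd h hR1.ne'

end Pool.Agent.H4
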