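import Mathlib
import Pool.Agent.H4.LimitOsc

open MeasureTheory Set Filter Topology
open scoped Real
open Pool.Agent.H6

namespace Pool.Agent.H4

/-- Up to the tolerance `τ`, the function `f` changes sign less than `n` times on `[a, b]`: this
interval can be cut into `n` intervals, on each of which `f ≤ τ` throughout or `f ≥ -τ`
throughout. -/
def FewSigns (f : ℝ → ℝ) (a b τ : ℝ) (n : ℕ) : Prop :=
  ∃ t : ℕ → ℝ, t 0 = a ∧ t n = b ∧ ∀ i < n, t i ≤ t (i + 1) ∧
    ((∀ y, t i < y → y < t (i + 1) → f y ≤ τ) ∨ (∀ y, t i < y → y < t (i + 1) → -τ ≤ f y))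

/-- Padded form. -/
lemma FewSigns.pad {f : ℝ → ℝ} {a b τ : ℝ} {n N : ℕ} (h : FewSigns f a b τ n) (hnN : n ≤ N) :
    ∃ t : ℕ → ℝ, Monotone t ∧ t 0 = a ∧ (∀ i, N ≤ i → t i = b) ∧ ∀ i : ℕ,
      ((∀ y, t i < y → y < t (i + 1) → f y ≤ τ) ∨ (∀ y, t i < y → y < t (i + 1) → -τ ≤ f y)) := by
  obtain ⟨t, h0, hn, ht⟩ := h
  refine ⟨fun i => t (min i n), ?_, ?_, ?_, ?_⟩
  · apply monotone_nat_of_le_succ
    intro i
    rcases lt_or_ge i n with h | h
    · rw [min_eq_left h.le, min_eq_left (by omega)]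
      exact (ht i h).1
    · rw [min_eq_right h, min_eq_right (by omega)]
  · simp [h0]
  · intro i hi
    simp only
    rw [min_eq_right (by omega), hn]
  · intro i
    rcases lt_or_ge i n with h | h
    · simp only [min_eq_left h.le, min_eq_left (show i + 1 ≤ n by omega)]
      exact (ht i h).2
    · left
      intro y h1 h2
      simp only [min_eq_right h, min_eq_right (show n ≤ i + 1 by omega)] at h1 h2
      linarith

/-- The sign pattern as a product. -/
lemma sign_product {t u : ℕ → ℝ} (ht : Monotone t) (hu : ∀ i, u i = 1 ∨ u i = -1) {N j : ℕ}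
    (hj : j < N) {y : ℝ} (h1 : t j < y) (h2 : y < t (j + 1)) :
    u (N - 1) * ∏ i ∈ (Finset.Ico 1 N).filter (fun i => u (i - 1) ≠ u i), (SignType.sign (y - t i) : ℝ) = u j := by
  have hsq : ∀ i, u i * u i = 1 := by
    intro i
    rcases hu i with h | h <;> rw [h] <;> norm_num
  have hlow : ∏ i ∈ Finset.Ico 1 (j + 1), (if u (i - 1) ≠ u i then (SignType.sign (y - t i) : ℝ) else 1) = 1 := by
    apply Finset.prod_eq_one
    intro i hi
    rw [Finset.mem_Ico] at hi
    have : t i ≤ t j := ht (by omega)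
    rw [sign_pos (by linarith)]
    simp
  have hhigh : ∀ m, j + 1 ≤ m → ∏ i ∈ Finset.Ico (j + 1) m, (if u (i - 1) ≠ u i then (SignType.sign (y - t i) : ℝ) else 1)
      = u j * u (m - 1) := by
    intro m hm
    induction m, hm using Nat.le_induction with
    | base => simp [hsq]
    | succ m hm ih =>
      rw [Finset.prod_Ico_succ_top hm, ih]
      have h3 : t (j + 1) ≤ t m := ht hm
      have h4 : SignType.sign (y - t m) = -1 := sign_neg (by linarith)
      rw [h4, show m + 1 - 1 = m by omega]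
      rcases hu (m - 1) with h5 | h5 <;> rcases hu m with h6 | h6 <;> rw [h5, h6] <;> norm_num
  rw [Finset.prod_filter, ← Finset.prod_Ico_consecutive _ (show 1 ≤ j + 1 by omega) (show j + 1 ≤ N by omega),
    hlow, hhigh N (by omega), one_mul]
  calc u (N - 1) * (u j * u (N - 1)) = u j * (u (N - 1) * u (N - 1)) := by ring
    _ = u j := by rw [hsq, mul_one]

lemma exists_cell {t : ℕ → ℝ} {a b y : ℝ} {N : ℕ} (h0 : t 0 = a) (hN : ∀ i, N ≤ i → t i = b)
    (hy : y ∈ Icc a b) (hyt : ∀ i, t i ≠ y) : ∃ j, j < N ∧ t j < y ∧ y < t (j + 1) := by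
  have hex : ∃ i, y < t i := ⟨N, by
    rw [hN N le_rfl]
    exact lt_of_le_of_ne hy.2 (fun h => hyt N (by rw [hN N le_rfl, h]))⟩
  classical
  have hspec := Nat.find_spec hex
  have hpos : Nat.find hex ≠ 0 := by
    intro h
    rw [h, h0] at hspec
    exact absurd hy.1 (not_le.mpr hspec)
  obtain ⟨j, hj⟩ := Nat.exists_eq_succ_of_ne_zero hpos
  have hmin : ¬ y < t j := Nat.find_min hex (by rw [hj]; exact Nat.lt_succ_self j)
  refine ⟨j, ?_, lt_of_le_of_ne (not_lt.mp hmin) (hyt j), by rw [hj] at hspec; exact hspec⟩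
  by_contra hcon
  push Not at hcon
  have := hN j hcon
  have h2 : t j ≤ y := not_lt.mp hmin
  rw [this] at h2
  have h3 : y = b := le_antisymm hy.2 h2
  exact hyt j (by rw [this, h3])

section
variable {ι : Type*} {γ w : ι → ℝ} {F : ℝ → Finset ι} {ns : ℕ → ℝ} {L : ℝ → ℝ}

/-- Passing to the limit in the sign patterns. -/
lemma limit_pattern (hL : IsLimit γ w F ns L) {a b τ : ℝ} {N : ℕ}
    (h : ∀ᶠ n in atTop, ∃ m : ℕ, m ≤ N ∧ FewSigns (fun y => MM γ w F (ns n) y - G2 y) a b τ m) :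
    ∃ t u : ℕ → ℝ, Monotone t ∧ t 0 = a ∧ (∀ i, N ≤ i → t i = b) ∧ (∀ i, u i = 1 ∨ u i = -1) ∧
      ∀ j y, t j < y → y < t (j + 1) → ContinuousAt L y → -τ ≤ u j * (L y - G2 y) := by
  have h1 : ∀ᶠ n in atTop, ∃ t : ℕ → ℝ, Monotone t ∧ t 0 = a ∧ (∀ i, N ≤ i → t i = b) ∧ ∀ i : ℕ,
      ((∀ y, t i < y → y < t (i + 1) → MM γ w F (ns n) y - G2 y ≤ τ) ∨
        (∀ y, t i < y → y < t (i + 1) → -τ ≤ MM γ w F (ns n) y - G2 y)) := by
    filter_upwards [h] with n hn
    obtain ⟨m, hm, hf⟩ := hn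
    exact hf.pad hm
  obtain ⟨tt, htt⟩ := h1.choice
  set U : Ultrafilter ℕ := hyperfilter ℕ with hU
  have hUle : (U : Filter ℕ) ≤ atTop := Nat.hyperfilter_le_atTop
  have httU : ∀ᶠ n in (U : Filter ℕ), Monotone (tt n) ∧ tt n 0 = a ∧ (∀ i, N ≤ i → tt n i = b) ∧ ∀ i : ℕ,
      ((∀ y, tt n i < y → y < tt n (i + 1) → MM γ w F (ns n) y - G2 y ≤ τ) ∨
        (∀ y, tt n i < y → y < tt n (i + 1) → -τ ≤ MM γ w F (ns n) y - G2 y)) := hUle htt
  have hlim : ∀ i, ∃ x, Tendsto (fun n => tt n i) (U : Filter ℕ) (𝓝 x) := by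
    intro i
    have hmem : ∀ᶠ n in (U : Filter ℕ), tt n i ∈ Icc a b := by
      filter_upwards [httU] with n hn
      obtain ⟨h1, h2, h3, -⟩ := hn
      constructor
      · rw [← h2]; exact h1 (Nat.zero_le i)
      · rw [← h3 (max i N) (le_max_right _ _)]; exact h1 (le_max_left _ _)
    have hm2 : ((U.map (fun n => tt n i) : Ultrafilter ℝ) : Filter ℝ) ≤ 𝓟 (Icc a b) := by
      rw [le_principal_iff]
      exact hmem
    obtain ⟨x, _, hx⟩ := isCompact_Icc.ultrafilter_le_nhds _ hm2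
    exact ⟨x, hx⟩
  choose t ht using hlim
  classical
  set u : ℕ → ℝ := fun j => if (∀ᶠ n in (U : Filter ℕ), ∀ y, tt n j < y → y < tt n (j + 1) →
    MM γ w F (ns n) y - G2 y ≤ τ) then -1 else 1 with hu
  refine ⟨t, u, ?_, ?_, ?_, ?_, ?_⟩
  · intro i j hij
    apply le_of_tendsto_of_tendsto (ht i) (ht j)
    filter_upwards [httU] with n hn using hn.1 hij
  · apply tendsto_nhds_unique (ht 0)
    apply tendsto_const_nhds.congr'
    filter_upwards [httU] with n hn using hn.2.1.symm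
  · intro i hi
    apply tendsto_nhds_unique (ht i)
    apply tendsto_const_nhds.congr'
    filter_upwards [httU] with n hn using (hn.2.2.1 i hi).symm
  · intro i
    simp only [hu]
    split_ifs
    · right; rfl
    · left; rfl
  · intro j y h1 h2 hy
    have hconv : Tendsto (fun n => MM γ w F (ns n) y - G2 y) (U : Filter ℕ) (𝓝 (L y - G2 y)) :=
      ((hL.conv y hy).mono_left hUle).sub_const _
    have e1 : ∀ᶠ n in (U : Filter ℕ), tt n j < y := (ht j).eventually (gt_mem_nhds h1)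
    have e2 : ∀ᶠ n in (U : Filter ℕ), y < tt n (j + 1) := (ht (j + 1)).eventually (lt_mem_nhds h2)
    simp only [hu]
    split_ifs with hcase
    · have : L y - G2 y ≤ τ := by
        apply le_of_tendsto hconv
        filter_upwards [hcase, e1, e2] with n h3 h4 h5 using h3 y h4 h5
      linarith
    · have hnot : ∀ᶠ n in (U : Filter ℕ), ¬ (∀ y, tt n j < y → y < tt n (j + 1) →
          MM γ w F (ns n) y - G2 y ≤ τ) := Ultrafilter.eventually_not.mpr hcase
      have : -τ ≤ L y - G2 y := by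
        apply ge_of_tendsto hconv
        filter_upwards [hnot, httU, e1, e2] with n h3 h4 h5 h6
        rcases h4.2.2.2 j with h7 | h7
        · exact absurd h7 h3
        · exact h7 y h5 h6
      linarith

/-- **Oscillation theorem**: a limiting discrepancy with few sign changes vanishes. -/
theorem eq_of_fewSigns (hL : IsLimit γ w F ns L) {ε δ : ℝ} (hε : 0 < ε) (hδ : 0 < δ) {X Y : ℕ → ℝ}
    (hYX : ∀ k, Y k ≤ X k) (hsep : ∀ k, X k + Y k ≤ X (k + 1))
    (hYinf : Tendsto Y atTop atTop) (hlong : ¬Summable fun k => (Y k / X k) ^ 2)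
    (hyp : ∀ᶠ k in atTop, ∀ᶠ n in atTop, ∃ m : ℕ, (m : ℝ) ≤ (2 - ε) * Y k ∧
      FewSigns (fun y => MM γ w F (ns n) y - G2 y) (X k) (X k + Y k) (Real.exp (-(δ * Y k))) m) :
    ∀ᵐ β ∂vpos, L β = G2 β := by
  have hdata : ∀ k, ∃ t u : ℕ → ℝ, (∀ᶠ n in atTop, ∃ m : ℕ, (m : ℝ) ≤ (2 - ε) * Y k ∧
      FewSigns (fun y => MM γ w F (ns n) y - G2 y) (X k) (X k + Y k) (Real.exp (-(δ * Y k))) m) →
      (Monotone t ∧ t 0 = X k ∧ (∀ i, ⌊(2 - ε) * Y k⌋₊ ≤ i → t i = X k + Y k) ∧ (∀ i, u i = 1 ∨ u i = -1) ∧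
      ∀ j y, t j < y → y < t (j + 1) → ContinuousAt L y → -Real.exp (-(δ * Y k)) ≤ u j * (L y - G2 y)) := by
    intro k
    by_cases hk : ∀ᶠ n in atTop, ∃ m : ℕ, (m : ℝ) ≤ (2 - ε) * Y k ∧
      FewSigns (fun y => MM γ w F (ns n) y - G2 y) (X k) (X k + Y k) (Real.exp (-(δ * Y k))) m
    · obtain ⟨t, u, h⟩ := limit_pattern hL (N := ⌊(2 - ε) * Y k⌋₊) (by
        filter_upwards [hk] with n hn
        obtain ⟨m, hm, hf⟩ := hn
        exact ⟨m, Nat.le_floor hm, hf⟩)
      exact ⟨t, u, fun _ => h⟩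
    · exact ⟨0, 0, fun h => absurd h hk⟩
  choose t u htu using hdata
  have hZ : ({y | ¬ContinuousAt L y} ∪ ⋃ k, range (t k)).Countable :=
    hL.mono.countable_not_continuousAt.union (countable_iUnion fun k => countable_range (t k))
  apply eq_of_sign hL hε hδ hYX hsep hYinf hlong hZ
  have hpos : ∀ᶠ k in atTop, 0 < Y k := hYinf.eventually_gt_atTop 0
  filter_upwards [hyp, hpos] with k hk hYk
  obtain ⟨hmono, h0, hN, hu, hpat⟩ := htu k hk
  -- the number of pieces is at least one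
  have hNpos : 0 < (2 - ε) * Y k := by
    obtain ⟨n, m, hm, hf⟩ := hk.exists
    rcases Nat.eq_zero_or_pos m with h | h
    · subst h
      obtain ⟨t', h1, h2, -⟩ := hf
      rw [h1] at h2
      linarith
    · have : (1 : ℝ) ≤ m := by exact_mod_cast h
      linarith
  set N := ⌊(2 - ε) * Y k⌋₊ with hNdef
  have hNle : (N : ℝ) ≤ (2 - ε) * Y k := Nat.floor_le hNpos.le
  refine ⟨(Finset.Ico 1 N).filter (fun i => u k (i - 1) ≠ u k i), t k, u k (N - 1), ?_, ?_, ?_⟩
  · rcases hu (N - 1) with h | h <;> rw [h] <;> norm_num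
  · have h1 : ((Finset.Ico 1 N).filter (fun i => u k (i - 1) ≠ u k i)).card ≤ N := by
      refine (Finset.card_filter_le _ _).trans ?_
      rw [Nat.card_Ico]
      omega
    have h2 : (((Finset.Ico 1 N).filter (fun i => u k (i - 1) ≠ u k i)).card : ℝ) ≤ N := by exact_mod_cast h1
    linarith
  · intro y hy hyZ
    simp only [mem_union, mem_ofPred_eq, mem_iUnion, mem_range, not_or, not_not, not_exists] at hyZ
    obtain ⟨hcy, hty⟩ := hyZ
    obtain ⟨j, hj, h1, h2⟩ := exists_cell h0 hN hy (fun i => hty k i)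
    have h3 := sign_product hmono hu hj h1 h2
    have h4 := hpat j y h1 h2 hcy
    calc -Real.exp (-(δ * Y k)) ≤ u k j * (L y - G2 y) := h4
      _ = _ := by rw [← h3]; ring

end

end Pool.Agent.H4
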