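import Pool.Agent.H4.UC.Sep

/-!
Poonen's strengthening of the union-closed sets conjecture for small families: separating
union-closed families on `n` points with fewer than `3.2408 (n - 1)` members, and those with at
most `5.269 n` members if `n` is large. Separation may be dropped if `n + 1` is
replaced by the number of members that include at least half of the members.
-/

set_option autoImplicit false

namespace Pool.Agent.H4.OffSmallFamilies

/-- The family `A` is union-closed. -/
def UnionClosed {α : Type} [DecidableEq α] (A : Finset (Finset α)) : Prop :=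
  ∀ X ∈ A, ∀ Y ∈ A, X ∪ Y ∈ A

/-- The family `A` separates the points of its universe. -/
def Separating {α : Type} [DecidableEq α] (A : Finset (Finset α)) : Prop :=
  ∀ x ∈ A.sup id, ∀ y ∈ A.sup id, x ≠ y → ∃ S ∈ A, (x ∈ S ∧ y ∉ S) ∨ (y ∈ S ∧ x ∉ S)

/-- Some point of the universe lies in strictly more than half of the members of `A`. -/
def HasPopular {α : Type} [DecidableEq α] (A : Finset (Finset α)) : Prop :=
  ∃ x ∈ A.sup id, A.card < 2 * (A.filter (fun S => x ∈ S)).card

/-- The number of members of `A` that include (as subsets) at least half of the members of `A`. -/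
def bigCount {α : Type} [DecidableEq α] (A : Finset (Finset α)) : ℕ :=
  (A.filter (fun Z => A.card ≤ 2 * (A.filter (fun X => X ⊆ Z)).card)).card

/-- The strict union-closed sets conjecture for small families. There is `n₀` such that the
following holds for every union-closed family `A` and every natural number `m` such that either `A`
separates the points of its universe and the universe has at least `m` points, or at least `m + 1`
members of `A` include at least half of the members. If `|A| < 3.2408 (m - 1)`, or if `m ≥ n₀` and
`|A| ≤ 5.269 m`, then some point lies in strictly more than half of the members of `A`. -/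
theorem result :
    ∃ n₀ : ℕ, ∀ (α : Type) [DecidableEq α] (A : Finset (Finset α)) (m : ℕ),
      UnionClosed A →
      (Separating A ∧ m ≤ (A.sup id).card ∨ m + 1 ≤ bigCount A) →
      ((A.card : ℝ) < 3.2408 * ((m : ℝ) - 1) ∨ n₀ ≤ m ∧ (A.card : ℝ) ≤ 5.269 * m) →
      HasPopular A := by
  have hC' : (5.269 : ℝ) < 5.2691 := by norm_num
  obtain ⟨n₁, h₁⟩ := Pool.Agent.H4.UC.Sm.poonen_sep_asymp hC'
  obtain ⟨n₂, h₂⟩ := Pool.Agent.H4.UC.Sm.poonen_big_asymp hC'
  refine ⟨max n₁ n₂, ?_⟩
  intro α _ A m hA hm hcase
  rcases hcase with hsmall | ⟨hn, hN⟩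
  · rcases hm with ⟨hs, hm⟩ | hm
    · apply Pool.Agent.H4.UC.Sm.poonen_sep hA hs
      have hmr : (m : ℝ) ≤ (A.sup id).card := by exact_mod_cast hm
      refine lt_of_lt_of_le hsmall ?_
      linarith
    · apply Pool.Agent.H4.UC.Sm.poonen_big hA
      have hmr : (m : ℝ) + 1 ≤ (Pool.Agent.H4.UC.Sm.Big A).card := by
        have : ((m + 1 : ℕ) : ℝ) ≤ (Pool.Agent.H4.UC.Sm.Big A).card := by exact_mod_cast hm
        push_cast at this
        exact this
      refine lt_of_lt_of_le hsmall ?_
      linarith
  · rcases hm with ⟨hs, hm⟩ | hm
    · have hmr : (m : ℝ) ≤ (A.sup id).card := by exact_mod_cast hm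
      exact h₁ α A hA hs ((le_max_left _ _).trans (hn.trans hm)) (by linarith)
    · have hm' : m ≤ (Pool.Agent.H4.UC.Sm.Big A).card := le_trans (Nat.le_succ m) hm
      have hmr : (m : ℝ) ≤ (Pool.Agent.H4.UC.Sm.Big A).card := by exact_mod_cast hm'
      exact h₂ α A hA ((le_max_right _ _).trans (hn.trans hm')) (by linarith)

end Pool.Agent.H4.OffSmallFamilies
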