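import Mathlib
import Pool.Agent.H6.Final

open MeasureTheory Set Filter Topology
open scoped Real
open Pool.Agent.H6

namespace Pool.Agent.H4

section
variable {ι : Type*} {γ w : ι → ℝ} {F : ℝ → Finset ι} {CR : ℝ} {l : Filter ℝ}

theorem windows_of_limits [Countable ι] (I : Inputs γ w F CR) (hw1 : ∀ i, 1 ≤ w i)
    [l.IsCountablyGenerated] (hl : l ≤ atTop)
    (H : ∀ ns L, Tendsto ns atTop l → IsLimit γ w F ns L → ∀ᵐ β ∂vpos, L β = G2 β) :
    ∀ α β : ℝ, α < β → Tendsto (fun T => PW γ w F T α β) l (𝓝 (PC.gue α β)) :=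
  fun _ _ h => tendsto_windows_filter I hw1 hl (tendsto_of_limits_filter I hw1 hl H) h

theorem windows_of_le_exp [Countable ι] (I : Inputs γ w F CR) (hw1 : ∀ i, 1 ≤ w i)
    [l.IsCountablyGenerated] (hl : l ≤ atTop) {B C c : ℝ} (hc : 0 < c)
    (h : ∀ β, B ≤ β → 0 < β → ∀ ε : ℝ, 0 < ε → ∀ᶠ T in l,
      PW γ w F T (-β) β ≤ PC.gue (-β) β + C * Real.exp (-(c * β)) + ε) :
    ∀ α β : ℝ, α < β → Tendsto (fun T => PW γ w F T α β) l (𝓝 (PC.gue α β)) := by
  apply windows_of_limits I hw1 hl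
  intro ns L hns hL
  apply hL.eq_of_le_exp' (B := max B 1) (C := C) (c := c) (by positivity) hc
  intro β hβ hcont
  have hβ0 : 0 < β := lt_of_lt_of_le (by positivity) hβ
  apply le_of_forall_pos_le_add
  intro ε hε
  have h1 := hns.eventually (h β ((le_max_left _ _).trans hβ) hβ0 ε hε)
  simp_rw [PW_symm_eq_MM] at h1
  have h2 := le_of_tendsto (hL.conv β hcont) h1
  rw [← G2_eq hβ0.le] at h2
  linarith

theorem windows_of_ge_exp [Countable ι] (I : Inputs γ w F CR) (hw1 : ∀ i, 1 ≤ w i)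
    [l.IsCountablyGenerated] (hl : l ≤ atTop) {B C c : ℝ} (hc : 0 < c)
    (h : ∀ β, B ≤ β → 0 < β → ∀ ε : ℝ, 0 < ε → ∀ᶠ T in l,
      PC.gue (-β) β - C * Real.exp (-(c * β)) - ε ≤ PW γ w F T (-β) β) :
    ∀ α β : ℝ, α < β → Tendsto (fun T => PW γ w F T α β) l (𝓝 (PC.gue α β)) := by
  apply windows_of_limits I hw1 hl
  intro ns L hns hL
  apply hL.eq_of_ge_exp' (B := max B 1) (C := C) (c := c) (by positivity) hc
  intro β hβ hcont
  have hβ0 : 0 < β := lt_of_lt_of_le (by positivity) hβ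
  apply le_of_forall_pos_le_add
  intro ε hε
  have h1 := hns.eventually (h β ((le_max_left _ _).trans hβ) hβ0 ε hε)
  simp_rw [PW_symm_eq_MM] at h1
  have h2 := ge_of_tendsto (hL.conv β hcont) h1
  rw [← G2_eq hβ0.le] at h2
  linarith

theorem windows_of_windows_le [Countable ι] (I : Inputs γ w F CR) (hw1 : ∀ i, 1 ≤ w i)
    [l.IsCountablyGenerated] (hl : l ≤ atTop) {B : ℝ} (hB : 0 ≤ B)
    (h : ∀ α β, B < α → α < β → ∀ ε : ℝ, 0 < ε → ∀ᶠ T in l,
      PW γ w F T α β ≤ PC.gue α β + ε) :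
    ∀ α β : ℝ, α < β → Tendsto (fun T => PW γ w F T α β) l (𝓝 (PC.gue α β)) := by
  have hgt1 : ∀ᶠ T in l, 1 < T := hl (eventually_gt_atTop 1)
  apply windows_of_limits I hw1 hl
  intro ns L hns hL
  apply hL.eq_of_windows_le hB
  intro c d hc hcd hcc hcd'
  have hw := I.ord.w_nonneg
  apply le_of_forall_pos_le_add
  intro ε hε
  have h1 := hns.eventually (h c d hc hcd (ε / 2) (by positivity))
  have h2 : ∀ᶠ n in atTop, MM γ w F (ns n) d - MM γ w F (ns n) c ≤ 2 * PC.gue c d + ε := by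
    filter_upwards [h1, hns.eventually hgt1] with n h3 h4
    have h5 := HW_le_PW_sub (γ := γ) (w := w) (F := F) hw h4 c d
    have h6 := MM_eq_HW (γ := γ) (w := w) (F := F) (ns n) (β := c) (by linarith)
    have h7 := MM_eq_HW (γ := γ) (w := w) (F := F) (ns n) (β := d) (by linarith)
    linarith
  have h3 := le_of_tendsto ((hL.conv d hcd').sub (hL.conv c hcc)) h2
  rw [G2_sub_eq (by linarith)]
  exact h3

theorem windows_of_windows_ge [Countable ι] (I : Inputs γ w F CR) (hw1 : ∀ i, 1 ≤ w i)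
    [l.IsCountablyGenerated] (hl : l ≤ atTop) {B : ℝ} (hB : 0 ≤ B)
    (h : ∀ α β, B < α → α < β → ∀ ε : ℝ, 0 < ε → ∀ᶠ T in l,
      PC.gue α β - ε ≤ PW γ w F T α β) :
    ∀ α β : ℝ, α < β → Tendsto (fun T => PW γ w F T α β) l (𝓝 (PC.gue α β)) := by
  have hgt1 : ∀ᶠ T in l, 1 < T := hl (eventually_gt_atTop 1)
  apply windows_of_limits I hw1 hl
  intro ns L hns hL
  apply hL.eq_of_windows_ge hB
  intro c d hc hcd hcc hcd'
  have hw := I.ord.w_nonneg
  have key : ∀ α, c < α → α < d → G2 d - G2 α ≤ L d - L c := by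
    intro α hα hαd
    apply le_of_forall_pos_le_add
    intro ε hε
    have h1 := hns.eventually (h α d (by linarith) hαd (ε / 2) (by positivity))
    have h2 : ∀ᶠ n in atTop, 2 * PC.gue α d - ε ≤ MM γ w F (ns n) d - MM γ w F (ns n) c := by
      filter_upwards [h1, hns.eventually hgt1] with n h3 h4
      have h5 := PW_le_HW_sub (γ := γ) (w := w) (F := F) hw h4 (by linarith : 0 ≤ c) hα hαd.le
      have h6 := MM_eq_HW (γ := γ) (w := w) (F := F) (ns n) (β := c) (by linarith)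
      have h7 := MM_eq_HW (γ := γ) (w := w) (F := F) (ns n) (β := d) (by linarith)
      linarith
    have h3 := ge_of_tendsto ((hL.conv d hcd').sub (hL.conv c hcc)) h2
    rw [G2_sub_eq (by linarith)]
    linarith
  have hlim : Tendsto (fun α => G2 d - G2 α) (𝓝[>] c) (𝓝 (G2 d - G2 c)) :=
    ((continuous_const.sub continuous_G2).tendsto c).mono_left nhdsWithin_le_nhds
  apply le_of_tendsto hlim
  have h4 : ∀ᶠ α in 𝓝[>] c, α < d := nhdsWithin_le_nhds (gt_mem_nhds hcd)
  filter_upwards [self_mem_nhdsWithin, h4] with α h1 h2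
  exact key α h1 h2

end

/-- Translation to the counts of the problem. -/
theorem allWindows_iff_l (RH : RiemannHypothesis) {l : Filter ℝ} (hl : l ≤ atTop) :
    (∀ α β : ℝ, α < β → Tendsto (fun T => PC.pairCount T α β / (PC.gue α β * PC.norm T)) l (𝓝 1)) ↔
    (∀ α β : ℝ, α < β → Tendsto (fun T => PW gZ wZ FZ T α β) l (𝓝 (PC.gue α β))) := by
  have hgt1 : ∀ᶠ T in l, 1 < T := hl (eventually_gt_atTop 1)
  constructor
  · intro h α β hab
    have hg := gue_pos hab
    have h2 := (h α β hab).mul_const (PC.gue α β)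
    rw [one_mul] at h2
    apply h2.congr'
    filter_upwards [hgt1] with T hT
    have hn := norm_pos hT
    rw [PW_eq RH hT]
    field_simp
  · intro h α β hab
    have hg := gue_pos hab
    have h2 := (h α β hab).div_const (PC.gue α β)
    rw [div_self hg.ne'] at h2
    apply h2.congr'
    filter_upwards [hgt1] with T hT
    have hn := norm_pos hT
    rw [PW_eq RH hT]
    field_simp

lemma le_iff_l (RH : RiemannHypothesis) {l : Filter ℝ} (hl : l ≤ atTop) {α β K : ℝ} :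
    (∀ᶠ T in l, PC.pairCount T α β ≤ K * PC.norm T) ↔ (∀ᶠ T in l, PW gZ wZ FZ T α β ≤ K) := by
  apply eventually_congr
  filter_upwards [hl (eventually_gt_atTop 1)] with T hT
  rw [PW_eq RH hT, div_le_iff₀ (norm_pos hT)]

lemma ge_iff_l (RH : RiemannHypothesis) {l : Filter ℝ} (hl : l ≤ atTop) {α β K : ℝ} :
    (∀ᶠ T in l, K * PC.norm T ≤ PC.pairCount T α β) ↔ (∀ᶠ T in l, K ≤ PW gZ wZ FZ T α β) := by
  apply eventually_congr
  filter_upwards [hl (eventually_gt_atTop 1)] with T hT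
  rw [PW_eq RH hT, le_div_iff₀ (norm_pos hT)]

end Pool.Agent.H4
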